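import Mathlib
import Pool.Agent.Helper86.DML.Sparse

/-!
# Maps with one coefficient which is not `p`-integral: definitions

Interface of the project MQ (MP_295d38_ag): for one hundred percent of the polynomial self-maps of
affine space over `ℚ`, the return sets of all rational points are finite unions of arithmetic
progressions up to super-sparse sets, and exactly for curves.

The special coordinate is `0`, the other ones are `j.succ`, `j : Fin m`.
-/

set_option autoImplicit false

namespace Pool.Agent.Helper86.MQ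

open MvPolynomial

/-- the self-map of affine space given by polynomials -/
noncomputable def pm {n R : Type*} [CommRing R] (Φ : n → MvPolynomial n R) (x : n → R) : n → R :=
  fun i => eval x (Φ i)

/-- `Φ` has degree at most `d`, and all coefficients are `p`-integral, except for the coefficient of
`x₀ ^ d` in `Φ₀`, which has valuation `-1`. -/
structure Pre (p : ℕ) [Fact p.Prime] (m d : ℕ)
    (Φ : Fin (m + 1) → MvPolynomial (Fin (m + 1)) ℚ_[p]) : Prop where
  deg : ∀ i, (Φ i).totalDegree ≤ d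
  one : ‖coeff (Finsupp.single 0 d) (Φ 0)‖ = (p : ℝ)
  int : ∀ i s, ¬ (i = 0 ∧ s = Finsupp.single 0 d) → ‖coeff s (Φ i)‖ ≤ 1

/-- `Pre`, and the matrix of the coefficients of `x₀ ^ (d - 1) x_j` in `Φ_i`, `i, j ≠ 0`, is
invertible over `ℤ_p`. -/
structure Good (p : ℕ) [Fact p.Prime] (m d : ℕ)
    (Φ : Fin (m + 1) → MvPolynomial (Fin (m + 1)) ℚ_[p]) : Prop extends Pre p m d Φ where
  unit : ‖(Matrix.of fun i j : Fin m =>
    coeff (Finsupp.single 0 (d - 1) + Finsupp.single j.succ 1) (Φ i.succ)).det‖ = 1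

/-- the region of the fast escaping points -/
def Esc {p : ℕ} [Fact p.Prime] {m : ℕ} (x : Fin (m + 1) → ℚ_[p]) : Prop :=
  (p : ℝ) ≤ ‖x 0‖ ∧ ∀ i, ‖x i‖ ≤ ‖x 0‖

/-- the coefficients of a self-map of degree at most `d` -/
abbrev Idx (m d : ℕ) : Type := Fin (m + 1) × {s : Fin (m + 1) →₀ ℕ // s.degree ≤ d}

/-- the coefficients modulo `p`, with the exception of the one at `x₀ ^ d` in `Φ₀` -/
def Red {p : ℕ} [Fact p.Prime] {m d : ℕ} (Φ : Fin (m + 1) → MvPolynomial (Fin (m + 1)) ℚ_[p])
    (c : Idx m d → ZMod p) : Prop :=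
  ∀ k : Idx m d, ¬ (k.1 = 0 ∧ k.2.1 = Finsupp.single 0 d) →
    ∃ z : ℤ_[p], (z : ℚ_[p]) = coeff k.2.1 (Φ k.1) ∧ PadicInt.toZMod z = c k

end Pool.Agent.Helper86.MQ
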