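import Pool.Agent.Helper86.MQ.LocalAll

/-!
# A hypersurface which is given in advance is met only finitely often
-/

set_option autoImplicit false

namespace Pool.Agent.Helper86.MQ

open MvPolynomial Filter Topology Pool.Agent.Helper86.DML
open Pool.Agent.Helper26.MQ (comp coeff_comp exists_lift' step_chart esc_iterate hz eval_hz
  eval_chart norm_unit_add p_mul_lt Esc.ne_zero Esc.exists_chart)

variable {p : ℕ} [hp : Fact p.Prime] {m d : ℕ}

/-- the index of the monomial `x₀ ^ d` in the component `i` -/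
noncomputable def xd (m d : ℕ) (i : Fin m) : Idx m d := (i.succ, ⟨Finsupp.single 0 d, by simp⟩)

/-- the monomials of `G` which dominate at the attracting point -/
noncomputable def domM {R : Type*} [CommRing R] (D k : ℕ) (G : MvPolynomial (Fin (m + 1)) R) :
    Finset (Fin (m + 1) →₀ ℕ) :=
  G.support.filter fun s => s.degree = D ∧ (Finsupp.tail s).degree = k

theorem eval_zero_comp (a : Idx m d → ℤ_[p]) (i : Fin m) :
    eval 0 (comp a i.succ) = a (xd m d i) := by
  classical
  have e0 : (0 : Fin (m + 1) → ℤ_[p]) = Fin.cons 0 0 := by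
    funext j
    refine Fin.cases ?_ (fun i => ?_) j <;> simp
  rw [comp, e0, eval_hz]
  rw [Finset.sum_eq_single (⟨Finsupp.single 0 d, by simp⟩ :
    {s : Fin (m + 1) →₀ ℕ // s.degree ≤ d})]
  · simp [xd, Fin.succ_ne_zero]
  · intro e _ he
    by_cases h1 : (e : Fin (m + 1) →₀ ℕ).degree = d
    · have h2 : ∃ j : Fin m, (e : Fin (m + 1) →₀ ℕ) j.succ ≠ 0 := by
        by_contra hcon
        push Not at hcon
        apply he
        apply Subtype.ext
        have h3 : (e : Fin (m + 1) →₀ ℕ) 0 = d := by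
          have := Pool.Agent.Helper26.MQ.degree_succ (e : Fin (m + 1) →₀ ℕ)
          rw [h1, Finset.sum_eq_zero (fun j _ => hcon j), add_zero] at this
          exact this.symm
        ext j
        refine Fin.cases ?_ (fun j => ?_) j
        · simp [h3]
        · rw [hcon j, Finsupp.single_apply, if_neg (Fin.succ_ne_zero j).symm]
      obtain ⟨j, hj⟩ := h2
      rw [Finset.prod_eq_zero (Finset.mem_univ j) (by rw [Pi.zero_apply, zero_pow hj]), mul_zero,
        mul_zero]
    · have h2 : d - (e : Fin (m + 1) →₀ ℕ).degree ≠ 0 := by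
        have := e.2
        omega
      rw [zero_pow h2, zero_mul, mul_zero]
  · simp

/-- the dominating part of `G` -/
noncomputable def hpoly (D k : ℕ) (G : MvPolynomial (Fin (m + 1)) ℤ_[p]) :
    MvPolynomial (Fin m) (ZMod p) :=
  ∑ s ∈ domM D k G, monomial (Finsupp.tail s) (PadicInt.toZMod (coeff s G))

theorem eval_hpoly (D k : ℕ) (G : MvPolynomial (Fin (m + 1)) ℤ_[p]) (a : Fin m → ℤ_[p]) :
    eval (fun i => PadicInt.toZMod (a i)) (hpoly D k G) =
      PadicInt.toZMod (∑ s ∈ domM D k G, coeff s G * ∏ j : Fin m, a j ^ s j.succ) := by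
  rw [hpoly, map_sum, map_sum]
  refine Finset.sum_congr rfl fun s _ => ?_
  rw [eval_monomial, Finsupp.prod_fintype _ _ (by simp), map_mul, map_prod]
  congr 1
  refine Finset.prod_congr rfl fun j _ => ?_
  rw [map_pow, Finsupp.tail_apply]

theorem tail_degree (s : Fin (m + 1) →₀ ℕ) : (Finsupp.tail s).degree = ∑ j : Fin m, s j.succ := by
  rw [Finsupp.degree_eq_sum]
  rfl

/-- the expansion at the attracting point -/
theorem eval_hz_dvd {D k : ℕ} {G : MvPolynomial (Fin (m + 1)) ℤ_[p]}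
    (hk : ∀ s ∈ G.support, s.degree = D → k ≤ (Finsupp.tail s).degree)
    (hD : ∀ s ∈ G.support, s.degree ≤ D) {t : ℤ_[p]} (ht : (p : ℤ_[p]) ^ (k + 1) ∣ t)
    (b : Fin m → ℤ_[p]) :
    (p : ℤ_[p]) ^ (k + 1) ∣
      eval (Fin.cons t (fun j => p * b j)) (hz G.support id (fun s => coeff s G) D) -
        (p : ℤ_[p]) ^ k * ∑ s ∈ domM D k G, coeff s G * ∏ j : Fin m, b j ^ s j.succ := by
  classical
  rw [eval_hz, domM, Finset.sum_filter, Finset.mul_sum, ← Finset.sum_sub_distrib]
  refine Finset.dvd_sum fun s hs => ?_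
  by_cases h1 : s.degree = D
  · have e1 : ∏ j : Fin m, ((p : ℤ_[p]) * b j) ^ (id s : Fin (m + 1) →₀ ℕ) j.succ =
        (p : ℤ_[p]) ^ (Finsupp.tail s).degree * ∏ j : Fin m, b j ^ s j.succ := by
      rw [tail_degree, ← Finset.prod_pow_eq_pow_sum, ← Finset.prod_mul_distrib]
      refine Finset.prod_congr rfl fun j _ => ?_
      rw [mul_pow, id]
    rw [e1]
    have e2 : D - (id s : Fin (m + 1) →₀ ℕ).degree = 0 := by rw [id, h1, Nat.sub_self]
    rw [e2, pow_zero, one_mul]
    by_cases h2 : (Finsupp.tail s).degree = k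
    · rw [if_pos ⟨h1, h2⟩, h2]
      have : coeff s G * ((p : ℤ_[p]) ^ k * ∏ j : Fin m, b j ^ s j.succ) -
          (p : ℤ_[p]) ^ k * (coeff s G * ∏ j : Fin m, b j ^ s j.succ) = 0 := by ring
      rw [this]
      exact dvd_zero _
    · rw [if_neg (fun h => h2 h.2), mul_zero, sub_zero]
      have h3 := hk s hs h1
      refine Dvd.dvd.mul_left (Dvd.dvd.mul_right (pow_dvd_pow _ ?_) _) _
      omega
  · rw [if_neg (fun h => h1 h.1), mul_zero, sub_zero]
    have h3 := hD s hs
    have h4 : D - (id s : Fin (m + 1) →₀ ℕ).degree ≠ 0 := by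
      rw [id]
      omega
    exact Dvd.dvd.mul_left (Dvd.dvd.mul_right (dvd_pow ht h4) _) _

/-- **Local theorem for one hypersurface**: the orbits leave it. -/
theorem fixed_local (hd : 2 ≤ d) {Φ : Fin (m + 1) → MvPolynomial (Fin (m + 1)) ℚ_[p]}
    (hΦ : Pre p m d Φ) {c : Idx m d → ZMod p} (hc : Red Φ c) {x : Fin (m + 1) → ℚ_[p]}
    (hx : Esc x) {D k : ℕ} {G : MvPolynomial (Fin (m + 1)) ℤ_[p]}
    (hk : ∀ s ∈ G.support, s.degree = D → k ≤ (Finsupp.tail s).degree)
    (hD : ∀ s ∈ G.support, s.degree ≤ D)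
    (hG : eval (fun i => c (xd m d i)) (hpoly D k G) ≠ 0) :
    {n | eval ((pm Φ)^[n] x) (map (PadicInt.Coe.ringHom (p := p)) G) = 0}.Finite := by
  classical
  have hp0 : (p : ℚ_[p]) ≠ 0 := by exact_mod_cast hp.out.ne_zero
  have hp0' : (p : ℤ_[p]) ≠ 0 := by exact_mod_cast hp.out.ne_zero
  have hp1 : (1 : ℝ) < p := by exact_mod_cast hp.out.one_lt
  obtain ⟨a, s, hs, ha, hΦx⟩ := exists_lift' hΦ
  have hus : ‖(p : ℚ_[p]) * s‖ = 1 := by
    rw [norm_mul, Padic.norm_p, hs]
    field_simp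
  set u : ℤ_[p] := ⟨p * s, hus.le⟩ with hu
  have hu1 : ‖u‖ = 1 := hus
  have hesc := esc_iterate hd hΦ hx
  choose t y ht hy using fun n => Esc.exists_chart (hesc n)
  have hne : ∀ n, (pm Φ)^[n] x 0 ≠ 0 := fun n => Esc.ne_zero (hesc n)
  have hden : ∀ n, ‖u + p * eval (Fin.cons (t n) (y n)) (comp a 0)‖ = 1 := fun n =>
    norm_unit_add hu1 (p_mul_lt _)
  have hdne : ∀ n, ((u + p * eval (Fin.cons (t n) (y n)) (comp a 0) : ℤ_[p]) : ℚ_[p]) ≠ 0 := by
    intro n h0
    have h1 := hden n
    have h2 : ‖((u + p * eval (Fin.cons (t n) (y n)) (comp a 0) : ℤ_[p]) : ℚ_[p])‖ = 1 := h1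
    rw [h0, norm_zero] at h2
    exact zero_ne_one h2
  have hU : ∀ n, IsUnit (u + p * eval (Fin.cons (t n) (y n)) (comp a 0)) := fun n =>
    PadicInt.isUnit_iff.2 (hden n)
  have hstep := fun n => step_chart hΦx (u := u) rfl (hne n) (ht n) (hy n)
  have hst : ∀ n, (u + p * eval (Fin.cons (t n) (y n)) (comp a 0)) * t (n + 1) = p * t n ^ d := by
    intro n
    apply Subtype.coe_injective
    change (((u + p * eval (Fin.cons (t n) (y n)) (comp a 0)) * t (n + 1) : ℤ_[p]) : ℚ_[p]) =
      ((p * t n ^ d : ℤ_[p]) : ℚ_[p])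
    rw [PadicInt.coe_mul, ht (n + 1), Function.iterate_succ_apply', (hstep n).1, PadicInt.coe_mul,
      PadicInt.coe_pow, PadicInt.coe_natCast, ht n, inv_pow]
    have h1 := hdne n
    have h2 := hne n
    field_simp
  have hsy : ∀ n i, (u + p * eval (Fin.cons (t n) (y n)) (comp a 0)) * y (n + 1) i =
      p * eval (Fin.cons (t n) (y n)) (comp a i.succ) := by
    intro n i
    apply Subtype.coe_injective
    change (((u + p * eval (Fin.cons (t n) (y n)) (comp a 0)) * y (n + 1) i : ℤ_[p]) : ℚ_[p]) =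
      ((p * eval (Fin.cons (t n) (y n)) (comp a i.succ) : ℤ_[p]) : ℚ_[p])
    rw [PadicInt.coe_mul, hy (n + 1), Function.iterate_succ_apply', (hstep n).1, (hstep n).2,
      PadicInt.coe_mul, PadicInt.coe_natCast]
    have h1 := hdne n
    have h2 := hne n
    field_simp
  -- `t n` is divisible by `p ^ (n + 1)`
  have ht1 : ∀ n, (p : ℤ_[p]) ^ (n + 1) ∣ t n := by
    intro n
    induction n with
    | zero =>
      have h1 : ‖t 0‖ = ‖((pm Φ)^[0] x 0)⁻¹‖ := by
        rw [← ht 0]
        rfl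
      have h2 : ‖t 0‖ < 1 := by
        rw [h1, norm_inv]
        exact inv_lt_one_of_one_lt₀ (hp1.trans_le (hesc 0).1)
      rw [zero_add, pow_one, ← Ideal.mem_span_singleton, ← PadicInt.maximalIdeal_eq_span_p]
      exact (IsLocalRing.mem_maximalIdeal _).2 (PadicInt.mem_nonunits.2 h2)
    | succ n ih =>
      refine ((hU n).dvd_mul_left).mp ?_
      rw [hst n, pow_succ' _ (n + 1)]
      refine mul_dvd_mul_left _ (ih.trans (dvd_pow_self _ (by omega)))
  have hpt : ∀ n, (p : ℤ_[p]) ∣ t n := fun n => (dvd_pow_self _ (by omega)).trans (ht1 n)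
  -- `y (n + 1) = p b n`
  choose w hw using fun n => (hU n).exists_right_inv
  set b : ℕ → Fin m → ℤ_[p] := fun n i => w n * eval (Fin.cons (t n) (y n)) (comp a i.succ)
    with hb
  have hyb : ∀ n i, y (n + 1) i = p * b n i := by
    intro n i
    have h1 : w n * ((u + p * eval (Fin.cons (t n) (y n)) (comp a 0)) * y (n + 1) i) =
        y (n + 1) i := by
      rw [← mul_assoc, mul_comm (w n), hw n, one_mul]
    rw [← h1, hsy n i, hb]
    ring
  -- the residue of `b (n + 1)`
  have hev : ∀ (F : MvPolynomial (Fin (m + 1)) ℤ_[p]) n,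
      (p : ℤ_[p]) ∣ eval (Fin.cons (t (n + 1)) (y (n + 1))) F - eval 0 F := by
    intro F n
    apply eval_congr_mod
    intro j
    refine Fin.cases ?_ (fun i => ?_) j
    · simpa using hpt (n + 1)
    · simp only [Fin.cons_succ, Pi.zero_apply, sub_zero, hyb]
      exact dvd_mul_right _ _
  have hres : ∀ n i, (p : ℤ_[p]) ∣ u * b (n + 1) i - eval 0 (comp a i.succ) := by
    intro n i
    have h1 : (u + p * eval (Fin.cons (t (n + 1)) (y (n + 1))) (comp a 0)) * b (n + 1) i =
        eval (Fin.cons (t (n + 1)) (y (n + 1))) (comp a i.succ) := by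
      rw [hb]
      simp only
      rw [← mul_assoc, hw (n + 1), one_mul]
    have h2 : u * b (n + 1) i - eval 0 (comp a i.succ) =
        (eval (Fin.cons (t (n + 1)) (y (n + 1))) (comp a i.succ) - eval 0 (comp a i.succ)) -
          p * (eval (Fin.cons (t (n + 1)) (y (n + 1))) (comp a 0) * b (n + 1) i) := by
      rw [← h1]
      ring
    rw [h2]
    exact dvd_sub (hev _ n) (dvd_mul_right _ _)
  have hz0 : ∀ i : Fin m, PadicInt.toZMod (eval 0 (comp a i.succ)) = c (xd m d i) := by
    intro i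
    obtain ⟨z, hz1, hz2⟩ := hc (xd m d i) (fun h => Fin.succ_ne_zero _ h.1)
    have h1 := ha (xd m d i) (fun h => Fin.succ_ne_zero _ h.1)
    have h2 : z = a (xd m d i) := Subtype.coe_injective (hz1.trans h1.symm)
    rw [eval_zero_comp, ← h2, hz2]
  -- the values at large times
  have hfin : ∀ n, k + 1 ≤ n →
      eval ((pm Φ)^[n + 2] x) (map (PadicInt.Coe.ringHom (p := p)) G) ≠ 0 := by
    intro n hn h0
    have h1 := eval_chart G.support id (fun s => coeff s G) D hD ((pm Φ)^[n + 2] x)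
      (hne (n + 2)) (t (n + 2)) (y (n + 2)) (ht _) (hy _)
    have h2 : ∑ i ∈ G.support, ((coeff i G : ℤ_[p]) : ℚ_[p]) *
        ∏ j, (pm Φ)^[n + 2] x j ^ (id i : Fin (m + 1) →₀ ℕ) j =
        eval ((pm Φ)^[n + 2] x) (map (PadicInt.Coe.ringHom (p := p)) G) := by
      rw [eval_map, eval₂_eq']
      rfl
    rw [h2, h0] at h1
    have h3 : eval (Fin.cons (t (n + 2)) (y (n + 2))) (hz G.support id (fun s => coeff s G) D) = 0 := by
      have h4 := (mul_eq_zero.1 h1.symm).resolve_left (pow_ne_zero _ (hne (n + 2)))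
      exact Subtype.coe_injective (h4.trans PadicInt.coe_zero.symm)
    have h5 : y (n + 2) = fun j => p * b (n + 1) j := funext fun j => hyb (n + 1) j
    rw [h5] at h3
    have h6 := eval_hz_dvd hk hD (t := t (n + 2))
      ((pow_dvd_pow _ (by omega)).trans (ht1 (n + 2))) (b (n + 1))
    rw [h3, zero_sub, dvd_neg, pow_succ] at h6
    have h7 := (mul_dvd_mul_iff_left (pow_ne_zero k hp0')).1 h6
    apply hG
    have h8 : (fun i => c (xd m d i)) =
        fun i => PadicInt.toZMod (u * b (n + 1) i) := by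
      funext i
      rw [← hz0 i, ← sub_eq_zero, ← map_sub]
      have h9 := hres n i
      obtain ⟨v, hv⟩ := h9
      have h10 : eval 0 (comp a i.succ) - u * b (n + 1) i = p * (-v) := by
        rw [mul_neg, ← hv]
        ring
      rw [h10, map_mul, map_natCast, CharP.cast_eq_zero, zero_mul]
    rw [h8, eval_hpoly]
    have h11 : ∑ s ∈ domM D k G, coeff s G * ∏ j : Fin m, (u * b (n + 1) j) ^ s j.succ =
        u ^ k * ∑ s ∈ domM D k G, coeff s G * ∏ j : Fin m, b (n + 1) j ^ s j.succ := by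
      rw [Finset.mul_sum]
      refine Finset.sum_congr rfl fun s hs => ?_
      have h12 : (Finsupp.tail s).degree = k := (Finset.mem_filter.1 hs).2.2
      rw [← h12, tail_degree, ← Finset.prod_pow_eq_pow_sum, mul_left_comm,
        ← Finset.prod_mul_distrib]
      congr 1
      exact Finset.prod_congr rfl fun j _ => mul_pow _ _ _
    rw [h11, map_mul]
    obtain ⟨v, hv⟩ := h7
    rw [hv, map_mul, map_natCast, CharP.cast_eq_zero, zero_mul, mul_zero]
  refine (Finset.range (k + 3)).finite_toSet.subset fun n hn => ?_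
  by_contra hcon
  rw [Finset.mem_coe, Finset.mem_range] at hcon
  obtain ⟨l, rfl⟩ : ∃ l, n = l + 2 := ⟨n - 2, by omega⟩
  exact hfin l (by omega) hn

end Pool.Agent.Helper86.MQ
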