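import Mathlib

/-!
# Sequences with expansions in powers of a given sequence

`ExJ A s J`: the sequences `a` for which there is a polynomial `P` with coefficients in the algebra
`A` of sequences such that `s n ^ J` divides `a n - P(s) n` for all `n`.
-/

set_option autoImplicit false

namespace Pool.Agent.Helper86.MQ

open Polynomial

section defs

variable {R : Type*} [CommRing R]

/-- sequences which agree modulo `s ^ J` with a polynomial in `s` with coefficients in `A` -/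
noncomputable def ExJ (A : Subalgebra R (ℕ → R)) (s : ℕ → R) (J : ℕ) : Subalgebra R (ℕ → R) where
  carrier := {a | ∃ P : (↥A)[X], ∀ n, s n ^ J ∣ a n - (aeval s P : ℕ → R) n}
  mul_mem' := by
    rintro a b ⟨P, hP⟩ ⟨Q, hQ⟩
    refine ⟨P * Q, fun n => ?_⟩
    rw [map_mul, Pi.mul_apply, Pi.mul_apply]
    have e : a n * b n - (aeval s P : ℕ → R) n * (aeval s Q : ℕ → R) n =
        a n * (b n - (aeval s Q : ℕ → R) n) + (aeval s Q : ℕ → R) n * (a n - (aeval s P : ℕ → R) n) := by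
      ring
    rw [e]
    exact dvd_add (Dvd.dvd.mul_left (hQ n) _) (Dvd.dvd.mul_left (hP n) _)
  add_mem' := by
    rintro a b ⟨P, hP⟩ ⟨Q, hQ⟩
    refine ⟨P + Q, fun n => ?_⟩
    rw [map_add, Pi.add_apply, Pi.add_apply]
    have e : a n + b n - ((aeval s P : ℕ → R) n + (aeval s Q : ℕ → R) n) =
        (a n - (aeval s P : ℕ → R) n) + (b n - (aeval s Q : ℕ → R) n) := by
      ring
    rw [e]
    exact dvd_add (hP n) (hQ n)
  algebraMap_mem' := by
    intro r
    refine ⟨C ⟨algebraMap R (ℕ → R) r, A.algebraMap_mem r⟩, fun n => ?_⟩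
    rw [aeval_C]
    simp

variable {A : Subalgebra R (ℕ → R)} {s : ℕ → R} {J : ℕ}

lemma mem_ExJ {a : ℕ → R} :
    a ∈ ExJ A s J ↔ ∃ P : (↥A)[X], ∀ n, s n ^ J ∣ a n - (aeval s P : ℕ → R) n := Iff.rfl

lemma mem_ExJ_of_mem {a : ℕ → R} (ha : a ∈ A) : a ∈ ExJ A s J := by
  refine ⟨C ⟨a, ha⟩, fun n => ?_⟩
  rw [aeval_C]
  simp

lemma self_mem_ExJ : s ∈ ExJ A s J := by
  refine ⟨X, fun n => ?_⟩
  rw [aeval_X]
  simp

lemma mem_ExJ_of_dvd {a : ℕ → R} (h : ∀ n, s n ^ J ∣ a n) : a ∈ ExJ A s J := by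
  refine ⟨0, fun n => ?_⟩
  rw [map_zero]
  simpa using h n

lemma mem_ExJ_zero {a : ℕ → R} : a ∈ ExJ A s 0 := mem_ExJ_of_dvd fun n => by simp

lemma mul_mem_ExJ_succ {a : ℕ → R} (ha : a ∈ ExJ A s J) : s * a ∈ ExJ A s (J + 1) := by
  obtain ⟨P, hP⟩ := ha
  refine ⟨X * P, fun n => ?_⟩
  rw [map_mul, aeval_X, Pi.mul_apply, Pi.mul_apply, ← mul_sub, pow_succ']
  exact mul_dvd_mul_left _ (hP n)

lemma ExJ_anti {J K : ℕ} (h : J ≤ K) : ExJ A s K ≤ ExJ A s J := by
  rintro a ⟨P, hP⟩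
  exact ⟨P, fun n => (pow_dvd_pow _ h).trans (hP n)⟩

/-- sequences with expansions to all orders -/
noncomputable def Ex (A : Subalgebra R (ℕ → R)) (s : ℕ → R) : Subalgebra R (ℕ → R) := ⨅ J, ExJ A s J

lemma mem_Ex {a : ℕ → R} : a ∈ Ex A s ↔ ∀ J, a ∈ ExJ A s J := Algebra.mem_iInf

lemma mem_Ex_of_mem {a : ℕ → R} (ha : a ∈ A) : a ∈ Ex A s := mem_Ex.mpr fun _ => mem_ExJ_of_mem ha

lemma self_mem_Ex : s ∈ Ex A s := mem_Ex.mpr fun _ => self_mem_ExJ

/-- `A` is closed under inversion -/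
def InvCl (A : Subalgebra R (ℕ → R)) : Prop := ∀ a ∈ A, ∀ a' : ℕ → R, a * a' = 1 → a' ∈ A

lemma dvd_aeval_sub_coeff_zero (P : (↥A)[X]) (n : ℕ) :
    s n ∣ (aeval s P : ℕ → R) n - (P.coeff 0 : ℕ → R) n := by
  have h := P.divX_mul_X_add
  have h1 : (aeval s P : ℕ → R) = (aeval s P.divX : ℕ → R) * s + (P.coeff 0 : ℕ → R) := by
    conv_lhs => rw [← h]
    rw [map_add, map_mul, aeval_X, aeval_C]
    rfl
  rw [h1]
  simp only [Pi.add_apply, Pi.mul_apply, add_sub_cancel_right]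
  exact dvd_mul_left _ _

/-- units: the elements congruent to a unit modulo `s n` are units -/
lemma InvCl.ExJ (hA : InvCl A) (hs : ∀ n, ∀ x : R, s n ∣ x - 1 → IsUnit x) :
    InvCl (ExJ A s J) := by
  intro a ha a' haa'
  rcases Nat.eq_zero_or_pos J with rfl | hJ
  · exact mem_ExJ_zero
  obtain ⟨P, hP⟩ := ha
  have hn : ∀ n, a n * a' n = 1 := fun n => congrFun haa' n
  -- the constant coefficient is invertible
  have hb : ∀ n, s n ∣ a n - (P.coeff 0 : ℕ → R) n := by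
    intro n
    have h1 : s n ∣ a n - (aeval s P : ℕ → R) n := (dvd_pow_self _ (by omega)).trans (hP n)
    have h2 := dvd_add h1 (dvd_aeval_sub_coeff_zero (s := s) P n)
    simpa using h2
  have hbu : ∀ n, IsUnit ((P.coeff 0 : ℕ → R) n) := by
    intro n
    have h1 : s n ∣ (P.coeff 0 : ℕ → R) n * a' n - 1 := by
      have e : (P.coeff 0 : ℕ → R) n * a' n - 1 = -((a n - (P.coeff 0 : ℕ → R) n) * a' n) := by
        have := hn n
        linear_combination this
      rw [e]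
      exact (dvd_neg).mpr (Dvd.dvd.mul_right (hb n) _)
    exact isUnit_of_mul_isUnit_left (hs n _ h1)
  choose c hc using fun n => (hbu n).exists_right_inv
  have hcA : c ∈ A := hA _ (P.coeff 0).2 c (funext hc)
  -- `x = 1 - a c`
  set x : ℕ → R := 1 - a * c with hx
  have haE : a ∈ Pool.Agent.Helper86.MQ.ExJ A s J := ⟨P, hP⟩
  have hcE : c ∈ Pool.Agent.Helper86.MQ.ExJ A s J := mem_ExJ_of_mem hcA
  have hxE : x ∈ Pool.Agent.Helper86.MQ.ExJ A s J :=
    sub_mem (one_mem _) (mul_mem haE hcE)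
  have hxs : ∀ n, s n ∣ x n := by
    intro n
    have e : x n = -((a n - (P.coeff 0 : ℕ → R) n) * c n) := by
      have := hc n
      simp only [hx, Pi.sub_apply, Pi.one_apply, Pi.mul_apply]
      linear_combination -this
    rw [e]
    exact (dvd_neg).mpr (Dvd.dvd.mul_right (hb n) _)
  have key : a' = c * ∑ k ∈ Finset.range J, x ^ k + a' * x ^ J := by
    have h1 : (1 - x) * ∑ k ∈ Finset.range J, x ^ k = 1 - x ^ J := by
      rw [mul_comm]
      exact mul_comm (1 - x) _ ▸ mul_neg_geom_sum x J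
    have h2 : (1 : ℕ → R) - x = a * c := by rw [hx]; ring
    rw [h2] at h1
    have h3 : a' * (a * c * ∑ k ∈ Finset.range J, x ^ k) = a' * (1 - x ^ J) := by rw [h1]
    have h4 : a' * (a * c * ∑ k ∈ Finset.range J, x ^ k) = c * ∑ k ∈ Finset.range J, x ^ k := by
      calc a' * (a * c * ∑ k ∈ Finset.range J, x ^ k)
          = (a * a') * (c * ∑ k ∈ Finset.range J, x ^ k) := by ring
        _ = _ := by rw [haa', one_mul]
    rw [← h4, h3]
    ring
  rw [key]
  refine add_mem (mul_mem hcE (sum_mem fun k _ => pow_mem hxE k)) (mem_ExJ_of_dvd fun n => ?_)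
  rw [Pi.mul_apply, Pi.pow_apply]
  exact Dvd.dvd.mul_left (pow_dvd_pow_of_dvd (hxs n) _) _

lemma InvCl.Ex (hA : InvCl A) (hs : ∀ n, ∀ x : R, s n ∣ x - 1 → IsUnit x) : InvCl (Ex A s) := by
  intro a ha a' haa'
  rw [mem_Ex] at ha ⊢
  exact fun J => hA.ExJ hs a (ha J) a' haa'

/-- the shift -/
def sh (a : ℕ → R) : ℕ → R := fun n => a (n + 1)

/-- reindexing of sequences is an algebra homomorphism -/
def reix (φ : ℕ → ℕ) : (ℕ → R) →ₐ[R] (ℕ → R) where
  toFun a := fun n => a (φ n)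
  map_one' := rfl
  map_mul' _ _ := rfl
  map_zero' := rfl
  map_add' _ _ := rfl
  commutes' _ := rfl

@[simp] lemma reix_apply (φ : ℕ → ℕ) (a : ℕ → R) (n : ℕ) : reix φ a n = a (φ n) := rfl

lemma sh_eq (a : ℕ → R) : sh a = reix (· + 1) a := rfl

lemma reix_aeval (φ : ℕ → ℕ) {A' : Subalgebra R (ℕ → R)} (h : ∀ a ∈ A, reix φ a ∈ A')
    (P : (↥A)[X]) : ∃ P' : (↥A')[X], reix φ (aeval s P : ℕ → R) = aeval (reix φ s) P' := by
  let ψ : ↥A →+* ↥A' :=
    { toFun := fun a => ⟨reix φ a.1, h a.1 a.2⟩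
      map_one' := by ext; rfl
      map_mul' := fun _ _ => by ext; rfl
      map_zero' := by ext; rfl
      map_add' := fun _ _ => by ext; rfl }
  refine ⟨P.map ψ, ?_⟩
  rw [aeval_def, aeval_def, eval₂_map]
  have h2 := Polynomial.hom_eval₂ P (algebraMap (↥A) (ℕ → R)) ((reix φ : (ℕ → R) →ₐ[R] (ℕ → R)) : (ℕ → R) →+* (ℕ → R)) s
  have h3 : ((reix φ : (ℕ → R) →ₐ[R] (ℕ → R)) : (ℕ → R) →+* (ℕ → R)) (eval₂ (algebraMap (↥A) (ℕ → R)) s P) =
    reix φ (eval₂ (algebraMap (↥A) (ℕ → R)) s P) := rfl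
  rw [h3] at h2
  rw [h2]
  rfl

lemma reix_ExJ (φ : ℕ → ℕ) {A' : Subalgebra R (ℕ → R)} (h : ∀ a ∈ A, reix φ a ∈ A')
    {a : ℕ → R} (ha : a ∈ ExJ A s J) : reix φ a ∈ ExJ A' (reix φ s) J := by
  obtain ⟨P, hP⟩ := ha
  obtain ⟨P', hP'⟩ := reix_aeval (s := s) φ h P
  refine ⟨P', fun n => ?_⟩
  rw [← hP']
  exact hP (φ n)

lemma reix_Ex (φ : ℕ → ℕ) {A' : Subalgebra R (ℕ → R)} (h : ∀ a ∈ A, reix φ a ∈ A')
    {a : ℕ → R} (ha : a ∈ Ex A s) : reix φ a ∈ Ex A' (reix φ s) := by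
  rw [mem_Ex] at ha ⊢
  exact fun J => reix_ExJ φ h (ha J)

/-- change of the expansion variable -/
lemma ExJ_change {s' : ℕ → R} (hs : s' ∈ ExJ A s J) (hd : ∀ n, s n ∣ s' n) {a : ℕ → R}
    (ha : a ∈ ExJ A s' J) : a ∈ ExJ A s J := by
  obtain ⟨P, hP⟩ := ha
  have h1 : (aeval s' P : ℕ → R) ∈ ExJ A s J := by
    rw [aeval_eq_sum_range]
    refine sum_mem fun k _ => ?_
    have e : P.coeff k • s' ^ k = (P.coeff k : ℕ → R) * s' ^ k := rfl
    rw [e]
    exact mul_mem (mem_ExJ_of_mem (P.coeff k).2) (pow_mem hs k)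
  have h2 : a = (aeval s' P : ℕ → R) + (a - aeval s' P) := by ring
  rw [h2]
  refine add_mem h1 (mem_ExJ_of_dvd fun n => ?_)
  exact (pow_dvd_pow_of_dvd (hd n) J).trans (hP n)

/-- the shift of an expansion -/
lemma sh_ExJ (hA : ∀ a ∈ A, sh a ∈ A) (hs : sh s ∈ ExJ A s J) (hd : ∀ n, s n ∣ s (n + 1))
    {a : ℕ → R} (ha : a ∈ ExJ A s J) : sh a ∈ ExJ A s J :=
  ExJ_change hs hd (reix_ExJ (· + 1) hA ha)

end defs

section dich

variable {R : Type*} [CommRing R] [IsDomain R] {A : Subalgebra R (ℕ → R)} {s : ℕ → R}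

/-- `s` eventually divides no nonzero element of `A` -/
def SepE (A : Subalgebra R (ℕ → R)) (s : ℕ → R) : Prop :=
  ∀ b ∈ A, (∃ n₀, ∀ n ≥ n₀, s n ∣ b n) → b = 0

/-- the leading term of an expansion -/
theorem Ex_dich (hsep : SepE A s) (hs0 : ∀ n, s n ≠ 0)
    (hH : ∀ n x, (∀ J : ℕ, s n ^ J ∣ x) → x = 0) {a : ℕ → R} (ha : a ∈ Ex A s) (hne : a ≠ 0) :
    ∃ (J : ℕ) (b : ℕ → R), b ∈ A ∧ b ≠ 0 ∧ ∀ n, s n ^ (J + 1) ∣ a n - s n ^ J * b n := by
  classical
  rw [mem_Ex] at ha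
  have hex : ∃ J, ¬ ∀ n, s n ^ J ∣ a n := by
    by_contra hcon
    push Not at hcon
    exact hne (funext fun n => hH n _ fun J => hcon J n)
  obtain ⟨J, hJ⟩ : ∃ J, Nat.find hex = J + 1 := by
    refine Nat.exists_eq_succ_of_ne_zero fun h => ?_
    have := Nat.find_spec hex
    rw [h] at this
    exact this fun n => by simp
  have h1 : ¬ ∀ n, s n ^ (J + 1) ∣ a n := hJ ▸ Nat.find_spec hex
  have h2 : ∀ n, s n ^ J ∣ a n := by
    have := Nat.find_min hex (m := J) (by omega)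
    push Not at this
    exact this
  obtain ⟨P, hP⟩ := ha (J + 1)
  have h3 : ∀ j ≤ J, (X : (↥A)[X]) ^ j ∣ P := by
    intro j
    induction j with
    | zero => intro _; simp
    | succ j ih =>
      intro hj
      obtain ⟨Q, hQ⟩ := ih (by omega)
      have h4 : ∀ n, s n ∣ (aeval s Q : ℕ → R) n := by
        intro n
        have h5 : s n ^ (j + 1) ∣ (aeval s P : ℕ → R) n := by
          have h6 : s n ^ (j + 1) ∣ a n := (pow_dvd_pow _ hj).trans (h2 n)
          have h7 : s n ^ (j + 1) ∣ a n - (aeval s P : ℕ → R) n :=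
            (pow_dvd_pow _ (by omega)).trans (hP n)
          have := dvd_sub h6 h7
          simpa using this
        rw [hQ, map_mul, map_pow, aeval_X, Pi.mul_apply, Pi.pow_apply, pow_succ] at h5
        exact (mul_dvd_mul_iff_left (pow_ne_zero _ (hs0 n))).mp h5
      have h5 : (Q.coeff 0 : ℕ → R) = 0 := by
        apply hsep _ (Q.coeff 0).2
        refine ⟨0, fun n _ => ?_⟩
        have h6 := dvd_sub (h4 n) (dvd_aeval_sub_coeff_zero (s := s) Q n)
        simpa using h6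
      have h6 : (X : (↥A)[X]) ∣ Q := by
        rw [X_dvd_iff]
        exact Subtype.ext h5
      rw [hQ, pow_succ]
      exact mul_dvd_mul_left _ h6
  obtain ⟨Q, hQ⟩ := h3 J le_rfl
  have h4 : ∀ n, s n ^ (J + 1) ∣ a n - s n ^ J * (Q.coeff 0 : ℕ → R) n := by
    intro n
    have h5 := hP n
    rw [hQ, map_mul, map_pow, aeval_X, Pi.mul_apply, Pi.pow_apply] at h5
    have h6 : s n ^ (J + 1) ∣ s n ^ J * ((aeval s Q : ℕ → R) n - (Q.coeff 0 : ℕ → R) n) := by
      rw [pow_succ]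
      exact mul_dvd_mul_left _ (dvd_aeval_sub_coeff_zero (s := s) Q n)
    have h7 := dvd_add h5 h6
    have e : a n - s n ^ J * (aeval s Q : ℕ → R) n +
        s n ^ J * ((aeval s Q : ℕ → R) n - (Q.coeff 0 : ℕ → R) n) =
        a n - s n ^ J * (Q.coeff 0 : ℕ → R) n := by ring
    rwa [e] at h7
  refine ⟨J, (Q.coeff 0 : ℕ → R), (Q.coeff 0).2, ?_, h4⟩
  intro h5
  apply h1
  intro n
  have h6 := h4 n
  rw [h5] at h6
  simpa using h6

/-- separation for the next level -/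
theorem SepE.Ex (hsep : SepE A s) (hs0 : ∀ n, s n ≠ 0)
    (hH : ∀ n x, (∀ J : ℕ, s n ^ J ∣ x) → x = 0) {t : ℕ → R}
    (ht : ∀ J : ℕ, ∃ n₀, ∀ n ≥ n₀, s n ^ J ∣ t n) : SepE (Ex A s) t := by
  rintro b hb ⟨n₀, hn₀⟩
  by_contra hne
  obtain ⟨J, g, hgA, hg0, hg⟩ := Ex_dich hsep hs0 hH hb hne
  obtain ⟨n₁, hn₁⟩ := ht (J + 1)
  apply hg0
  apply hsep g hgA
  refine ⟨max n₀ n₁, fun n hn => ?_⟩
  have h1 : s n ^ (J + 1) ∣ b n :=
    (hn₁ n (le_trans (le_max_right _ _) hn)).trans (hn₀ n (le_trans (le_max_left _ _) hn))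
  have h2 := dvd_sub h1 (hg n)
  rw [sub_sub_cancel, pow_succ] at h2
  exact (mul_dvd_mul_iff_left (pow_ne_zero _ (hs0 n))).mp h2

end dich

section taylor

variable {R S : Type*} [CommRing R] [CommRing S] [Algebra R S]

/-- Taylor expansion inside a subalgebra -/
theorem taylor_mem {ι : Type*} [Fintype ι] (B : Subalgebra R S) {b v : ι → S} {s : S}
    (hb : ∀ i, b i ∈ B) (hv : ∀ i, v i ∈ B) (hs : s ∈ B) (f : MvPolynomial ι R) :
    ∃ ρ ∈ B, MvPolynomial.aeval (fun i => b i + s * v i) f = MvPolynomial.aeval b f +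
      s * ∑ i, v i * MvPolynomial.aeval b (MvPolynomial.pderiv i f) + s ^ 2 * ρ := by
  classical
  have hpoly : ∀ g : MvPolynomial ι R, MvPolynomial.aeval b g ∈ B := by
    intro g
    induction g using MvPolynomial.induction_on with
    | C a =>
      rw [MvPolynomial.aeval_C]
      exact B.algebraMap_mem a
    | add g g' hg hg' =>
      rw [map_add]
      exact add_mem hg hg'
    | mul_X g j hg =>
      rw [map_mul, MvPolynomial.aeval_X]
      exact mul_mem hg (hb j)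
  induction f using MvPolynomial.induction_on with
  | C a =>
    refine ⟨0, zero_mem _, ?_⟩
    simp
  | add f g hf hg =>
    obtain ⟨ρ, hρ, h1⟩ := hf
    obtain ⟨ρ', hρ', h2⟩ := hg
    refine ⟨ρ + ρ', add_mem hρ hρ', ?_⟩
    rw [map_add, h1, h2, map_add]
    simp only [map_add, mul_add, Finset.sum_add_distrib]
    ring
  | mul_X f j hf =>
    obtain ⟨ρ, hρ, h1⟩ := hf
    refine ⟨ρ * b j + (∑ i, v i * MvPolynomial.aeval b (MvPolynomial.pderiv i f)) * v j + s * ρ * v j,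
      ?_, ?_⟩
    · refine add_mem (add_mem (mul_mem hρ (hb j)) (mul_mem (sum_mem fun i _ => mul_mem (hv i) (hpoly _))
        (hv j))) (mul_mem (mul_mem hs hρ) (hv j))
    · rw [map_mul, h1, map_mul, MvPolynomial.aeval_X, MvPolynomial.aeval_X]
      have e : ∑ i, v i * MvPolynomial.aeval b (MvPolynomial.pderiv i (f * MvPolynomial.X j)) =
          (∑ i, v i * MvPolynomial.aeval b (MvPolynomial.pderiv i f)) * b j +
            MvPolynomial.aeval b f * v j := by
        have e1 : ∀ i, v i * MvPolynomial.aeval b (MvPolynomial.pderiv i (f * MvPolynomial.X j)) =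
            v i * MvPolynomial.aeval b (MvPolynomial.pderiv i f) * b j +
              MvPolynomial.aeval b f * (if i = j then v i else 0) := by
          intro i
          rw [MvPolynomial.pderiv_mul, map_add, map_mul, map_mul, MvPolynomial.aeval_X,
            MvPolynomial.pderiv_X]
          by_cases h : i = j
          · subst h
            simp
            ring
          · rw [if_neg h, Pi.single_eq_of_ne (fun h' => h h'.symm)]
            simp
            ring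
        rw [Finset.sum_congr rfl fun i _ => e1 i, Finset.sum_add_distrib, Finset.sum_mul,
          ← Finset.mul_sum]
        simp
      rw [e]
      ring

end taylor

end Pool.Agent.Helper86.MQ
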