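import Mathlib
import Pool.Agent.Helper86.DML.Padic
import Pool.Agent.Helper86.DML.Dichotomy2
import Pool.Agent.Helper86.MQ.Ex

/-!
# Sequences which are analytic on the classes modulo `M`, fixed points, limits
-/

set_option autoImplicit false

namespace Pool.Agent.Helper86.MQ

open Finset fwdDiff Pool.Agent.Helper86.DML

section general

variable {p : ℕ} {O : Type*} [CommRing O]

lemma An.cst (c : O) : An p (fun _ => c) := by
  intro k n
  cases k with
  | zero => simp
  | succ k =>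
    have h : ∀ k, (fwdDiff 1)^[k + 1] (fun _ : ℕ => c) n = 0 := by
      intro k
      rw [Function.iterate_succ_apply]
      have : fwdDiff 1 (fun _ : ℕ => c) = fun _ => 0 := by
        funext x
        simp [fwdDiff]
      rw [this]
      clear this
      induction k generalizing n with
      | zero => rfl
      | succ k ih =>
        rw [Function.iterate_succ_apply]
        have : fwdDiff 1 (fun _ : ℕ => (0 : O)) = fun _ => 0 := by
          funext x
          simp [fwdDiff]
        rw [this]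
        exact ih n
    rw [h]
    exact dvd_zero _

lemma AnW.mul : ∀ (k w w' : ℕ) (g h : ℕ → O), (∀ k n, (p : O) ^ (k + w) ∣ (fwdDiff 1)^[k] g n) →
    (∀ k n, (p : O) ^ (k + w') ∣ (fwdDiff 1)^[k] h n) → ∀ n,
    (p : O) ^ (k + w + w') ∣ (fwdDiff 1)^[k] (fun n => g n * h n) n := by
  intro k
  induction k with
  | zero =>
    intro w w' g h hg hh n
    have h1 := hg 0 n
    have h2 := hh 0 n
    simp only [Function.iterate_zero, id_eq, zero_add] at h1 h2 ⊢
    rw [pow_add]
    exact mul_dvd_mul h1 h2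
  | succ k ih =>
    intro w w' g h hg hh n
    rw [Function.iterate_succ_apply]
    have e : fwdDiff 1 (fun n => g n * h n) =
        ((fun n => g n * (fwdDiff 1 h) n) + fun n => (fwdDiff 1 g) n * h n) +
          fun n => (fwdDiff 1 g) n * (fwdDiff 1 h) n := by
      funext x
      simp only [fwdDiff, Pi.add_apply]
      ring
    have hg' : ∀ k n, (p : O) ^ (k + (w + 1)) ∣ (fwdDiff 1)^[k] (fwdDiff 1 g) n := by
      intro k n
      have := hg (k + 1) n
      rw [Function.iterate_succ_apply] at this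
      have e : k + (w + 1) = k + 1 + w := by ring
      rw [e]
      exact this
    have hh' : ∀ k n, (p : O) ^ (k + (w' + 1)) ∣ (fwdDiff 1)^[k] (fwdDiff 1 h) n := by
      intro k n
      have := hh (k + 1) n
      rw [Function.iterate_succ_apply] at this
      have e : k + (w' + 1) = k + 1 + w' := by ring
      rw [e]
      exact this
    rw [e, fwdDiff_iter_add, fwdDiff_iter_add, Pi.add_apply, Pi.add_apply]
    refine dvd_add (dvd_add ?_ ?_) ?_
    · refine (pow_dvd_pow _ ?_).trans (ih w (w' + 1) g _ hg hh' n)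
      omega
    · refine (pow_dvd_pow _ ?_).trans (ih (w + 1) w' _ h hg' hh n)
      omega
    · refine (pow_dvd_pow _ ?_).trans (ih (w + 1) (w' + 1) _ _ hg' hh' n)
      omega

lemma An.mul {g h : ℕ → O} (hg : An p g) (hh : An p h) : An p (fun n => g n * h n) := by
  intro k n
  have := AnW.mul (p := p) k 0 0 g h (fun k n => by simpa using hg k n)
    (fun k n => by simpa using hh k n) n
  simpa using this

lemma An.of_approx {a : ℕ → O} (h : ∀ K : ℕ, ∃ b, An p b ∧ ∀ n, (p : O) ^ K ∣ a n - b n) :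
    An p a := by
  intro k n
  obtain ⟨b, hb, hab⟩ := h k
  have h1 := dvd_fwdDiff_iter (d := (p : O) ^ k) (e := fun n => a n - b n) hab k n
  have e : a = (fun n => a n - b n) + b := by
    funext x
    simp
  conv_rhs => rw [e]
  rw [fwdDiff_iter_add, Pi.add_apply]
  exact dvd_add h1 (hb k n)

lemma An.shift_dvd [hp : Fact p.Prime] {G : ℕ → O} (hG : An p G) (l n : ℕ) :
    (p : O) ^ (l + 1) ∣ G (n + p ^ l) - G n := by
  have h := shift_eq_sum_fwdDiff_iter (1 : ℕ) G (p ^ l) n
  rw [Finset.sum_range_succ'] at h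
  simp only [smul_eq_mul, mul_one, Nat.choose_zero_right, Function.iterate_zero, id_eq,
    one_smul] at h
  rw [h, add_sub_cancel_right]
  apply Finset.dvd_sum
  intro k hk
  rw [Finset.mem_range] at hk
  have hk1 : k + 1 ≤ p ^ l := hk
  have h1 := pow_dvd_choose (p := p) (Nat.succ_ne_zero k) hk1
  have h2 := multiplicity_lt (p := p) (Nat.succ_ne_zero k)
  have h3 := multiplicity_le (p := p) (Nat.succ_ne_zero k) hk1
  rw [nsmul_eq_mul]
  have h4 : (p : O) ^ (l - multiplicity p (k + 1)) ∣ (((p ^ l).choose (k + 1) : ℕ) : O) := by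
    have := Nat.cast_dvd_cast (α := O) h1
    simpa using this
  have h5 := mul_dvd_mul h4 (hG (k + 1) n)
  rw [← pow_add] at h5
  refine (pow_dvd_pow _ ?_).trans h5
  simp only [Nat.succ_eq_add_one] at h2 h3
  omega

end general

variable {p : ℕ} [hp : Fact p.Prime]

/-- the algebra of the sequences analytic on the classes modulo `M` -/
noncomputable def AnM (p : ℕ) [Fact p.Prime] (M : ℕ) : Subalgebra ℤ_[p] (ℕ → ℤ_[p]) where
  carrier := {a | ∀ r, An p (fun n => a (r + M * n))}
  mul_mem' := fun ha hb r => An.mul (ha r) (hb r)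
  add_mem' := fun ha hb r => An.add (ha r) (hb r)
  algebraMap_mem' := fun c _ => An.cst c

lemma mem_AnM {M : ℕ} {a : ℕ → ℤ_[p]} : a ∈ AnM p M ↔ ∀ r, An p (fun n => a (r + M * n)) := Iff.rfl

lemma sh_AnM {M : ℕ} {a : ℕ → ℤ_[p]} (ha : a ∈ AnM p M) : sh a ∈ AnM p M := by
  intro r
  have h := ha (r + 1)
  have e : (fun n => sh a (r + M * n)) = fun n => a (r + 1 + M * n) := by
    funext n
    simp only [sh]
    congr 1
    ring
  rw [e]
  exact h

lemma AnM_of_approx {M : ℕ} {a : ℕ → ℤ_[p]}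
    (h : ∀ K : ℕ, ∃ b ∈ AnM p M, ∀ n, (p : ℤ_[p]) ^ K ∣ a n - b n) : a ∈ AnM p M := by
  intro r
  apply An.of_approx
  intro K
  obtain ⟨b, hb, hab⟩ := h K
  exact ⟨_, hb r, fun n => hab _⟩

/-- analytic sequences on the trivial class -/
lemma mem_AnM_one {a : ℕ → ℤ_[p]} (ha : An p a) : a ∈ AnM p 1 := by
  intro r k n
  have h := fwdDiff_iter_comp_add (1 : ℕ) a r k n
  have e : (fun n => a (r + 1 * n)) = fun n => a (n + r) := by
    funext n
    congr 1
    ring
  rw [e, h]
  exact ha k (n + r)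

lemma reix_AnM {M r : ℕ} {a : ℕ → ℤ_[p]} (ha : a ∈ AnM p M) :
    reix (fun n => r + M * n) a ∈ AnM p 1 := mem_AnM_one (ha r)

lemma an_of_mem_one {a : ℕ → ℤ_[p]} (ha : a ∈ AnM p 1) : An p a := by
  have := ha 0
  simp only [zero_add, one_mul] at this
  exact this

lemma isUnit_of_dvd_sub_one {x : ℤ_[p]} (h : (p : ℤ_[p]) ∣ x - 1) : IsUnit x := by
  by_contra hx
  have h1 : x ∈ IsLocalRing.maximalIdeal ℤ_[p] := (IsLocalRing.mem_maximalIdeal x).mpr hx
  have h2 : x - 1 ∈ IsLocalRing.maximalIdeal ℤ_[p] := by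
    rw [PadicInt.maximalIdeal_eq_span_p, Ideal.mem_span_singleton]
    exact h
  have h3 : (1 : ℤ_[p]) ∈ IsLocalRing.maximalIdeal ℤ_[p] := by
    have := sub_mem h1 h2
    rwa [sub_sub_cancel] at this
  exact (Ideal.ne_top_iff_one _).mp (IsLocalRing.maximalIdeal.isMaximal _).ne_top h3

lemma InvCl_AnM (M : ℕ) : InvCl (AnM p M) := by
  intro a ha a' haa' r
  set g : ℕ → ℤ_[p] := fun n => a (r + M * n) with hg
  set g' : ℕ → ℤ_[p] := fun n => a' (r + M * n) with hg'
  have hgg : ∀ n, g n * g' n = 1 := fun n => congrFun haa' (r + M * n)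
  have hga : An p g := ha r
  have hstep : ∀ n, (p : ℤ_[p]) ∣ g n - g 0 := by
    intro n
    induction n with
    | zero => simp
    | succ n ih =>
      have h1 := hga 1 n
      simp only [pow_one, Function.iterate_one, fwdDiff] at h1
      have := dvd_add h1 ih
      simpa using this
  set x : ℕ → ℤ_[p] := fun n => 1 - g n * g' 0 with hx
  have hxp : ∀ n, (p : ℤ_[p]) ∣ x n := by
    intro n
    have e : x n = -((g n - g 0) * g' 0) := by
      have := hgg 0
      simp only [hx]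
      linear_combination -this
    rw [e]
    exact (dvd_neg).mpr (Dvd.dvd.mul_right (hstep n) _)
  have hxa : An p x := by
    have h1 : An p (fun n => -g' 0 * g n) := An.const_mul _ hga
    have h2 := An.add (An.cst (p := p) (1 : ℤ_[p])) h1
    have e : x = fun n => 1 + -g' 0 * g n := by
      funext n
      simp only [hx]
      ring
    rw [e]
    exact h2
  apply An.of_approx
  intro K
  refine ⟨fun n => g' 0 * ∑ k ∈ range K, x n ^ k, ?_, ?_⟩
  · apply An.const_mul
    have hpow : ∀ k, An p (fun n => x n ^ k) := by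
      intro k
      induction k with
      | zero => simpa using An.cst (p := p) (1 : ℤ_[p])
      | succ k ih =>
        have := An.mul ih hxa
        simpa [pow_succ] using this
    induction K with
    | zero => simpa using An.cst (p := p) (0 : ℤ_[p])
    | succ K ih =>
      have := An.add ih (hpow K)
      simpa [Finset.sum_range_succ] using this
  · intro n
    have h1 : (1 - x n) * ∑ k ∈ range K, x n ^ k = 1 - x n ^ K := by
      exact mul_neg_geom_sum (x n) K
    have h2 : 1 - x n = g n * g' 0 := by simp only [hx]; ring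
    have h3 : g' n - g' 0 * ∑ k ∈ range K, x n ^ k = g' n * x n ^ K := by
      rw [h2] at h1
      have h4 := hgg n
      linear_combination (-g' n) * h1 + (g' 0 * ∑ k ∈ range K, x n ^ k) * h4
    change (p : ℤ_[p]) ^ K ∣ g' n - g' 0 * ∑ k ∈ range K, x n ^ k
    rw [h3]
    exact Dvd.dvd.mul_left (pow_dvd_pow_of_dvd (hxp n) _) _

/-- the basic scale -/
noncomputable def sc (p : ℕ) [Fact p.Prime] : ℕ → ℤ_[p] := fun n => (p : ℤ_[p]) ^ (n + 1)

lemma p_ne_zero : (p : ℤ_[p]) ≠ 0 := by exact_mod_cast hp.out.ne_zero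

lemma sepE_AnM {M : ℕ} (hM : 1 ≤ M) : SepE (AnM p M) (sc p) := by
  rintro b hb ⟨n₀, hn₀⟩
  funext n
  apply padic_sep
  intro L
  have h1 := An.shift_dvd (hb n) (L + n₀) 0
  simp only [zero_add, mul_zero, add_zero] at h1
  have h2 : (p : ℤ_[p]) ^ (L + n₀ + 1) ∣ b (n + M * p ^ (L + n₀)) := by
    have h3 : L + n₀ < p ^ (L + n₀) := Nat.lt_pow_self hp.out.one_lt
    have h4 : p ^ (L + n₀) ≤ M * p ^ (L + n₀) := Nat.le_mul_of_pos_left _ hM
    have h5 := hn₀ (n + M * p ^ (L + n₀)) (by omega)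
    refine (pow_dvd_pow _ ?_).trans h5
    omega
  have h3 := dvd_sub h2 h1
  rw [sub_sub_cancel] at h3
  exact (pow_dvd_pow _ (by omega)).trans h3

/-- powers of a matrix congruent to one modulo `p` are analytic -/
lemma an_matrix_pow {m : ℕ} (D C F : Matrix (Fin m) (Fin m) ℤ_[p]) (i j : Fin m) (k n : ℕ) :
    (fwdDiff 1)^[k] (fun n => (D * (1 + (p : ℤ_[p]) • C) ^ n * F) i j) n =
      (p : ℤ_[p]) ^ k * (D * (1 + (p : ℤ_[p]) • C) ^ n * (C ^ k * F)) i j := by
  induction k generalizing F n with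
  | zero => simp
  | succ k ih =>
    rw [Function.iterate_succ_apply]
    have e : fwdDiff 1 (fun n => (D * (1 + (p : ℤ_[p]) • C) ^ n * F) i j) =
        (p : ℤ_[p]) • fun n => (D * (1 + (p : ℤ_[p]) • C) ^ n * (C * F)) i j := by
      funext x
      simp only [fwdDiff, Pi.smul_apply, smul_eq_mul]
      rw [← Matrix.sub_apply, pow_succ]
      have e1 : D * ((1 + (p : ℤ_[p]) • C) ^ x * (1 + (p : ℤ_[p]) • C)) * F -
          D * (1 + (p : ℤ_[p]) • C) ^ x * F =
          (p : ℤ_[p]) • (D * (1 + (p : ℤ_[p]) • C) ^ x * (C * F)) := by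
        simp only [mul_add, mul_one, add_mul, Matrix.mul_smul, Matrix.smul_mul, Matrix.mul_assoc]
        abel
      rw [e1]
      rfl
    rw [e, fwdDiff_iter_const_smul]
    simp only [Pi.smul_apply, smul_eq_mul]
    have e2 : C ^ (k + 1) * F = C ^ k * (C * F) := by rw [pow_succ, Matrix.mul_assoc]
    rw [ih, pow_succ (p : ℤ_[p]) k, e2]
    ring

lemma matrix_pow_mem {m M : ℕ} {B : Matrix (Fin m) (Fin m) ℤ_[p]}
    (hB : ∃ C, B ^ M = 1 + (p : ℤ_[p]) • C) (i j : Fin m) : (fun n => (B ^ n) i j) ∈ AnM p M := by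
  obtain ⟨C, hC⟩ := hB
  intro r k n
  have e : (fun n => (B ^ (r + M * n)) i j) =
      fun n => (B ^ r * (1 + (p : ℤ_[p]) • C) ^ n * (1 : Matrix (Fin m) (Fin m) ℤ_[p])) i j := by
    funext n
    rw [pow_add, pow_mul, hC, Matrix.mul_one]
  rw [e, an_matrix_pow]
  exact dvd_mul_right _ _

/-- a common exponent -/
lemma exists_exponent (p : ℕ) [Fact p.Prime] (m : ℕ) :
    ∃ M : ℕ, 1 ≤ M ∧ ∀ B : Matrix (Fin m) (Fin m) ℤ_[p], IsUnit B.det →
      ∃ C, B ^ M = 1 + (p : ℤ_[p]) • C := by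
  classical
  refine ⟨Nat.card (Matrix (Fin m) (Fin m) (ZMod p))ˣ, Nat.card_pos, fun B hB => ?_⟩
  set f : Matrix (Fin m) (Fin m) ℤ_[p] →+* Matrix (Fin m) (Fin m) (ZMod p) :=
    (PadicInt.toZMod (p := p)).mapMatrix with hf
  have hu : IsUnit (f B) := ((Matrix.isUnit_iff_isUnit_det B).mpr hB).map f
  obtain ⟨v, hv⟩ := hu
  have h1 : f (B ^ Nat.card (Matrix (Fin m) (Fin m) (ZMod p))ˣ) = 1 := by
    rw [map_pow, ← hv, ← Units.val_pow_eq_pow_val, pow_card_eq_one', Units.val_one]
  have h2 : ∀ i j, (p : ℤ_[p]) ∣ (B ^ Nat.card (Matrix (Fin m) (Fin m) (ZMod p))ˣ - 1) i j := by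
    intro i j
    rw [← toZMod_eq_zero_iff]
    have h3 : f (B ^ Nat.card (Matrix (Fin m) (Fin m) (ZMod p))ˣ - 1) = 0 := by
      rw [map_sub, h1, map_one, sub_self]
    have h4 := congrFun (congrFun h3 i) j
    simpa [hf] using h4
  choose C hC using h2
  refine ⟨Matrix.of C, ?_⟩
  ext i j
  have := hC i j
  rw [Matrix.add_apply, Matrix.smul_apply, Matrix.of_apply, smul_eq_mul, ← this, Matrix.sub_apply]
  ring

/-- fixed points of contractions -/
theorem fixpt {ι : Type*} (T : (ι → ℤ_[p]) → (ι → ℤ_[p]))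
    (hT : ∀ (k : ℕ) (x y : ι → ℤ_[p]), (∀ i, (p : ℤ_[p]) ^ k ∣ x i - y i) →
      ∀ i, (p : ℤ_[p]) ^ (k + 1) ∣ T x i - T y i) :
    ∃ x, T x = x ∧ ∀ (k : ℕ) (i : ι), (p : ℤ_[p]) ^ k ∣ x i - T^[k] 0 i := by
  have h1 : ∀ k i, (p : ℤ_[p]) ^ k ∣ T^[k + 1] 0 i - T^[k] 0 i := by
    intro k
    induction k with
    | zero => intro i; simp
    | succ k ih =>
      intro i
      have h2 := hT k _ _ ih i
      rwa [← Function.iterate_succ_apply' T (k + 1), ← Function.iterate_succ_apply' T k] at h2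
  choose x hx using fun i => padic_complete.lim (fun l => T^[l + 1] 0 i) (fun l => h1 (l + 1) i)
  have h2 : ∀ k i, (p : ℤ_[p]) ^ k ∣ x i - T^[k] 0 i := by
    intro k i
    have h3 := (pow_dvd_pow (p : ℤ_[p]) (Nat.le_succ k)).trans (hx i k)
    have h4 := dvd_add h3 (h1 k i)
    simpa using h4
  refine ⟨x, ?_, h2⟩
  funext i
  rw [← sub_eq_zero]
  apply padic_sep
  intro k
  have h3 := hT k x (T^[k] 0) (h2 k) i
  rw [← Function.iterate_succ_apply' T k] at h3
  have h4 := dvd_sub h3 (h2 (k + 1) i)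
  refine (pow_dvd_pow _ (Nat.le_succ k)).trans ?_
  have e : T x i - T^[k + 1] 0 i - (x i - T^[k + 1] 0 i) = T x i - x i := by ring
  rwa [e] at h4

/-- the limit of the renormalised solution of a linear recurrence with small perturbation -/
theorem lin_limit {m : ℕ} {B : Matrix (Fin m) (Fin m) ℤ_[p]} (hB : IsUnit B.det)
    (w ε : ℕ → Fin m → ℤ_[p]) (e : ℕ → ℕ) (he : Monotone e) (he1 : ∀ n, n + 1 ≤ e n)
    (hw : ∀ n, w (n + 1) = B.mulVec (w n) + ε n) (hε : ∀ n i, (p : ℤ_[p]) ^ e n ∣ ε n i) :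
    ∃ W : Fin m → ℤ_[p], ∀ n i, (p : ℤ_[p]) ^ e n ∣ w n i - (B ^ n).mulVec W i := by
  have hmul : ∀ (D : Matrix (Fin m) (Fin m) ℤ_[p]) (v : Fin m → ℤ_[p]) (q : ℤ_[p]),
      (∀ i, q ∣ v i) → ∀ i, q ∣ D.mulVec v i := by
    intro D v q h i
    rw [Matrix.mulVec, dotProduct]
    exact Finset.dvd_sum fun j _ => Dvd.dvd.mul_left (h j) _
  set a : ℕ → Fin m → ℤ_[p] := fun n => (B⁻¹ ^ n).mulVec (w n) with ha
  have hBB : B⁻¹ * B = 1 := Matrix.nonsing_inv_mul B hB
  have hBB' : B * B⁻¹ = 1 := Matrix.mul_nonsing_inv B hB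
  have hstep : ∀ n i, (p : ℤ_[p]) ^ e n ∣ a (n + 1) i - a n i := by
    intro n i
    have h1 : a (n + 1) = a n + (B⁻¹ ^ (n + 1)).mulVec (ε n) := by
      simp only [ha]
      rw [hw, Matrix.mulVec_add, Matrix.mulVec_mulVec, pow_succ B⁻¹ n, Matrix.mul_assoc, hBB,
        Matrix.mul_one]
    rw [h1, Pi.add_apply, add_sub_cancel_left]
    exact hmul _ _ _ (hε n) i
  choose W hW using fun i => padic_complete.lim (fun l => a l i) (fun l =>
    (pow_dvd_pow _ (he1 l)).trans (hstep l i))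
  refine ⟨W, fun n i => ?_⟩
  have h2 : ∀ n i, (p : ℤ_[p]) ^ e n ∣ W i - a n i := by
    intro n i
    have h3 : ∀ k, (p : ℤ_[p]) ^ e n ∣ a (n + k) i - a n i := by
      intro k
      induction k with
      | zero => simp
      | succ k ih =>
        have h4 := (pow_dvd_pow (p : ℤ_[p]) (he (Nat.le_add_right n k))).trans (hstep (n + k) i)
        have := dvd_add h4 ih
        rw [← add_assoc]
        simpa using this
    have h4 := hW i (n + e n)
    have h5 : (p : ℤ_[p]) ^ e n ∣ W i - a (n + e n) i := (pow_dvd_pow _ (by omega)).trans h4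
    have := dvd_add h5 (h3 (e n))
    simpa using this
  have h3 : w n = (B ^ n).mulVec (a n) := by
    simp only [ha]
    rw [Matrix.mulVec_mulVec]
    have : B ^ n * B⁻¹ ^ n = 1 := by
      have hc : Commute B B⁻¹ := by rw [Commute, SemiconjBy, hBB, hBB']
      rw [← hc.mul_pow, hBB', one_pow]
    rw [this, Matrix.one_mulVec]
  have h4 : w n - (B ^ n).mulVec W = (B ^ n).mulVec (a n - W) := by
    rw [Matrix.mulVec_sub, ← h3]
  have h5 := hmul (B ^ n) (a n - W) ((p : ℤ_[p]) ^ e n) (fun j => by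
    rw [Pi.sub_apply, dvd_sub_comm]
    exact h2 n j) i
  rw [← h4, Pi.sub_apply] at h5
  exact h5

end Pool.Agent.Helper86.MQ
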