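import Mathlib
import Pool.Agent.Helper86.DML.Operator
import Pool.Agent.Helper86.MQ.AnAlg

/-!
# The local system at the attracting point at infinity

In the coordinates `t = 1 / x₀`, `y_j = x_j / x₀` the map is
`t ↦ p t ^ d / (u + p g (t, y))`, `y ↦ p H (t, y) / (u + p g (t, y))`.
-/

set_option autoImplicit false

namespace Pool.Agent.Helper86.MQ

open MvPolynomial Pool.Agent.Helper86.DML

variable {p : ℕ} [hp : Fact p.Prime] {m d : ℕ}

/-- the local system; the variable `0` is `t`, the variable `j.succ` is `y j` -/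
structure Sys (p : ℕ) [Fact p.Prime] (m : ℕ) where
  u : ℤ_[p]
  hu : IsUnit u
  g : MvPolynomial (Fin (m + 1)) ℤ_[p]
  H : Fin m → MvPolynomial (Fin (m + 1)) ℤ_[p]
  hdet : IsUnit (Matrix.of fun i j : Fin m => eval 0 (pderiv j.succ (H i))).det

/-- the denominator -/
noncomputable def Sys.D (Z : Sys p m) (v : Fin (m + 1) → ℤ_[p]) : ℤ_[p] := Z.u + p * eval v Z.g

/-- an orbit of the local system -/
structure Orb (Z : Sys p m) (d : ℕ) (t : ℕ → ℤ_[p]) (y : ℕ → Fin m → ℤ_[p]) : Prop where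
  t0 : ∀ n, t n ≠ 0
  tp : ∀ n, (p : ℤ_[p]) ∣ t n
  yp : ∀ n i, (p : ℤ_[p]) ∣ y n i
  tn : ∀ n, Z.D (Fin.cons (t n) (y n)) * t (n + 1) = p * t n ^ d
  yn : ∀ n i, Z.D (Fin.cons (t n) (y n)) * y (n + 1) i = p * eval (Fin.cons (t n) (y n)) (Z.H i)

/-- an orbit in the hyperplane `t = 0` -/
structure Orb0 (Z : Sys p m) (β : ℕ → Fin m → ℤ_[p]) : Prop where
  yp : ∀ n i, (p : ℤ_[p]) ∣ β n i
  yn : ∀ n i, Z.D (Fin.cons 0 (β n)) * β (n + 1) i = p * eval (Fin.cons 0 (β n)) (Z.H i)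

lemma isUnit_of_dvd_sub {x v : ℤ_[p]} (hv : IsUnit v) (h : (p : ℤ_[p]) ∣ x - v) : IsUnit x := by
  obtain ⟨w, hw⟩ := hv.exists_right_inv
  have h1 : (p : ℤ_[p]) ∣ x * w - 1 := by
    have e : x * w - 1 = (x - v) * w := by rw [sub_mul, hw]
    rw [e]
    exact Dvd.dvd.mul_right h _
  exact isUnit_of_mul_isUnit_left (isUnit_of_dvd_sub_one h1)

lemma Sys.isUnit_D (Z : Sys p m) (v : Fin (m + 1) → ℤ_[p]) : IsUnit (Z.D v) := by
  refine isUnit_of_dvd_sub Z.hu ?_
  rw [Sys.D, add_sub_cancel_left]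
  exact dvd_mul_right _ _

lemma det_congr {R : Type*} [CommRing R] {q : R} {A B : Matrix (Fin m) (Fin m) R}
    (h : ∀ i j, q ∣ A i j - B i j) : q ∣ A.det - B.det := by
  rw [← Ideal.mem_span_singleton, ← Ideal.Quotient.eq, RingHom.map_det, RingHom.map_det]
  congr 1
  ext i j
  simp only [RingHom.mapMatrix_apply, Matrix.map_apply]
  rw [Ideal.Quotient.eq, Ideal.mem_span_singleton]
  exact h i j

/-- Taylor expansion with a remainder -/
lemma taylor_R {ι : Type*} [Fintype ι] {R : Type*} [CommRing R] (b v : ι → R) (s : R)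
    (f : MvPolynomial ι R) : ∃ ρ, eval (fun i => b i + s * v i) f =
      eval b f + s * ∑ i, v i * eval b (pderiv i f) + s ^ 2 * ρ := by
  obtain ⟨ρ, _, h⟩ := taylor_mem (R := R) (S := R) ⊤ (b := b) (v := v) (s := s)
    (fun _ => trivial) (fun _ => trivial) trivial f
  exact ⟨ρ, h⟩

lemma cons_congr {R : Type*} [CommRing R] {q : R} {a a' : R} {b b' : Fin m → R}
    (h : q ∣ a - a') (h' : ∀ i, q ∣ b i - b' i) (k : Fin (m + 1)) :
    q ∣ (Fin.cons a b : Fin (m + 1) → R) k - (Fin.cons a' b' : Fin (m + 1) → R) k := by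
  refine Fin.cases ?_ (fun i => ?_) k
  · simpa using h
  · simpa using h' i

/-! ### Shadows -/

/-- every orbit is shadowed by an orbit in the hyperplane `t = 0` -/
theorem shadow (hd : 2 ≤ d) {Z : Sys p m} {t : ℕ → ℤ_[p]} {y : ℕ → Fin m → ℤ_[p]}
    (ho : Orb Z d t y) : ∃ β : ℕ → Fin m → ℤ_[p], Orb0 Z β ∧ ∀ n i, t n ∣ y n i - β n i := by
  classical
  set A : Matrix (Fin m) (Fin m) ℤ_[p] := Matrix.of fun i j => eval 0 (pderiv j.succ (Z.H i))
    with hA
  have hAA : A⁻¹ * A = 1 := Matrix.nonsing_inv_mul A Z.hdet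
  have hAA' : A * A⁻¹ = 1 := Matrix.mul_nonsing_inv A Z.hdet
  -- inverses of the denominators
  choose e he using fun n => (Z.isUnit_D (Fin.cons (t n) (y n))).exists_right_inv
  -- the point attached to `ζ`
  let b : (ℕ × Fin m → ℤ_[p]) → ℕ → Fin m → ℤ_[p] := fun ζ n i => y n i + t n * ζ (n, i)
  have hdiv : ∀ (f : MvPolynomial (Fin (m + 1)) ℤ_[p]) (ζ : ℕ × Fin m → ℤ_[p]) (n : ℕ),
      t n ∣ eval (Fin.cons 0 (b ζ n)) f - eval (Fin.cons (t n) (y n)) f := by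
    intro f ζ n
    apply eval_congr_mod
    apply cons_congr
    · simp
    · intro i
      simp only [b, add_sub_cancel_left]
      exact dvd_mul_right _ _
  choose q hq using hdiv
  -- differences of the quotients
  have hqd : ∀ (f : MvPolynomial (Fin (m + 1)) ℤ_[p]) (k : ℕ) (ζ η ξ : ℕ × Fin m → ℤ_[p]),
      (∀ z, ζ z - η z = (p : ℤ_[p]) ^ k * ξ z) → ∀ n,
      (p : ℤ_[p]) ^ (k + 1) ∣ (q f ζ n - q f η n) -
        (p : ℤ_[p]) ^ k * ∑ j, ξ (n, j) * eval 0 (pderiv j.succ f) := by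
    intro f k ζ η ξ h n
    obtain ⟨ρ, hρ⟩ := taylor_R (Fin.cons 0 (b η n) : Fin (m + 1) → ℤ_[p])
      (Fin.cons 0 fun j => ξ (n, j)) (t n * (p : ℤ_[p]) ^ k) f
    have e1 : (fun i => (Fin.cons 0 (b η n) : Fin (m + 1) → ℤ_[p]) i + t n * (p : ℤ_[p]) ^ k *
        (Fin.cons 0 fun j => ξ (n, j) : Fin (m + 1) → ℤ_[p]) i) = Fin.cons 0 (b ζ n) := by
      funext i
      refine Fin.cases ?_ (fun i => ?_) i
      · simp
      · simp only [Fin.cons_succ, b]
        have := h (n, i)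
        linear_combination (-t n) * this
    rw [e1, Fin.sum_univ_succ] at hρ
    simp only [Fin.cons_zero, zero_mul, zero_add, Fin.cons_succ] at hρ
    have h1 := hq f ζ n
    have h2 := hq f η n
    have h3 : t n * (q f ζ n - q f η n) = t n * ((p : ℤ_[p]) ^ k *
        ∑ j, ξ (n, j) * eval (Fin.cons 0 (b η n)) (pderiv j.succ f) +
        t n * (p : ℤ_[p]) ^ (k + k) * ρ) := by
      rw [mul_sub, ← h1, ← h2, hρ]
      ring
    have h4 := mul_left_cancel₀ (ho.t0 n) h3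
    have h5 : (p : ℤ_[p]) ∣ ∑ j, ξ (n, j) * eval (Fin.cons 0 (b η n)) (pderiv j.succ f) -
        ∑ j, ξ (n, j) * eval 0 (pderiv j.succ f) := by
      rw [← Finset.sum_sub_distrib]
      refine Finset.dvd_sum fun j _ => ?_
      rw [← mul_sub]
      refine Dvd.dvd.mul_left ?_ _
      apply eval_congr_mod
      intro k
      refine Fin.cases ?_ (fun i => ?_) k
      · simp
      · simp only [Fin.cons_succ, Pi.zero_apply, sub_zero, b]
        exact dvd_add (ho.yp n i) (Dvd.dvd.mul_right (ho.tp n) _)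
    rw [h4]
    obtain ⟨c, hc⟩ := h5
    obtain ⟨c', hc'⟩ := ho.tp n
    have e2 : (p : ℤ_[p]) ^ k * ∑ j, ξ (n, j) * eval (Fin.cons 0 (b η n)) (pderiv j.succ f) +
        t n * (p : ℤ_[p]) ^ (k + k) * ρ -
        (p : ℤ_[p]) ^ k * ∑ j, ξ (n, j) * eval 0 (pderiv j.succ f) =
        (p : ℤ_[p]) ^ (k + 1) * (c + c' * (p : ℤ_[p]) ^ k * ρ) := by
      have e3 : (p : ℤ_[p]) ^ k * (∑ j, ξ (n, j) * eval (Fin.cons 0 (b η n)) (pderiv j.succ f) -
        ∑ j, ξ (n, j) * eval 0 (pderiv j.succ f)) = (p : ℤ_[p]) ^ k * (p * c) := by rw [hc]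
      rw [pow_add]
      have e4 : t n * ((p : ℤ_[p]) ^ k * (p : ℤ_[p]) ^ k) * ρ =
        (p : ℤ_[p]) * c' * ((p : ℤ_[p]) ^ k * (p : ℤ_[p]) ^ k) * ρ := by rw [hc']
      linear_combination e3 + e4
    rw [e2]
    exact dvd_mul_right _ _
  -- the right hand side
  let rhs : (ℕ × Fin m → ℤ_[p]) → ℕ → Fin m → ℤ_[p] := fun ζ n i =>
    q Z.g ζ n * y (n + 1) i +
      Z.D (Fin.cons 0 (b ζ n)) * (t n ^ (d - 1) * e n) * ζ (n + 1, i)
  let T : (ℕ × Fin m → ℤ_[p]) → (ℕ × Fin m → ℤ_[p]) := fun ζ z =>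
    ζ z + A⁻¹.mulVec (fun i => rhs ζ z.1 i - q (Z.H i) ζ z.1) z.2
  have hT : ∀ (k : ℕ) (ζ η : ℕ × Fin m → ℤ_[p]), (∀ z, (p : ℤ_[p]) ^ k ∣ ζ z - η z) →
      ∀ z, (p : ℤ_[p]) ^ (k + 1) ∣ T ζ z - T η z := by
    intro k ζ η h z
    choose ξ hξ using h
    obtain ⟨n, i⟩ := z
    -- `rhs` is contracting
    have hr : ∀ i, (p : ℤ_[p]) ^ (k + 1) ∣ rhs ζ n i - rhs η n i := by
      intro i
      have h1 : (p : ℤ_[p]) ^ k ∣ q Z.g ζ n - q Z.g η n := by
        have h2 := (pow_dvd_pow (p : ℤ_[p]) (Nat.le_succ k)).trans (hqd Z.g k ζ η ξ hξ n)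
        have h3 := dvd_add h2 (dvd_mul_right ((p : ℤ_[p]) ^ k)
          (∑ j, ξ (n, j) * eval 0 (pderiv j.succ Z.g)))
        rwa [sub_add_cancel] at h3
      have h2 : (p : ℤ_[p]) ^ k ∣ Z.D (Fin.cons 0 (b ζ n)) - Z.D (Fin.cons 0 (b η n)) := by
        have h3 : (p : ℤ_[p]) ^ k ∣ eval (Fin.cons 0 (b ζ n)) Z.g - eval (Fin.cons 0 (b η n)) Z.g := by
          apply eval_congr_mod
          apply cons_congr (by simp)
          intro i
          simp only [b, add_sub_add_left_eq_sub, ← mul_sub, hξ]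
          exact Dvd.dvd.mul_left (dvd_mul_right _ _) _
        simp only [Sys.D, add_sub_add_left_eq_sub, ← mul_sub]
        exact Dvd.dvd.mul_left h3 _
      have h3 : (p : ℤ_[p]) ^ k ∣ ζ (n + 1, i) - η (n + 1, i) := by
        rw [hξ]
        exact dvd_mul_right _ _
      have h4 : (p : ℤ_[p]) ∣ t n ^ (d - 1) :=
        (ho.tp n).trans (dvd_pow_self _ (by omega))
      have e1 : rhs ζ n i - rhs η n i = (q Z.g ζ n - q Z.g η n) * y (n + 1) i +
          t n ^ (d - 1) * (e n * ((Z.D (Fin.cons 0 (b ζ n)) - Z.D (Fin.cons 0 (b η n))) * ζ (n + 1, i) +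
            Z.D (Fin.cons 0 (b η n)) * (ζ (n + 1, i) - η (n + 1, i)))) := by
        simp only [rhs]
        ring
      rw [e1, pow_succ]
      refine dvd_add (mul_dvd_mul h1 (ho.yp _ _)) ?_
      rw [mul_comm ((p : ℤ_[p]) ^ k)]
      refine mul_dvd_mul h4 (Dvd.dvd.mul_left (dvd_add (Dvd.dvd.mul_right h2 _)
        (Dvd.dvd.mul_left h3 _)) _)
    -- `ζ - η` in terms of `A`
    have h1 : ζ (n, i) - η (n, i) = A⁻¹.mulVec (fun i' => (p : ℤ_[p]) ^ k *
        ∑ j, ξ (n, j) * eval 0 (pderiv j.succ (Z.H i'))) i := by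
      have e1 : (fun i' => (p : ℤ_[p]) ^ k * ∑ j, ξ (n, j) * eval 0 (pderiv j.succ (Z.H i'))) =
          A.mulVec (fun j => (p : ℤ_[p]) ^ k * ξ (n, j)) := by
        funext i'
        simp only [hA, Matrix.mulVec, dotProduct, Matrix.of_apply, Finset.mul_sum]
        refine Finset.sum_congr rfl fun j _ => ?_
        ring
      rw [e1, Matrix.mulVec_mulVec, hAA, Matrix.one_mulVec, hξ]
    have h2 : T ζ (n, i) - T η (n, i) = A⁻¹.mulVec (fun i' => (rhs ζ n i' - rhs η n i') -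
        ((q (Z.H i') ζ n - q (Z.H i') η n) -
          (p : ℤ_[p]) ^ k * ∑ j, ξ (n, j) * eval 0 (pderiv j.succ (Z.H i')))) i := by
      have e1 : (fun i' => (rhs ζ n i' - rhs η n i') -
        ((q (Z.H i') ζ n - q (Z.H i') η n) -
          (p : ℤ_[p]) ^ k * ∑ j, ξ (n, j) * eval 0 (pderiv j.succ (Z.H i')))) =
          ((fun i' => rhs ζ n i' - q (Z.H i') ζ n) - (fun i' => rhs η n i' - q (Z.H i') η n)) +
          fun i' => (p : ℤ_[p]) ^ k * ∑ j, ξ (n, j) * eval 0 (pderiv j.succ (Z.H i')) := by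
        funext i'
        simp only [Pi.add_apply, Pi.sub_apply]
        ring
      rw [e1, Matrix.mulVec_add, Matrix.mulVec_sub, Pi.add_apply, Pi.sub_apply, ← h1]
      simp only [T]
      ring
    rw [h2, Matrix.mulVec, dotProduct]
    refine Finset.dvd_sum fun j _ => Dvd.dvd.mul_left ?_ _
    exact dvd_sub (hr j) (hqd (Z.H j) k ζ η ξ hξ n)
  obtain ⟨ζ, hζ, -⟩ := fixpt T hT
  have hfix : ∀ n i, rhs ζ n i = q (Z.H i) ζ n := by
    intro n
    have h1 : A⁻¹.mulVec (fun i => rhs ζ n i - q (Z.H i) ζ n) = 0 := by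
      funext i
      have h2 := congrFun hζ (n, i)
      simp only [T] at h2
      simpa using h2
    have h2 : (fun i => rhs ζ n i - q (Z.H i) ζ n) = 0 := by
      have h3 := congrArg A.mulVec h1
      rwa [Matrix.mulVec_mulVec, hAA', Matrix.one_mulVec, Matrix.mulVec_zero] at h3
    intro i
    have := congrFun h2 i
    exact sub_eq_zero.mp this
  refine ⟨b ζ, ⟨fun n i => dvd_add (ho.yp n i) (Dvd.dvd.mul_right (ho.tp n) _), ?_⟩, ?_⟩
  · intro n i
    have h1 := hfix n i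
    have h2 := hq (Z.H i) ζ n
    have h3 := hq Z.g ζ n
    have h4 : Z.D (Fin.cons 0 (b ζ n)) = Z.D (Fin.cons (t n) (y n)) + p * (t n * q Z.g ζ n) := by
      simp only [Sys.D]
      linear_combination (p : ℤ_[p]) * h3
    have h5 := ho.yn n i
    have h6 := ho.tn n
    have h7 := he n
    have h8 : t (n + 1) = p * t n ^ d * e n := by
      linear_combination (-t (n + 1)) * h7 + e n * h6
    have h9 : t n ^ d = t n * t n ^ (d - 1) := by
      rw [← pow_succ']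
      congr 1
      omega
    have e1 : b ζ (n + 1) i = y (n + 1) i + t (n + 1) * ζ (n + 1, i) := rfl
    simp only [rhs] at h1
    have e2 : Z.D (Fin.cons 0 (b ζ n)) * y (n + 1) i =
        p * eval (Fin.cons (t n) (y n)) (Z.H i) + p * (t n * q Z.g ζ n) * y (n + 1) i := by
      rw [h4, add_mul, h5]
    rw [e1, mul_add, e2, h8, h9]
    linear_combination (p : ℤ_[p]) * t n * h1 - (p : ℤ_[p]) * h2
  · intro n i
    simp only [b]
    exact ⟨-ζ (n, i), by ring⟩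

end Pool.Agent.Helper86.MQ
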