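import Pool.Agent.Helper86.MQ.Limit
import Pool.Agent.Helper87.MQ.Transfer
import Pool.Agent.Helper87.MQ.ManyConj

/-!
# All hypersurfaces of small degree at once: the local theorem with two primes
-/

set_option autoImplicit false

namespace Pool.Agent.Helper86.MQ

open MvPolynomial
open Pool.Agent.Helper87.MQ (toQp transfer_fix)

variable {m d : ℕ}

theorem finite_of_shift' {R : Set ℕ} (k : ℕ) (h : {n | n + k ∈ R}.Finite) : R.Finite := by
  refine ((Finset.range k).finite_toSet.union (h.image (fun n => n + k))).subset ?_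
  intro n hn
  by_cases hk : n < k
  · exact Or.inl (by simpa using hk)
  · right
    refine ⟨n - k, ?_, by simp only; omega⟩
    have e : n - k + k = n := by omega
    change n - k + k ∈ R
    rwa [e]

theorem Fix.map {K K' : Type*} [Field K] [Field K'] (φ : K →+* K') {c : Idx m d → K}
    {x : Fin (m + 1) → K} (h : Fix c x) : Fix (fun k => φ (c k)) (fun j => φ (x j)) := by
  obtain ⟨hx, μ, hμ⟩ := h
  refine ⟨fun h0 => hx ?_, φ μ, fun i => ?_⟩
  · funext j
    have h1 := congrFun h0 j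
    rw [Pi.zero_apply] at h1
    exact (map_eq_zero φ).1 h1
  · rw [tf_eq, ← map_tfR φ, ← map_mul, ← hμ i]
    rfl

/-- A form over `L` of small degree which vanishes at a fixed point is zero. -/
theorem form_eq_zero {p₃ : ℕ} [Fact p₃.Prime] {D : ℕ} (hd : 2 ≤ d) {i₁ : Fin (m + 1)}
    (hi : i₁ ≠ 0) {L : Type} [Field L] (e₃ : L →+* ℚ_[p₃])
    {Φ : Fin (m + 1) → MvPolynomial (Fin (m + 1)) ℚ}
    (hB : PreAt p₃ m d (kB m d i₁) (toQp p₃ Φ)) {c : Idx m d → ZMod p₃}
    (hRed : RedAt (kB m d i₁) (toQp p₃ Φ) c)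
    (hgen : ∀ (k : Type) [Field k] (ψ : ZMod p₃ →+* k), GenB i₁ (fun a => ψ (c a)))
    (hGP : GenPos D (fun a : Idx m d => algebraMap ℚ (PadicAlgCl p₃) (coeff a.2.1 (Φ a.1))))
    (hD : (m + D).choose D ≤ d) {W : MvPolynomial (Fin (m + 1)) L} (hW : W.IsHomogeneous D)
    {K₁ : Type} [Field K₁] (e : L →+* K₁) [Algebra ℚ K₁] [Algebra ℚ L] {x : Fin (m + 1) → K₁}
    (hx : Fix (fun a : Idx m d => algebraMap ℚ K₁ (coeff a.2.1 (Φ a.1))) x)
    (hWx : eval x (map e W) = 0) : W = 0 := by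
  set cL : Idx m d → L := fun a => algebraMap ℚ L (coeff a.2.1 (Φ a.1)) with hcL
  set e' : L →+* PadicAlgCl p₃ := (algebraMap ℚ_[p₃] (PadicAlgCl p₃)).comp e₃ with he'
  have hx' : Fix (fun k => e (cL k)) x := by
    have h1 : (fun k => e (cL k)) =
        fun a : Idx m d => algebraMap ℚ K₁ (coeff a.2.1 (Φ a.1)) := by
      funext a
      exact congrArg (fun f : ℚ →+* K₁ => f (coeff a.2.1 (Φ a.1)))
        (Subsingleton.elim (e.comp (algebraMap ℚ L)) (algebraMap ℚ K₁))
    rw [h1]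
    exact hx
  obtain ⟨y, hy, hWy⟩ := transfer_fix cL W e hx' hWx e'
  have hcp : (fun k => e' (cL k)) = fun a : Idx m d =>
      algebraMap ℚ_[p₃] (PadicAlgCl p₃) (coeff a.2.1 (toQp p₃ Φ a.1)) := by
    funext a
    have h1 : coeff a.2.1 (toQp p₃ Φ a.1) = algebraMap ℚ ℚ_[p₃] (coeff a.2.1 (Φ a.1)) :=
      coeff_map _ _ _
    rw [h1]
    exact congrArg (fun f : ℚ →+* PadicAlgCl p₃ => f (coeff a.2.1 (Φ a.1)))
      (Subsingleton.elim (e'.comp (algebraMap ℚ L))
        ((algebraMap ℚ_[p₃] (PadicAlgCl p₃)).comp (algebraMap ℚ ℚ_[p₃])))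
  have hcQ : (fun k => e' (cL k)) = fun a : Idx m d =>
      algebraMap ℚ (PadicAlgCl p₃) (coeff a.2.1 (Φ a.1)) := by
    funext a
    exact congrArg (fun f : ℚ →+* PadicAlgCl p₃ => f (coeff a.2.1 (Φ a.1)))
      (Subsingleton.elim (e'.comp (algebraMap ℚ L)) (algebraMap ℚ (PadicAlgCl p₃)))
  have hy2 := hy
  rw [hcp] at hy2
  obtain ⟨k, hk, hdeg⟩ := ram hd hi hB hRed hgen hy2
  obtain ⟨σ, hσ⟩ := Pool.Agent.Helper87.MQ.many_conj (F := ℚ_[p₃]) (y i₁ / y k) d hdeg
  -- the conjugate points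
  have hle : (m + D).choose D ≤ d := hD
  set pt : Fin ((m + D).choose D) → Fin (m + 1) → PadicAlgCl p₃ :=
    fun a j => σ (Fin.castLE hle a) (y j) with hpt
  have hfix : ∀ a, Fix (fun k => e' (cL k)) (pt a) := by
    intro a
    have h1 := hy2.map (σ (Fin.castLE hle a)).toAlgHom.toRingHom
    rw [hcp]
    have h2 : (fun k => (σ (Fin.castLE hle a)).toAlgHom.toRingHom
        (algebraMap ℚ_[p₃] (PadicAlgCl p₃) (coeff k.2.1 (toQp p₃ Φ k.1)))) =
        fun a : Idx m d =>
          algebraMap ℚ_[p₃] (PadicAlgCl p₃) (coeff a.2.1 (toQp p₃ Φ a.1)) := by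
      funext b
      exact (σ (Fin.castLE hle a)).commutes _
    rw [h2] at h1
    exact h1
  have hzero : ∀ a, eval (pt a) (map e' W) = 0 := by
    intro a
    set τ : PadicAlgCl p₃ →+* PadicAlgCl p₃ := (σ (Fin.castLE hle a)).toAlgHom.toRingHom with hτ
    have h1 : map e' W = map τ (map e' W) := by
      have h0 : τ.comp e' = e' := RingHom.ext fun z => (σ (Fin.castLE hle a)).commutes (e₃ z)
      rw [map_map, h0]
    rw [h1, eval_map]
    have h2 := MvPolynomial.eval₂_comp_left τ (RingHom.id _) y (map e' W)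
    rw [eval₂_id, RingHom.comp_id] at h2
    have h3 : (fun j => τ (y j)) = pt a := rfl
    rw [← h3]
    have h4 : τ ∘ y = fun j => τ (y j) := rfl
    rw [h4] at h2
    rw [← h2, hWy, map_zero]
  have hdist : ∀ a b, a ≠ b → ¬ Prop' (pt a) (pt b) := by
    rintro a b hab ⟨μ, hμ⟩
    apply hab
    have h1 : σ (Fin.castLE hle a) (y i₁ / y k) = σ (Fin.castLE hle b) (y i₁ / y k) := by
      rw [map_div₀, map_div₀]
      have h2 := congrFun hμ i₁
      have h3 := congrFun hμ k
      simp only [hpt, Pi.smul_apply, smul_eq_mul] at h2 h3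
      rw [h2, h3, mul_div_mul_left]
      intro h0
      rw [h0, zero_mul] at h3
      exact hk ((map_eq_zero (σ (Fin.castLE hle a))).1 h3)
    have h4 := hσ h1
    exact Fin.castLE_injective hle h4
  rw [hcQ] at hfix
  have h5 := hGP pt hfix hdist (map e' W) (hW.map e') hzero
  exact (map_eq_zero_iff _ (map_injective e' e'.injective)).1 h5

theorem topForm_ne {F : Type*} [Field F] {G : MvPolynomial (Fin (m + 1)) F} (hG : G ≠ 0) :
    homogeneousComponent G.totalDegree G ≠ 0 := by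
  classical
  obtain ⟨s, hs, hsd⟩ := Finset.exists_mem_eq_sup G.support (support_nonempty.2 hG)
    (fun s => s.degree)
  have h1 : G.totalDegree = s.degree := hsd
  intro h0
  have h2 := congrArg (coeff s) h0
  rw [coeff_homogeneousComponent, if_pos h1.symm, coeff_zero] at h2
  exact (mem_support_iff.1 hs) h2

theorem homogeneousComponent_map' {F F' : Type*} [Field F] [Field F'] (e : F →+* F') (n : ℕ)
    (G : MvPolynomial (Fin (m + 1)) F) :
    homogeneousComponent n (map e G) = map e (homogeneousComponent n G) := by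
  classical
  ext s
  rw [coeff_homogeneousComponent, coeff_map, coeff_map, coeff_homogeneousComponent]
  split_ifs
  · rfl
  · rw [map_zero]

/-- **The local theorem with two primes.** -/
theorem four_local {p p₃ : ℕ} [Fact p.Prime] [Fact p₃.Prime] {D : ℕ} (hd : 2 ≤ d)
    {i₁ : Fin (m + 1)} (hi : i₁ ≠ 0) {L : Type} [Field L] [Algebra ℚ L] (e : L →+* ℚ_[p])
    (e₃ : L →+* ℚ_[p₃]) {Φ : Fin (m + 1) → MvPolynomial (Fin (m + 1)) ℚ}
    (hA : Good p m d (toQp p Φ)) (hB : PreAt p₃ m d (kB m d i₁) (toQp p₃ Φ))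
    {c : Idx m d → ZMod p₃} (hRed : RedAt (kB m d i₁) (toQp p₃ Φ) c)
    (hgen : ∀ (k : Type) [Field k] (ψ : ZMod p₃ →+* k), GenB i₁ (fun a => ψ (c a)))
    (hGP : GenPos D (fun a : Idx m d => algebraMap ℚ (PadicAlgCl p₃) (coeff a.2.1 (Φ a.1))))
    (hD : (m + D).choose D ≤ d) {G : MvPolynomial (Fin (m + 1)) L} (hG : G ≠ 0)
    (hGD : G.totalDegree ≤ D) {x : Fin (m + 1) → ℚ_[p]}
    (hx : ∃ n, Esc ((pm (toQp p Φ))^[n] x)) :
    {n | eval ((pm (toQp p Φ))^[n] x) (map e G) = 0}.Finite := by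
  obtain ⟨n₀, hn₀⟩ := hx
  obtain ⟨z, hz, hlim⟩ := exists_limit hd hA
  have htd : (map e G).totalDegree = G.totalDegree := by
    rw [totalDegree, totalDegree, support_map_of_injective _ e.injective]
  have hne : eval (Fin.cons 1 z) (homogeneousComponent (map e G).totalDegree (map e G)) ≠ 0 := by
    rw [htd, homogeneousComponent_map']
    intro h0
    set W₀ := homogeneousComponent G.totalDegree G with hW₀
    have hfix : Fix (fun a : Idx m d => algebraMap ℚ ℚ_[p] (coeff a.2.1 (Φ a.1)))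
        (Fin.cons 1 z) := by
      have h1 : (fun a : Idx m d => coeff a.2.1 (toQp p Φ a.1)) =
          fun a : Idx m d => algebraMap ℚ ℚ_[p] (coeff a.2.1 (Φ a.1)) := by
        funext a
        exact coeff_map _ _ _
      rw [← h1]
      exact hz
    have hW : (W₀ * X 0 ^ (D - G.totalDegree)).IsHomogeneous D := by
      have h1 := (homogeneousComponent_isHomogeneous G.totalDegree G).mul
        ((isHomogeneous_X L (0 : Fin (m + 1))).pow (D - G.totalDegree))
      have h2 : G.totalDegree + 1 * (D - G.totalDegree) = D := by omega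
      rw [h2] at h1
      exact h1
    have h3 := form_eq_zero hd hi e₃ hB hRed hgen hGP hD hW e hfix (by
      rw [map_mul, map_mul, h0, zero_mul])
    rcases mul_eq_zero.1 h3 with h4 | h4
    · exact topForm_ne hG h4
    · exact pow_ne_zero _ (X_ne_zero _) h4
  have h5 := hlim _ hn₀ (map e G) hne
  have e1 : ∀ n, (pm (toQp p Φ))^[n] ((pm (toQp p Φ))^[n₀] x) = (pm (toQp p Φ))^[n + n₀] x :=
    fun n => (Function.iterate_add_apply _ _ _ _).symm
  simp only [e1] at h5
  exact finite_of_shift' n₀ h5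

end Pool.Agent.Helper86.MQ
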