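import Mathlib
import Pool.Agent.Helper86.MQ.Defs
import Pool.Agent.Helper26.MQ.Idx

/-!
# All hypersurfaces of small degree at once: definitions

`tf c x i` is the value at `x` of the form of degree `d` of the component `i` of the self-map with
the coefficients `c`; `Fix c x`: `x` represents a fixed point of these forms (the value `0` is
allowed).
-/

set_option autoImplicit false

namespace Pool.Agent.Helper86.MQ

open MvPolynomial

variable {m d : ℕ}

/-- the values of the forms of degree `d` -/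
noncomputable def tf {K : Type*} [Field K] (c : Idx m d → K) (x : Fin (m + 1) → K)
    (i : Fin (m + 1)) : K :=
  ∑ e : {s : Fin (m + 1) →₀ ℕ // s.degree ≤ d},
    if e.1.degree = d then c (i, e) * ∏ j, x j ^ (e.1 j) else 0

/-- a fixed point of the forms of degree `d` -/
def Fix {K : Type*} [Field K] (c : Idx m d → K) (x : Fin (m + 1) → K) : Prop :=
  x ≠ 0 ∧ ∃ μ : K, ∀ i, tf c x i = μ * x i

/-- `x` and `y` represent the same point of the projective space -/
def Prop' {K : Type*} [Field K] (x y : Fin (m + 1) → K) : Prop := ∃ μ : K, x = μ • y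

/-- The property of `c` which gives general position of the fixed points: no
`(m + D).choose D` distinct fixed points lie on a hypersurface of degree `D`. -/
def GenPos (D : ℕ) {K : Type*} [Field K] (c : Idx m d → K) : Prop :=
  ∀ x : Fin ((m + D).choose D) → Fin (m + 1) → K, (∀ a, Fix c (x a)) →
    (∀ a b, a ≠ b → ¬ Prop' (x a) (x b)) →
    ∀ W : MvPolynomial (Fin (m + 1)) K, W.IsHomogeneous D → (∀ a, eval (x a) W = 0) → W = 0

/-- The property of the reduction at a prime of the second type (the special coefficient is the one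
of `x_{i₁} ^ d` in `Φ₀`), `i₁ ≠ 0`. -/
def GenB (i₁ : Fin (m + 1)) {K : Type*} [Field K] (c : Idx m d → K) : Prop :=
  c (i₁, ⟨Finsupp.single 0 d, by simp⟩) ≠ 0 ∧ ∀ x : Fin (m + 1) → K, Fix c x → x i₁ ≠ 0

/-- All coefficients are `p`-integral, except for the coefficient at the index `k₀`, which has
valuation `-1`. -/
structure PreAt (p : ℕ) [Fact p.Prime] (m d : ℕ) (k₀ : Idx m d)
    (Φ : Fin (m + 1) → MvPolynomial (Fin (m + 1)) ℚ_[p]) : Prop where
  deg : ∀ i, (Φ i).totalDegree ≤ d
  one : ‖coeff k₀.2.1 (Φ k₀.1)‖ = (p : ℝ)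
  int : ∀ i s, ¬ (i = k₀.1 ∧ s = k₀.2.1) → ‖coeff s (Φ i)‖ ≤ 1

/-- the coefficients modulo `p`, with the exception of the one at `k₀` -/
def RedAt {p : ℕ} [Fact p.Prime] {m d : ℕ} (k₀ : Idx m d)
    (Φ : Fin (m + 1) → MvPolynomial (Fin (m + 1)) ℚ_[p]) (c : Idx m d → ZMod p) : Prop :=
  ∀ k : Idx m d, k ≠ k₀ →
    ∃ z : ℤ_[p], (z : ℚ_[p]) = coeff k.2.1 (Φ k.1) ∧ PadicInt.toZMod z = c k

/-- the special index of the second type -/
noncomputable def kB (m d : ℕ) (i₁ : Fin (m + 1)) : Idx m d := (0, ⟨Finsupp.single i₁ d, by simp⟩)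

end Pool.Agent.Helper86.MQ
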