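import Pool.Agent.Helper86.MQ.LocalAll
import Pool.Agent.Helper52.MQ.Curve
import Pool.Agent.Helper87.MQ.Glue
import Pool.Agent.Helper87.MQ.FieldEmb

/-!
# One hundred percent of the polynomial self-maps over `ℚ`
-/

set_option autoImplicit false

namespace Pool.Agent.Helper86.MQ

open MvPolynomial
open Pool.Agent.Helper86.DML (SSp)
open Pool.Agent.Helper87.MQ (hbox toQp toC map_density glue classes exists_field_emb)
open Pool.Agent.Helper87.DMLP (primesFor not_summable_primesFor prime_of_mem_primesFor)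

theorem finite_of_shift {R : Set ℕ} (k : ℕ) (h : {n | n + k ∈ R}.Finite) : R.Finite := by
  refine ((Finset.range k).finite_toSet.union (h.image (fun n => n + k))).subset ?_
  intro n hn
  by_cases hk : n < k
  · exact Or.inl (by simpa using hk)
  · right
    refine ⟨n - k, ?_, by simp only; omega⟩
    have e : n - k + k = n := by omega
    change n - k + k ∈ R
    rwa [e]

/-- The conclusion over `ℚ_p`. -/
theorem padic_main {p : ℕ} [hp : Fact p.Prime] {m d : ℕ} (hp3 : 3 ≤ p) (hd : 2 ≤ d) {M : ℕ}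
    (hMod : Mod p m M) {Φ : Fin (m + 1) → MvPolynomial (Fin (m + 1)) ℚ_[p]} (hΦ : Good p m d Φ)
    {x : Fin (m + 1) → ℚ_[p]} (hx : ∃ n, Esc ((pm Φ)^[n] x))
    (W : Set (MvPolynomial (Fin (m + 1)) ℚ_[p])) :
    (∃ (T : Finset ℕ) (S : Set ℕ), SSp S ∧
      {n | ∀ G ∈ W, eval ((pm Φ)^[n] x) G = 0} =
        {n | (∃ a ∈ T, ∃ k, n = a + M * k) ∨ n ∈ S}) ∧
    ((∀ P : Ideal (MvPolynomial (Fin (m + 1)) ℚ_[p]), P.IsPrime → W ⊆ P →
        Algebra.trdeg ℚ_[p] (MvPolynomial (Fin (m + 1)) ℚ_[p] ⧸ P) ≤ 1) →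
      {n | ∀ G ∈ W, eval ((pm Φ)^[n] x) G = 0}.Finite ∨
        {n | ∀ G ∈ W, eval ((pm Φ)^[n] x) G = 0}ᶜ.Finite) := by
  obtain ⟨n₀, hn₀⟩ := hx
  refine ⟨classes M hMod.1 (1 + n₀) _ fun r _ => ?_, fun hW => ?_⟩
  · have e : ∀ n, (pm Φ)^[1 + n₀ + (r + M * n)] x =
        (pm Φ)^[1 + (r + M * n)] ((pm Φ)^[n₀] x) := by
      intro n
      rw [← Function.iterate_add_apply]
      have e1 : 1 + n₀ + (r + M * n) = 1 + (r + M * n) + n₀ := by ring
      rw [e1]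
    by_cases hall : ∀ G ∈ W, ∀ n, eval ((pm Φ)^[1 + (r + M * n)] ((pm Φ)^[n₀] x)) G = 0
    · left
      intro n G hG
      rw [e]
      exact hall G hG n
    · right
      push Not at hall
      obtain ⟨G, hG, n₁, hn₁⟩ := hall
      rcases local_all hp3 hd hMod hΦ hn₀ G r with h | h
      · exact absurd (h n₁) hn₁
      · refine h.mono ?_
        intro n hn
        have h2 := hn G hG
        rw [e] at h2
        exact h2
  · have h := Pool.Agent.Helper52.MQ.curve_set hd hΦ hW hn₀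
    have e : ∀ n, (pm Φ)^[n] ((pm Φ)^[n₀] x) = (pm Φ)^[n + n₀] x := fun n =>
      (Function.iterate_add_apply _ _ _ _).symm
    simp only [e] at h
    rcases h with h | h
    · left
      exact finite_of_shift n₀ h
    · right
      exact finite_of_shift n₀ h

/-- The conclusion over `ℂ` for the points over the field `L`, with common difference `M`. -/
def Concl {m : ℕ} (L : Subfield ℂ) (M : ℕ)
    (Φ : Fin (m + 1) → MvPolynomial (Fin (m + 1)) ℚ) : Prop :=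
  ∀ (α : Fin (m + 1) → ℂ), (∀ i, α i ∈ L) → ∀ V : Set (MvPolynomial (Fin (m + 1)) ℂ),
    (∃ (T : Finset ℕ) (S : Set ℕ), SSp S ∧
      {n | ∀ F ∈ V, eval ((pm (toC Φ))^[n] α) F = 0} =
        {n | (∃ a ∈ T, ∃ k, n = a + M * k) ∨ n ∈ S}) ∧
    ((∀ P : Ideal (MvPolynomial (Fin (m + 1)) ℂ), P.IsPrime → V ⊆ P →
        Algebra.trdeg ℂ (MvPolynomial (Fin (m + 1)) ℂ ⧸ P) ≤ 1) →
      {n | ∀ F ∈ V, eval ((pm (toC Φ))^[n] α) F = 0}.Finite ∨
        {n | ∀ F ∈ V, eval ((pm (toC Φ))^[n] α) F = 0}ᶜ.Finite)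

theorem main (m d : ℕ) (hd : 2 ≤ d) (A : Finset ℂ) (ε : ℝ) (hε : 0 < ε) :
    ∃ M K : ℕ, 0 < M ∧ ∀ B : ℕ, K ≤ B → (hbox m d B).Finite ∧
      (1 - ε) * ((hbox m d B).ncard : ℝ) ≤
        (({Φ ∈ hbox m d B | Concl (Subfield.closure (A : Set ℂ)) M Φ}).ncard : ℝ) := by
  classical
  obtain ⟨C, hC⟩ := Pool.Agent.Helper26.MQ.trap m d hd
  choose BB hBB hgood using hC
  obtain ⟨P, K, hP, h⟩ := map_density m d C (primesFor A) (not_summable_primesFor A)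
    (prime_of_mem_primesFor A) 3 ε hε
  have hPp : ∀ k : {q // q ∈ P}, Fact (k.1).Prime := fun k => ⟨(hP k.1 k.2).2.1⟩
  choose Mq hMq using fun k : {q // q ∈ P} => @exists_Mod k.1 (hPp k) m
  set M : ℕ := ∏ k : {q // q ∈ P}, Mq k with hM
  have hMpos : 0 < M := Finset.prod_pos fun k _ => show 1 ≤ Mq k from And.left (hMq k)
  refine ⟨M, K, hMpos, fun B hB => ?_⟩
  obtain ⟨hfin, hcard⟩ := h BB hBB B hB
  refine ⟨hfin, hcard.trans ?_⟩
  refine Nat.cast_le.2 (Set.ncard_le_ncard ?_ (hfin.subset fun Φ hΦ => hΦ.1))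
  rintro Φ ⟨hΦ, q, hq, hF, c, hc, hpre, hred⟩
  refine ⟨hΦ, ?_⟩
  obtain ⟨hg, hesc⟩ := hgood q (toQp q Φ) hpre c hred hc
  obtain ⟨_, ⟨e⟩⟩ := exists_field_emb A q (hP q hq).1
  have hModq : Mod q m M := (hMq ⟨q, hq⟩).of_dvd (Finset.dvd_prod_of_mem _ (Finset.mem_univ _)) hMpos
  intro α hα V
  obtain ⟨W, hW, hdim⟩ := glue q (Subfield.closure (A : Set ℂ)) e V
  have h1 : {n | ∀ F ∈ V, eval ((pm (toC Φ))^[n] α) F = 0} =
      {n | ∀ G ∈ W, eval ((pm (toQp q Φ))^[n] (fun i => e ⟨α i, hα i⟩)) G = 0} := by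
    ext n
    exact hW Φ (fun i => ⟨α i, hα i⟩) n
  rw [h1]
  obtain ⟨h2, h3⟩ := padic_main (hP q hq).2.2 hd hModq hg (hesc (fun i => e ⟨α i, hα i⟩)) W
  exact ⟨h2, fun hV => h3 (hdim hV)⟩

end Pool.Agent.Helper86.MQ
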