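import Pool.Agent.Helper86.MQ.Fixed
import Pool.Agent.Helper86.MQ.Final
import Pool.Agent.Helper87.MQ.Fixed

/-!
# The final theorem, with a hypersurface which is given in advance
-/

set_option autoImplicit false

namespace Pool.Agent.Helper86.MQ

open MvPolynomial
open Pool.Agent.Helper86.DML (SSp)
open Pool.Agent.Helper87.MQ (hbox toQp toC map_density glue classes exists_local_eq)
open Pool.Agent.Helper87.DMLP (primesFor not_summable_primesFor prime_of_mem_primesFor)

section

variable {p : ℕ} [hp : Fact p.Prime] {m d : ℕ}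

theorem hpoly_ne {D k : ℕ} {G : MvPolynomial (Fin (m + 1)) ℤ_[p]} {s₀ : Fin (m + 1) →₀ ℕ}
    (h1 : coeff s₀ G = 1) (h2 : s₀.degree = D) (h3 : (Finsupp.tail s₀).degree = k) :
    hpoly D k G ≠ 0 := by
  classical
  intro h0
  have h4 := congrArg (coeff (Finsupp.tail s₀)) h0
  rw [hpoly, coeff_sum, coeff_zero] at h4
  simp only [coeff_monomial] at h4
  rw [Finset.sum_eq_single s₀] at h4
  · rw [if_pos rfl, h1, map_one] at h4
    exact one_ne_zero h4
  · intro s hs hne
    rw [if_neg]
    intro h5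
    apply hne
    have h6 := (Finset.mem_filter.1 hs).2.1
    have h7 := Pool.Agent.Helper26.MQ.degree_succ s
    have h8 := Pool.Agent.Helper26.MQ.degree_succ s₀
    have h9 : ∀ j : Fin m, s j.succ = s₀ j.succ := fun j => by
      have := DFunLike.congr_fun h5 j
      rwa [Finsupp.tail_apply, Finsupp.tail_apply] at this
    rw [h6, Finset.sum_congr rfl fun j _ => h9 j] at h7
    rw [h2] at h8
    ext j
    refine Fin.cases ?_ (fun j => h9 j) j
    omega
  · intro hs
    exfalso
    apply hs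
    rw [domM, Finset.mem_filter, mem_support_iff, h1]
    exact ⟨one_ne_zero, h2, h3⟩

theorem totalDegree_hpoly (D k : ℕ) (G : MvPolynomial (Fin (m + 1)) ℤ_[p]) :
    (hpoly D k G).totalDegree ≤ k := by
  refine totalDegree_finsetSum_le fun s hs => ?_
  refine (totalDegree_monomial_le _ _).trans ?_
  have h1 := (Finset.mem_filter.1 hs).2.2
  rw [← h1]
  exact le_of_eq rfl

theorem xd_injective : Function.Injective (xd m d) := by
  intro i j h
  exact Fin.succ_injective _ (congrArg Prod.fst h)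

theorem count_low {k : ℕ} (h : MvPolynomial (Fin m) (ZMod p)) (h0 : h ≠ 0)
    (hk : h.totalDegree ≤ k) [DecidablePred fun c : Idx m d → ZMod p =>
      eval (fun i => c (xd m d i)) h = 0] :
    (Finset.univ.filter fun c : Idx m d → ZMod p =>
      eval (fun i => c (xd m d i)) h = 0).card * p ≤ k * p ^ Fintype.card (Idx m d) := by
  classical
  set E : Idx m d ≃ Fin (Fintype.card (Idx m d)) := Fintype.equivFin _ with hE
  set N := Fintype.card (Idx m d) with hN
  set h' : MvPolynomial (Fin N) (ZMod p) := rename (fun i => E (xd m d i)) h with hh'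
  have h1 : h' ≠ 0 := by
    intro h2
    apply h0
    have h3 : Function.Injective (fun i => E (xd m d i)) := E.injective.comp xd_injective
    exact rename_injective _ h3 (by rw [map_zero]; exact h2)
  have h2 : h'.totalDegree ≤ k := (totalDegree_rename_le _ _).trans hk
  have h3 := schwartz_zippel_totalDegree h1 (Finset.univ : Finset (ZMod p))
  have hcard : (Finset.univ : Finset (ZMod p)).card = p := by
    rw [Finset.card_univ, ZMod.card]
  rw [hcard] at h3
  have h4 : (Finset.univ.filter fun c : Idx m d → ZMod p =>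
      eval (fun i => c (xd m d i)) h = 0).card =
      ((Fintype.piFinset fun _ : Fin N => (Finset.univ : Finset (ZMod p))).filter
        fun f => eval f h' = 0).card := by
    refine Finset.card_equiv (Equiv.arrowCongr E (Equiv.refl _)) fun c => ?_
    rw [Finset.mem_filter, Finset.mem_filter, hh', eval_rename]
    have e : (Equiv.arrowCongr E (Equiv.refl (ZMod p))) c ∘ (fun i => E (xd m d i)) =
        fun i => c (xd m d i) := by
      funext i
      simp
    rw [e]
    simp
  rw [h4]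
  have hp0 : (0 : ℚ≥0) < p := by exact_mod_cast hp.out.pos
  rw [div_le_div_iff₀ (pow_pos hp0 _) hp0] at h3
  have h5 : (((Fintype.piFinset fun _ : Fin N => (Finset.univ : Finset (ZMod p))).filter
        fun f => eval f h' = 0).card : ℚ≥0) * p ≤ k * p ^ N := by
    refine h3.trans ?_
    exact mul_le_mul_of_nonneg_right (by exact_mod_cast h2) (by positivity)
  exact_mod_cast h5

end

theorem main3 (m d : ℕ) (hd : 2 ≤ d) (A : Finset ℂ) (F₀ : MvPolynomial (Fin (m + 1)) ℂ)
    (hF₀ : F₀ ≠ 0) (ε : ℝ) (hε : 0 < ε) :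
    ∃ M K : ℕ, 0 < M ∧ ∀ B : ℕ, K ≤ B → (hbox m d B).Finite ∧
      (1 - ε) * ((hbox m d B).ncard : ℝ) ≤
        (({Φ ∈ hbox m d B | Concl (Subfield.closure (A : Set ℂ)) M Φ ∧
          ∀ α : Fin (m + 1) → ℂ, (∀ i, α i ∈ Subfield.closure (A : Set ℂ)) →
            {n | eval ((pm (toC Φ))^[n] α) F₀ = 0}.Finite}).ncard : ℝ) := by
  classical
  obtain ⟨A', s₀, hAA, hcl, hloc⟩ := exists_local_eq A F₀ hF₀
  set D : ℕ := s₀.degree with hD
  set k : ℕ := (Finsupp.tail s₀).degree with hk
  obtain ⟨C, hC⟩ := Pool.Agent.Helper26.MQ.trap m d hd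
  have key : ∀ (q : ℕ) [Fact q.Prime], ∃ BB : Finset (Idx m d → ZMod q),
      BB.card * q ≤ (C + k) * q ^ Fintype.card (Idx m d) ∧
      (∀ Φ : Fin (m + 1) → MvPolynomial (Fin (m + 1)) ℚ_[q], Pre q m d Φ →
        ∀ c, Red Φ c → c ∉ BB →
          Good q m d Φ ∧ ∀ x : Fin (m + 1) → ℚ_[q], ∃ n, Esc ((pm Φ)^[n] x)) ∧
      (q ∈ primesFor A' →
        ∃ (e : Subfield.closure (A : Set ℂ) →+* ℚ_[q]) (G : MvPolynomial (Fin (m + 1)) ℤ_[q]),
          (∀ s ∈ G.support, s.degree = D → k ≤ (Finsupp.tail s).degree) ∧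
          (∀ s ∈ G.support, s.degree ≤ D) ∧
          (∀ (Φ : Fin (m + 1) → MvPolynomial (Fin (m + 1)) ℚ)
            (α : Fin (m + 1) → Subfield.closure (A : Set ℂ)) (n : ℕ),
            eval ((pm (toC Φ))^[n] (fun i => (α i : ℂ))) F₀ = 0 →
              eval ((pm (toQp q Φ))^[n] (fun i => e (α i)))
                (map (PadicInt.Coe.ringHom (p := q)) G) = 0) ∧
          ∀ c ∉ BB, eval (fun i => c (xd m d i)) (hpoly D k G) ≠ 0) := by
    intro q hq
    obtain ⟨BB, hBB, hgood⟩ := hC q
    by_cases hqA : q ∈ primesFor A'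
    · obtain ⟨_, e, G, hG1, hG2, hG3, hG4⟩ := hloc q hqA
      refine ⟨BB ∪ Finset.univ.filter fun c : Idx m d → ZMod q =>
        eval (fun i => c (xd m d i)) (hpoly D k G) = 0, ?_, ?_, fun _ => ⟨e, G, ?_, ?_, hG4, ?_⟩⟩
      · have h1 := count_low (d := d) (hpoly D k G) (hpoly_ne hG1 hD.symm hk.symm)
          (totalDegree_hpoly D k G)
        have h2 := Finset.card_union_le BB (Finset.univ.filter fun c : Idx m d → ZMod q =>
          eval (fun i => c (xd m d i)) (hpoly D k G) = 0)
        calc _ ≤ (BB.card + (Finset.univ.filter fun c : Idx m d → ZMod q =>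
              eval (fun i => c (xd m d i)) (hpoly D k G) = 0).card) * q :=
              Nat.mul_le_mul_right _ h2
          _ ≤ _ := by
              rw [add_mul, add_mul]
              exact Nat.add_le_add hBB h1
      · intro Φ hΦ c hc hcB
        exact hgood Φ hΦ c hc fun h => hcB (Finset.mem_union_left _ h)
      · intro s hs hsD
        have h1 := hG3 s (mem_support_iff.1 hs) hsD
        have h2 := Pool.Agent.Helper26.MQ.degree_succ s
        have h3 := Pool.Agent.Helper26.MQ.degree_succ s₀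
        rw [hk, tail_degree, tail_degree]
        omega
      · intro s hs
        exact (le_totalDegree hs).trans hG2.le
      · intro c hc h0
        exact hc (Finset.mem_union_right _ (Finset.mem_filter.2 ⟨Finset.mem_univ _, h0⟩))
    · refine ⟨BB, hBB.trans (Nat.mul_le_mul_right _ (Nat.le_add_right _ _)), hgood, fun h =>
        absurd h hqA⟩
  choose BB hBB hgood hloc' using key
  obtain ⟨P, K, hP, h⟩ := map_density m d (C + k) (primesFor A') (not_summable_primesFor A')
    (prime_of_mem_primesFor A') 3 ε hε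
  have hPp : ∀ k : {q // q ∈ P}, Fact (k.1).Prime := fun k => ⟨(hP k.1 k.2).2.1⟩
  choose Mq hMq using fun k : {q // q ∈ P} => @exists_Mod k.1 (hPp k) m
  set M : ℕ := ∏ k : {q // q ∈ P}, Mq k with hM
  have hMpos : 0 < M := Finset.prod_pos fun k _ => show 1 ≤ Mq k from And.left (hMq k)
  refine ⟨M, K, hMpos, fun B hB => ?_⟩
  obtain ⟨hfin, hcard⟩ := h BB hBB B hB
  refine ⟨hfin, hcard.trans ?_⟩
  refine Nat.cast_le.2 (Set.ncard_le_ncard ?_ (hfin.subset fun Φ hΦ => hΦ.1))
  rintro Φ ⟨hΦ, q, hq, hF, c, hc, hpre, hred⟩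
  obtain ⟨hg, hesc⟩ := hgood q (toQp q Φ) hpre c hred hc
  obtain ⟨e, G, hG1, hG2, hG3, hG4⟩ := hloc' q (hP q hq).1
  have hModq : Mod q m M := (hMq ⟨q, hq⟩).of_dvd (Finset.dvd_prod_of_mem _ (Finset.mem_univ _)) hMpos
  refine ⟨hΦ, ?_, ?_⟩
  · intro α hα V
    obtain ⟨W, hW, hdim⟩ := glue q (Subfield.closure (A : Set ℂ)) e V
    have h1 : {n | ∀ F ∈ V, eval ((pm (toC Φ))^[n] α) F = 0} =
        {n | ∀ G ∈ W, eval ((pm (toQp q Φ))^[n] (fun i => e ⟨α i, hα i⟩)) G = 0} := by
      ext n
      exact hW Φ (fun i => ⟨α i, hα i⟩) n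
    rw [h1]
    obtain ⟨h2, h3⟩ := padic_main (hP q hq).2.2 hd hModq hg (hesc (fun i => e ⟨α i, hα i⟩)) W
    exact ⟨h2, fun hV => h3 (hdim hV)⟩
  · intro α hα
    obtain ⟨n₀, hn₀⟩ := hesc (fun i => e ⟨α i, hα i⟩)
    have h1 := fixed_local hd hpre hred hn₀ hG1 hG2 (hG4 c hc)
    refine finite_of_shift n₀ (h1.subset fun n hn => ?_)
    have h2 := hG3 Φ (fun i => ⟨α i, hα i⟩) (n + n₀) hn
    rw [Function.iterate_add_apply] at h2
    exact h2

end Pool.Agent.Helper86.MQ
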