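import Pool.Agent.Helper86.MQ.FourDefs
import Pool.Agent.Helper87.MQ.Density

/-!
# Version (4): exact statements of the parts (nobody imports this file)
-/

set_option autoImplicit false

namespace Pool.Agent.Helper86.MQ

open MvPolynomial

/-- (D), helper52, file Helper52/MQ/GenPos.lean -/
theorem exists_genPos (m d D : ℕ) (hD : (m + D).choose D ≤ d) :
    ∃ R : MvPolynomial (Idx m d) ℤ, R ≠ 0 ∧ ∀ (K : Type) [Field K] [CharZero K] (c : Idx m d → K),
      aeval c R ≠ 0 → GenPos D c := by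
  sorry

/-- helper26, file Helper26/MQ/GenB.lean -/
theorem exists_genB (m d : ℕ) (hd : 1 ≤ d) (i₁ : Fin (m + 1)) (hi : i₁ ≠ 0) :
    ∃ R : MvPolynomial (Idx m d) ℤ, R ≠ 0 ∧ ∀ (K : Type) [Field K] (c : Idx m d → K),
      aeval c R ≠ 0 → GenB i₁ c := by
  sorry

/-- helper26: count modulo the primes -/
theorem count_R (m d : ℕ) (R : MvPolynomial (Idx m d) ℤ) (hR : R ≠ 0) :
    ∃ C : ℕ, ∀ (p : ℕ) [Fact p.Prime] [DecidablePred fun c : Idx m d → ZMod p => aeval c R = 0],
      (Finset.univ.filter fun c : Idx m d → ZMod p => aeval c R = 0).card * p ≤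
        C * p ^ Fintype.card (Idx m d) := by
  sorry

end Pool.Agent.Helper86.MQ
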