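import Pool.Agent.Helper86.MQ.FourDefs

/-!
# Ramification of the fixed points at a prime of the second type
-/

set_option autoImplicit false

namespace Pool.Agent.Helper86.MQ

open MvPolynomial

section general

variable {m d : ℕ}

/-- the values of the forms of degree `d`, over a ring -/
noncomputable def tfR {A : Type*} [CommRing A] (c : Idx m d → A) (x : Fin (m + 1) → A)
    (i : Fin (m + 1)) : A :=
  ∑ e : {s : Fin (m + 1) →₀ ℕ // s.degree ≤ d},
    if e.1.degree = d then c (i, e) * ∏ j, x j ^ (e.1 j) else 0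

theorem tf_eq {K : Type*} [Field K] (c : Idx m d → K) (x : Fin (m + 1) → K) (i : Fin (m + 1)) :
    tf c x i = tfR c x i := rfl

theorem map_tfR {A B : Type*} [CommRing A] [CommRing B] (φ : A →+* B) (c : Idx m d → A)
    (x : Fin (m + 1) → A) (i : Fin (m + 1)) :
    φ (tfR c x i) = tfR (fun k => φ (c k)) (fun j => φ (x j)) i := by
  rw [tfR, tfR, map_sum]
  refine Finset.sum_congr rfl fun e _ => ?_
  split_ifs
  · rw [map_mul, map_prod]
    simp only [map_pow]
  · exact map_zero φ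

theorem tfR_smul {A : Type*} [CommRing A] (c : Idx m d → A) (x : Fin (m + 1) → A) (a : A)
    (i : Fin (m + 1)) : tfR c (a • x) i = a ^ d * tfR c x i := by
  rw [tfR, tfR, Finset.mul_sum]
  refine Finset.sum_congr rfl fun e _ => ?_
  split_ifs with h
  · have h1 : ∏ j, (a • x) j ^ (e.1 j) = a ^ d * ∏ j, x j ^ (e.1 j) := by
      have h2 : a ^ d = ∏ j, a ^ (e.1 j) := by
        rw [Finset.prod_pow_eq_pow_sum, ← Finsupp.degree_eq_sum, h]
      rw [h2, ← Finset.prod_mul_distrib]
      refine Finset.prod_congr rfl fun j _ => ?_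
      rw [Pi.smul_apply, smul_eq_mul, mul_pow]
    rw [h1]
    ring
  · rw [mul_zero]

theorem Fix.smul {K : Type*} [Field K] {c : Idx m d → K} {x : Fin (m + 1) → K} (h : Fix c x)
    (hd : 1 ≤ d) {a : K} (ha : a ≠ 0) : Fix c (a • x) := by
  obtain ⟨hx, μ, hμ⟩ := h
  refine ⟨smul_ne_zero ha hx, a ^ (d - 1) * μ, fun i => ?_⟩
  rw [tf_eq, tfR_smul, ← tf_eq, hμ i, Pi.smul_apply, smul_eq_mul]
  have : a ^ d = a ^ (d - 1) * a := by
    rw [← pow_succ]
    congr 1
    omega
  rw [this]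
  ring

/-- split off one coefficient -/
theorem tfR_split {A : Type*} [CommRing A] (c : Idx m d → A) (x : Fin (m + 1) → A)
    (i₁ i : Fin (m + 1)) :
    tfR c x i = tfR (fun k => if k = kB m d i₁ then 0 else c k) x i +
      if i = 0 then c (kB m d i₁) * x i₁ ^ d else 0 := by
  classical
  by_cases hi : i = 0
  · subst hi
    rw [if_pos rfl, tfR, tfR, ← sub_eq_iff_eq_add', ← Finset.sum_sub_distrib]
    rw [Finset.sum_eq_single (⟨Finsupp.single i₁ d, by simp⟩ :
      {s : Fin (m + 1) →₀ ℕ // s.degree ≤ d})]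
    · have h1 : (Finsupp.single i₁ d : Fin (m + 1) →₀ ℕ).degree = d := by simp
      simp only [h1, if_true]
      rw [if_pos (by rfl), zero_mul, sub_zero]
      congr 1
      rw [Finset.prod_eq_single i₁]
      · simp
      · intro b _ hb
        simp [hb.symm]
      · simp
    · intro e _ he
      rw [if_neg (show ¬ ((0 : Fin (m + 1)), e) = kB m d i₁ from fun h => he (by
        have := congrArg Prod.snd h
        exact this)), sub_self]
    · simp
  · rw [if_neg hi, add_zero, tfR, tfR]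
    refine Finset.sum_congr rfl fun e _ => ?_
    rw [if_neg (show ¬ (i, e) = kB m d i₁ from fun h => hi (congrArg Prod.fst h))]

/-- the coefficient of `x₀ ^ d` -/
theorem tfR_e0 {A : Type*} [CommRing A] (c : Idx m d → A) (x : Fin (m + 1) → A) (hx0 : x 0 = 1)
    (i : Fin (m + 1)) :
    tfR c x i = c (i, ⟨Finsupp.single 0 d, by simp⟩) +
      ∑ e : {s : Fin (m + 1) →₀ ℕ // s.degree ≤ d},
        if e.1.degree = d ∧ e.1 ≠ Finsupp.single 0 d then c (i, e) * ∏ j, x j ^ (e.1 j) else 0 := by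
  classical
  rw [tfR, ← sub_eq_iff_eq_add, ← Finset.sum_sub_distrib]
  rw [Finset.sum_eq_single (⟨Finsupp.single 0 d, by simp⟩ :
    {s : Fin (m + 1) →₀ ℕ // s.degree ≤ d})]
  · have h1 : (Finsupp.single 0 d : Fin (m + 1) →₀ ℕ).degree = d := by simp
    simp only [h1, if_true, ne_eq, not_true_eq_false, and_false, if_false, sub_zero]
    have h2 : ∏ j, x j ^ ((Finsupp.single 0 d : Fin (m + 1) →₀ ℕ) j) = 1 := by
      rw [Finset.prod_eq_single 0]
      · simp [hx0]
      · intro b _ hb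
        simp [hb.symm]
      · simp
    rw [h2, mul_one]
  · intro e _ he
    have h1 : e.1 ≠ Finsupp.single 0 d := fun h => he (Subtype.ext h)
    simp [h1]
  · simp

end general

section padic

variable {p : ℕ} [hp : Fact p.Prime] {m d : ℕ}

/-- The norms of the elements of small degree. -/
theorem exists_norm_pow {y : PadicAlgCl p} (hy : y ≠ 0) :
    ∃ j : ℕ, 1 ≤ j ∧ j ≤ (minpoly ℚ_[p] y).natDegree ∧ ∃ z : ℤ, ‖y‖ ^ j = (p : ℝ) ^ z := by
  have h1 : ‖y‖ = spectralValue (minpoly ℚ_[p] y) := rfl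
  have hfin := spectralValueTerms_finite_range (minpoly ℚ_[p] y)
  obtain ⟨n, hn⟩ : ∃ n, spectralValueTerms (minpoly ℚ_[p] y) n = ‖y‖ := by
    rw [h1, spectralValue]
    exact Set.Nonempty.csSup_mem (Set.range_nonempty _) hfin
  have hpos : 0 < ‖y‖ := norm_pos_iff.2 hy
  by_cases hlt : n < (minpoly ℚ_[p] y).natDegree
  · rw [spectralValueTerms_of_lt_natDegree _ hlt] at hn
    refine ⟨(minpoly ℚ_[p] y).natDegree - n, by omega, by omega, ?_⟩
    set a := (minpoly ℚ_[p] y).coeff n with ha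
    have ha0 : a ≠ 0 := by
      intro h0
      rw [h0, norm_zero, Real.zero_rpow] at hn
      · rw [← hn] at hpos
        exact lt_irrefl _ hpos
      · have : (0 : ℝ) < (minpoly ℚ_[p] y).natDegree - n := by
          rw [sub_pos]
          exact_mod_cast hlt
        positivity
    refine ⟨-a.valuation, ?_⟩
    have h2 : ‖y‖ ^ ((minpoly ℚ_[p] y).natDegree - n) = ‖a‖ := by
      rw [← hn, ← Real.rpow_natCast, ← Real.rpow_mul (norm_nonneg _)]
      have h3 : (1 / (((minpoly ℚ_[p] y).natDegree : ℝ) - n)) *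
          (((minpoly ℚ_[p] y).natDegree - n : ℕ) : ℝ) = 1 := by
        rw [Nat.cast_sub hlt.le]
        have : ((minpoly ℚ_[p] y).natDegree : ℝ) - n ≠ 0 := by
          rw [sub_ne_zero]
          exact_mod_cast hlt.ne'
        field_simp
      rw [h3, Real.rpow_one]
    rw [h2, Padic.norm_eq_zpow_neg_valuation ha0]
  · rw [spectralValueTerms_of_natDegree_le _ (by omega)] at hn
    rw [← hn] at hpos
    exact absurd hpos (lt_irrefl _)

theorem degree_ge {y : PadicAlgCl p} {e : ℕ} (hy : (p : ℝ) * ‖y‖ ^ e = 1) :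
    e ≤ (minpoly ℚ_[p] y).natDegree := by
  have hp1 : (1 : ℝ) < p := by exact_mod_cast hp.out.one_lt
  have hp0 : (0 : ℝ) < p := by linarith
  rcases Nat.eq_zero_or_pos e with rfl | he
  · exact Nat.zero_le _
  have hy0 : y ≠ 0 := by
    intro h0
    rw [h0, norm_zero, zero_pow (by omega), mul_zero] at hy
    exact zero_ne_one hy
  obtain ⟨j, hj1, hj2, z, hz⟩ := exists_norm_pow hy0
  refine le_trans ?_ hj2
  have h1 : ‖y‖ ^ e = (p : ℝ) ^ (-1 : ℤ) := by
    rw [zpow_neg_one]
    field_simp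
    linarith
  have h2 : ((p : ℝ) ^ z) ^ e = ((p : ℝ) ^ (-1 : ℤ)) ^ j := by
    rw [← hz, ← h1, ← pow_mul, ← pow_mul, mul_comm]
  rw [← zpow_natCast, ← zpow_natCast, ← zpow_mul, ← zpow_mul] at h2
  have h3 := zpow_right_injective₀ hp0 hp1.ne' h2
  have h4 : (e : ℤ) ∣ j := ⟨-z, by linarith⟩
  exact Nat.le_of_dvd (by omega) (by exact_mod_cast h4)

/-- the ring of integers -/
noncomputable abbrev OK (p : ℕ) [Fact p.Prime] : ValuationSubring (PadicAlgCl p) :=
  (Valued.v : Valuation (PadicAlgCl p) NNReal).valuationSubring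

theorem mem_OK {x : PadicAlgCl p} : x ∈ OK p ↔ ‖x‖ ≤ 1 := by
  rw [OK, Valuation.mem_valuationSubring_iff, PadicAlgCl.valuation_def]
  exact Iff.rfl

theorem residue_eq_zero {a : OK p} (h : ‖(a : (PadicAlgCl p))‖ < 1) : IsLocalRing.residue (OK p) a = 0 := by
  rw [IsLocalRing.residue_eq_zero_iff, IsLocalRing.mem_maximalIdeal, mem_nonunits_iff]
  intro hu
  obtain ⟨b, hb⟩ := hu.exists_right_inv
  have h1 : (a : (PadicAlgCl p)) * (b : (PadicAlgCl p)) = 1 := by
    have := congrArg (fun z : OK p => (z : (PadicAlgCl p))) hb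
    simpa using this
  have h2 : ‖(a : (PadicAlgCl p))‖ * ‖(b : (PadicAlgCl p))‖ = 1 := by rw [← norm_mul, h1, norm_one]
  have h3 : ‖(b : (PadicAlgCl p))‖ ≤ 1 := mem_OK.1 b.2
  have h4 : ‖(a : (PadicAlgCl p))‖ * ‖(b : (PadicAlgCl p))‖ ≤ ‖(a : (PadicAlgCl p))‖ * 1 := mul_le_mul_of_nonneg_left h3 (norm_nonneg _)
  linarith

theorem tfR_mem {c : Idx m d → (PadicAlgCl p)} {x : Fin (m + 1) → (PadicAlgCl p)} (hc : ∀ k, ‖c k‖ ≤ 1)
    (hx : ∀ j, ‖x j‖ ≤ 1) (i : Fin (m + 1)) :
    tfR c x i = (tfR (fun k => (⟨c k, mem_OK.2 (hc k)⟩ : OK p))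
      (fun j => (⟨x j, mem_OK.2 (hx j)⟩ : OK p)) i : OK p) := by
  have h := map_tfR (OK p).subtype (fun k => (⟨c k, mem_OK.2 (hc k)⟩ : OK p))
      (fun j => (⟨x j, mem_OK.2 (hx j)⟩ : OK p)) i
  have e1 : (fun k => (OK p).subtype (⟨c k, mem_OK.2 (hc k)⟩ : OK p)) = c := rfl
  have e2 : (fun j => (OK p).subtype (⟨x j, mem_OK.2 (hx j)⟩ : OK p)) = x := rfl
  rw [e1, e2] at h
  exact h.symm

theorem norm_tfR_le {c : Idx m d → (PadicAlgCl p)} {x : Fin (m + 1) → (PadicAlgCl p)} (hc : ∀ k, ‖c k‖ ≤ 1)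
    (hx : ∀ j, ‖x j‖ ≤ 1) (i : Fin (m + 1)) : ‖tfR c x i‖ ≤ 1 := by
  have h := tfR_mem hc hx i
  generalize (tfR (fun k => (⟨c k, mem_OK.2 (hc k)⟩ : OK p))
      (fun j => (⟨x j, mem_OK.2 (hx j)⟩ : OK p)) i : OK p) = z at h
  rw [h]
  exact mem_OK.1 z.2

/-- the integers in the ring of integers -/
noncomputable def toOK (p : ℕ) [Fact p.Prime] : ℤ_[p] →+* OK p :=
  ((algebraMap ℚ_[p] (PadicAlgCl p)).comp PadicInt.Coe.ringHom).codRestrict (OK p).toSubring
    (fun z => mem_OK.2 (by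
      rw [RingHom.comp_apply, PadicAlgCl.norm_extends]
      exact PadicInt.norm_le_one z))

theorem residue_toOK (ψ : ZMod p →+* IsLocalRing.ResidueField (OK p)) (z : ℤ_[p]) :
    IsLocalRing.residue (OK p) (toOK p z) = ψ (PadicInt.toZMod z) := by
  set n : ℕ := (PadicInt.toZMod z).val with hn
  have h1 : PadicInt.toZMod z = (n : ZMod p) := (ZMod.natCast_zmod_val _).symm
  have h2 : z - n ∈ RingHom.ker (PadicInt.toZMod : ℤ_[p] →+* ZMod p) := by
    rw [RingHom.mem_ker, map_sub, map_natCast, h1, sub_self]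
  rw [PadicInt.ker_toZMod, PadicInt.maximalIdeal_eq_span_p, Ideal.mem_span_singleton] at h2
  obtain ⟨w, hw⟩ := h2
  have h3 : z = n + p * w := by rw [← hw]; ring
  have hp0 : IsLocalRing.residue (OK p) (toOK p (p : ℤ_[p])) = 0 := by
    apply residue_eq_zero
    have : ((toOK p (p : ℤ_[p]) : OK p) : (PadicAlgCl p)) = algebraMap ℚ_[p] (PadicAlgCl p) ((p : ℤ_[p]) : ℚ_[p]) := rfl
    rw [this, PadicAlgCl.norm_extends, PadicInt.coe_natCast, Padic.norm_p]
    exact inv_lt_one_of_one_lt₀ (by exact_mod_cast hp.out.one_lt)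
  rw [h1, map_natCast]
  conv_lhs => rw [h3]
  rw [map_add, map_mul, map_add, map_mul, hp0, zero_mul, add_zero, map_natCast, map_natCast]

theorem exists_psi (p : ℕ) [Fact p.Prime] :
    Nonempty (ZMod p →+* IsLocalRing.ResidueField (OK p)) := by
  have hp0 : IsLocalRing.residue (OK p) (toOK p (p : ℤ_[p])) = 0 := by
    apply residue_eq_zero
    have : ((toOK p (p : ℤ_[p]) : OK p) : PadicAlgCl p) =
      algebraMap ℚ_[p] (PadicAlgCl p) ((p : ℤ_[p]) : ℚ_[p]) := rfl
    rw [this, PadicAlgCl.norm_extends, PadicInt.coe_natCast, Padic.norm_p]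
    exact inv_lt_one_of_one_lt₀ (by exact_mod_cast (Fact.out : p.Prime).one_lt)
  rw [map_natCast, map_natCast] at hp0
  haveI : CharP (IsLocalRing.ResidueField (OK p)) p :=
    (CharP.charP_iff_prime_eq_zero Fact.out).2 hp0
  exact ⟨ZMod.castHom (dvd_refl p) _⟩

theorem norm_sum_lt {ι : Type*} [Fintype ι] [Nonempty ι] (f : ι → (PadicAlgCl p)) (h : ∀ i, ‖f i‖ < 1) :
    ‖∑ i, f i‖ < 1 := by
  obtain ⟨i, _, hi⟩ := IsUltrametricDist.exists_norm_finset_sum_le Finset.univ f
  exact hi.trans_lt (h i)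

/-- **Ramification of the fixed points.** -/
theorem ram (hd : 2 ≤ d) {i₁ : Fin (m + 1)} (hi : i₁ ≠ 0)
    {Φ : Fin (m + 1) → MvPolynomial (Fin (m + 1)) ℚ_[p]} (hΦ : PreAt p m d (kB m d i₁) Φ)
    {c : Idx m d → ZMod p} (hc : RedAt (kB m d i₁) Φ c)
    (hgen : ∀ (k : Type) [Field k] (ψ : ZMod p →+* k), GenB i₁ (fun a => ψ (c a)))
    {x : Fin (m + 1) → (PadicAlgCl p)}
    (hx : Fix (fun a : Idx m d => algebraMap ℚ_[p] (PadicAlgCl p) (coeff a.2.1 (Φ a.1))) x) :
    ∃ k, x k ≠ 0 ∧ d ≤ (minpoly ℚ_[p] (x i₁ / x k)).natDegree := by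
  classical
  have hp1 : (1 : ℝ) < p := by exact_mod_cast hp.out.one_lt
  have hp0 : (0 : ℝ) < p := by linarith
  obtain ⟨k, hk⟩ := Finite.exists_max (fun j => ‖x j‖)
  have hxk : x k ≠ 0 := by
    intro h0
    apply hx.1
    funext j
    have h1 := hk j
    rw [h0, norm_zero] at h1
    exact norm_le_zero_iff.1 h1
  refine ⟨k, hxk, ?_⟩
  -- normalisation
  obtain ⟨y, hy⟩ : ∃ y, y = (x k)⁻¹ • x := ⟨_, rfl⟩
  have hyF := hx.smul (by omega : 1 ≤ d) (inv_ne_zero hxk)
  rw [← hy] at hyF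
  have hyk : y k = 1 := by rw [hy, Pi.smul_apply, smul_eq_mul, inv_mul_cancel₀ hxk]
  have hy1 : ∀ j, ‖y j‖ ≤ 1 := by
    intro j
    rw [hy, Pi.smul_apply, smul_eq_mul, norm_mul, norm_inv, inv_mul_le_iff₀ (norm_pos_iff.2 hxk),
      mul_one]
    exact hk j
  have hyi : x i₁ / x k = y i₁ := by
    rw [hy, Pi.smul_apply, smul_eq_mul, div_eq_inv_mul]
  rw [hyi]
  clear hx hy hxk hk hyi x
  obtain ⟨-, μ, hμ⟩ := hyF
  set C : Idx m d → (PadicAlgCl p) := fun a => algebraMap ℚ_[p] (PadicAlgCl p) (coeff a.2.1 (Φ a.1)) with hC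
  set C' : Idx m d → (PadicAlgCl p) := fun a => if a = kB m d i₁ then 0 else C a with hC'
  have hC'1 : ∀ a, ‖C' a‖ ≤ 1 := by
    intro a
    simp only [hC']
    split_ifs with h
    · rw [norm_zero]
      exact zero_le_one
    · rw [hC]
      simp only
      rw [PadicAlgCl.norm_extends]
      refine hΦ.int _ _ fun h' => h ?_
      exact Prod.ext h'.1 (Subtype.ext h'.2)
  have hCs : ‖C (kB m d i₁)‖ = p := by
    rw [hC]
    simp only
    rw [PadicAlgCl.norm_extends]
    exact hΦ.one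
  have hsplit : ∀ i, tf C y i = tfR C' y i + if i = 0 then C (kB m d i₁) * y i₁ ^ d else 0 :=
    fun i => tfR_split C y i₁ i
  have hle : ∀ i, ‖tfR C' y i‖ ≤ 1 := fun i => norm_tfR_le hC'1 hy1 i
  have hne : ∀ i, i ≠ 0 → ‖μ‖ * ‖y i‖ ≤ 1 := by
    intro i hi0
    rw [← norm_mul, ← hμ i, hsplit i, if_neg hi0, add_zero]
    exact hle i
  have hs : ‖C (kB m d i₁) * y i₁ ^ d‖ = p * ‖y i₁‖ ^ d := by rw [norm_mul, norm_pow, hCs]
  rcases lt_trichotomy ((p : ℝ) * ‖y i₁‖ ^ d) 1 with hlt | heq | hgt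
  · -- the residue field
    exfalso
    obtain ⟨ψ⟩ := exists_psi p
    set φ := IsLocalRing.residue (OK p) with hφ
    have hμ1 : ‖μ‖ ≤ 1 := by
      by_cases hk0 : k = 0
      · have h1 : ‖μ‖ * ‖y k‖ = ‖tf C y k‖ := by rw [hμ k, norm_mul]
        rw [hyk, norm_one, mul_one] at h1
        rw [h1, hsplit k, if_pos hk0]
        refine (IsUltrametricDist.norm_add_le_max _ _).trans (max_le (hle k) ?_)
        rw [hs]
        exact hlt.le
      · have h1 := hne k hk0
        rwa [hyk, norm_one, mul_one] at h1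
    have hs1 : ‖C (kB m d i₁) * y i₁ ^ d‖ < 1 := by rw [hs]; exact hlt
    have hyi1 : ‖y i₁‖ < 1 := by
      by_contra hcon
      push Not at hcon
      have h1 : (1 : ℝ) ≤ ‖y i₁‖ ^ d := one_le_pow₀ hcon
      nlinarith
    set cO : Idx m d → OK p := fun a => ⟨C' a, mem_OK.2 (hC'1 a)⟩ with hcO
    set yO : Fin (m + 1) → OK p := fun j => ⟨y j, mem_OK.2 (hy1 j)⟩ with hyO
    have hF : ∀ i, tfR (fun a => φ (cO a)) (fun j => φ (yO j)) i =
        φ ⟨μ, mem_OK.2 hμ1⟩ * φ (yO i) := by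
      intro i
      rw [← map_tfR φ, ← map_mul]
      have h1 : tfR cO yO i = (⟨μ, mem_OK.2 hμ1⟩ : OK p) * yO i -
          (if i = 0 then (⟨C (kB m d i₁) * y i₁ ^ d, mem_OK.2 hs1.le⟩ : OK p) else 0) := by
        apply Subtype.ext
        have h2 := tfR_mem hC'1 hy1 i
        have h3 := hsplit i
        rw [hμ i] at h3
        have h4 : ((tfR cO yO i : OK p) : (PadicAlgCl p)) = μ * y i -
            (if i = 0 then C (kB m d i₁) * y i₁ ^ d else 0) := by
          rw [← h2, h3, add_sub_cancel_right]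
        rw [h4]
        by_cases hi0 : i = 0
        · rw [if_pos hi0, if_pos hi0]
          rfl
        · rw [if_neg hi0, if_neg hi0, sub_zero, sub_zero]
          rfl
      rw [h1, map_sub]
      by_cases hi0 : i = 0
      · rw [if_pos hi0, residue_eq_zero (a := ⟨C (kB m d i₁) * y i₁ ^ d, mem_OK.2 hs1.le⟩) hs1,
          sub_zero]
      · rw [if_neg hi0, map_zero, sub_zero]
    have hy0 : φ (yO i₁) = 0 := residue_eq_zero hyi1
    have hcc : (fun a => if a = kB m d i₁ then 0 else ψ (c a)) = fun a => φ (cO a) := by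
      funext a
      by_cases ha : a = kB m d i₁
      · rw [if_pos ha]
        have : cO a = 0 := by
          apply Subtype.ext
          change C' a = 0
          simp only [hC']
          rw [if_pos ha]
        rw [this, map_zero]
      · rw [if_neg ha]
        obtain ⟨z, hz1, hz2⟩ := hc a ha
        rw [← hz2, ← residue_toOK ψ z]
        congr 1
        apply Subtype.ext
        change _ = C' a
        simp only [hC']
        rw [if_neg ha]
        change algebraMap ℚ_[p] (PadicAlgCl p) (z : ℚ_[p]) = C a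
        rw [hz1]
    have hfix : Fix (fun a => ψ (c a)) (fun j => φ (yO j)) := by
      refine ⟨fun h0 => ?_, φ ⟨μ, mem_OK.2 hμ1⟩, fun i => ?_⟩
      · have h1 := congrFun h0 k
        have h2 : yO k = 1 := Subtype.ext hyk
        simp only [h2, map_one, Pi.zero_apply, one_ne_zero] at h1
      · rw [tf_eq, tfR_split _ _ i₁, hcc, hF i, hy0, zero_pow (by omega), mul_zero]
        simp
    exact (hgen _ ψ).2 _ hfix hy0
  · exact degree_ge heq
  · -- `F₀` is large
    have h0 : ‖μ‖ * ‖y 0‖ = p * ‖y i₁‖ ^ d := by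
      rw [← norm_mul, ← hμ 0, hsplit 0, if_pos rfl, add_comm, ← hs]
      apply IsUltrametricDist.norm_add_eq_max_of_norm_ne_norm _ |>.trans
      · rw [max_eq_left]
        rw [hs]
        exact (hle 0).trans hgt.le
      · rw [hs]
        exact fun h => absurd (hle 0) (by rw [← h]; exact not_le.2 hgt)
    have hμ1 : 1 < ‖μ‖ := by
      by_contra hcon
      push Not at hcon
      have : ‖μ‖ * ‖y 0‖ ≤ 1 * 1 := mul_le_mul hcon (hy1 0) (norm_nonneg _) zero_le_one
      rw [h0] at this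
      linarith
    have hsmall : ∀ i, i ≠ 0 → ‖y i‖ < 1 := by
      intro i hi0
      by_contra hcon
      push Not at hcon
      have h1 := hne i hi0
      nlinarith
    have hk0 : k = 0 := by
      by_contra hcon
      have := hsmall k hcon
      rw [hyk, norm_one] at this
      exact lt_irrefl _ this
    rw [hk0] at hyk
    rw [hyk, norm_one, mul_one] at h0
    -- the value of `F_{i₁}` is a unit
    have h1 : ‖μ‖ * ‖y i₁‖ = 1 := by
      rw [← norm_mul, ← hμ i₁, hsplit i₁, if_neg hi, add_zero, tfR_e0 C' y hyk]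
      set e0 : Idx m d := (i₁, ⟨Finsupp.single 0 d, by simp⟩) with he0
      have hne0 : e0 ≠ kB m d i₁ := fun h => hi (congrArg Prod.fst h)
      have hu : ‖C' e0‖ = 1 := by
        simp only [hC']
        rw [if_neg hne0]
        obtain ⟨z, hz1, hz2⟩ := hc e0 hne0
        have h2 : C e0 = algebraMap ℚ_[p] (PadicAlgCl p) (z : ℚ_[p]) := by rw [hz1]
        rw [h2, PadicAlgCl.norm_extends]
        have h3 : c e0 ≠ 0 := (hgen (ZMod p) (RingHom.id _)).1
        have h4 : IsUnit z := by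
          by_contra hcon
          apply h3
          rw [← hz2]
          have h5 : z ∈ IsLocalRing.maximalIdeal ℤ_[p] := (IsLocalRing.mem_maximalIdeal _).2 hcon
          rw [← PadicInt.ker_toZMod] at h5
          exact h5
        exact PadicInt.isUnit_iff.1 h4
      have hrest : ‖∑ e : {s : Fin (m + 1) →₀ ℕ // s.degree ≤ d},
          if e.1.degree = d ∧ e.1 ≠ Finsupp.single 0 d then C' (i₁, e) * ∏ j, y j ^ (e.1 j)
            else 0‖ < 1 := by
        haveI : Nonempty {s : Fin (m + 1) →₀ ℕ // s.degree ≤ d} := ⟨⟨0, by simp⟩⟩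
        refine norm_sum_lt _ fun e => ?_
        split_ifs with he
        · rw [norm_mul, norm_prod]
          have h5 : ∃ j, j ≠ 0 ∧ e.1 j ≠ 0 := by
            by_contra hcon
            push Not at hcon
            apply he.2
            have h6 := he.1
            rw [Finsupp.degree_eq_sum, Fin.sum_univ_succ,
              Finset.sum_eq_zero (fun j _ => hcon j.succ (Fin.succ_ne_zero j)), add_zero] at h6
            ext j
            refine Fin.cases ?_ (fun j => ?_) j
            · simp [h6]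
            · rw [hcon j.succ (Fin.succ_ne_zero j)]
              simp [Finsupp.single_apply, (Fin.succ_ne_zero j).symm]
          obtain ⟨j, hj0, hj⟩ := h5
          have h6 : ∏ i, ‖y i ^ (e.1 i)‖ < 1 := by
            rw [← Finset.mul_prod_erase _ _ (Finset.mem_univ j)]
            have h7 : ‖y j ^ (e.1 j)‖ < 1 := by
              rw [norm_pow]
              exact pow_lt_one₀ (norm_nonneg _) (hsmall j hj0) hj
            have h8 : ∏ i ∈ Finset.univ.erase j, ‖y i ^ (e.1 i)‖ ≤ 1 :=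
              Finset.prod_le_one (fun i _ => norm_nonneg _) (fun i _ => by
                rw [norm_pow]
                exact pow_le_one₀ (norm_nonneg _) (hy1 i))
            calc _ ≤ ‖y j ^ (e.1 j)‖ * 1 := mul_le_mul_of_nonneg_left h8 (norm_nonneg _)
              _ < 1 := by rwa [mul_one]
          calc ‖C' (i₁, e)‖ * ∏ i, ‖y i ^ (e.1 i)‖ ≤ 1 * ∏ i, ‖y i ^ (e.1 i)‖ :=
                mul_le_mul_of_nonneg_right (hC'1 _) (Finset.prod_nonneg fun i _ => norm_nonneg _)
            _ < 1 := by rwa [one_mul]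
        · rw [norm_zero]
          exact zero_lt_one
      rw [IsUltrametricDist.norm_add_eq_max_of_norm_ne_norm]
      · change max ‖C' e0‖ _ = 1
        rw [hu]
        exact max_eq_left hrest.le
      · change ‖C' e0‖ ≠ _
        rw [hu]
        exact hrest.ne'
    have h2 : (p : ℝ) * ‖y i₁‖ ^ (d + 1) = 1 := by
      rw [pow_succ, ← mul_assoc, ← h0]
      exact h1
    exact (Nat.le_succ d).trans (degree_ge h2)

end padic

end Pool.Agent.Helper86.MQ
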