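import Pool.Agent.Helper86.MQ.LocalAll
import Pool.Agent.Helper86.MQ.Ram
import Pool.Agent.Helper87.MQ.Density

/-!
# The limit point at infinity
-/

set_option autoImplicit false

namespace Pool.Agent.Helper86.MQ

open MvPolynomial Filter Topology
open Pool.Agent.Helper26.MQ (comp coeff_comp exists_lift' step_chart esc_iterate hz eval_hz
  norm_unit_add p_mul_lt norm_of_unit_mul eval_zero_pderiv Esc.ne_zero Esc.exists_chart ex
  degree_succ)

variable {p : ℕ} [hp : Fact p.Prime] {m d : ℕ}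

/-- Escaping orbits of a good map are orbits of one explicit local system. -/
theorem chartE (_hd : 2 ≤ d) {Φ : Fin (m + 1) → MvPolynomial (Fin (m + 1)) ℚ_[p]}
    (hΦ : Good p m d Φ) :
    ∃ (a : Idx m d → ℤ_[p]) (s : ℚ_[p]) (Z : Sys p m), (Z.u : ℚ_[p]) = p * s ∧
      Z.g = comp a 0 ∧ (∀ i, Z.H i = comp a i.succ) ∧
      (∀ k : Idx m d, ¬ (k.1 = 0 ∧ k.2.1 = Finsupp.single 0 d) →
        ((a k : ℤ_[p]) : ℚ_[p]) = coeff k.2.1 (Φ k.1)) ∧
      (∀ x i, pm Φ x i = (∑ e : {s : Fin (m + 1) →₀ ℕ // s.degree ≤ d},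
        ((a (i, e) : ℤ_[p]) : ℚ_[p]) * ∏ j, x j ^ (e : Fin (m + 1) →₀ ℕ) j) +
          if i = 0 then s * x 0 ^ d else 0) ∧
      ∀ x, Esc x → ∃ (t : ℕ → ℤ_[p]) (y : ℕ → Fin m → ℤ_[p]), Orb Z d t y ∧
        ∀ n, (t n : ℚ_[p]) = ((pm Φ)^[n + 1] x 0)⁻¹ ∧
          ∀ i : Fin m, (y n i : ℚ_[p]) = (pm Φ)^[n + 1] x i.succ / (pm Φ)^[n + 1] x 0 := by
  have hp0 : (p : ℚ_[p]) ≠ 0 := by exact_mod_cast hp.out.ne_zero
  have hp1 : (1 : ℝ) < p := by exact_mod_cast hp.out.one_lt
  obtain ⟨a, s, hs, ha, hΦx⟩ := exists_lift' hΦ.toPre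
  have hus : ‖(p : ℚ_[p]) * s‖ = 1 := by
    rw [norm_mul, Padic.norm_p, hs]
    field_simp
  set u : ℤ_[p] := ⟨p * s, hus.le⟩ with hu
  have hu1 : ‖u‖ = 1 := hus
  have hdet : ‖(Matrix.of fun i j : Fin m => eval 0 (pderiv j.succ (comp a i.succ))).det‖ = 1 := by
    have hd1 : 1 ≤ d := by omega
    have h1 := hΦ.unit
    have h2 : (Matrix.of fun i j : Fin m =>
        coeff (Finsupp.single 0 (d - 1) + Finsupp.single j.succ 1) (Φ i.succ)) =
        (PadicInt.Coe.ringHom (p := p)).mapMatrix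
          (Matrix.of fun i j : Fin m => eval 0 (pderiv j.succ (comp a i.succ))) := by
      ext i j
      rw [Matrix.of_apply, RingHom.mapMatrix_apply, Matrix.map_apply, Matrix.of_apply,
        eval_zero_pderiv, coeff_comp hd1]
      exact (ha (i.succ, ex hd1 j) (fun h => Fin.succ_ne_zero _ h.1)).symm
    rw [h2, ← RingHom.map_det] at h1
    exact h1
  refine ⟨a, s, { u := u
                  hu := PadicInt.isUnit_iff.2 hu1
                  g := comp a 0
                  H := fun i => comp a i.succ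
                  hdet := PadicInt.isUnit_iff.2 hdet }, rfl, rfl, fun i => rfl, ha, hΦx,
    fun x hx => ?_⟩
  have hesc := esc_iterate _hd hΦ.toPre hx
  choose t y ht hy using fun n => Esc.exists_chart (hesc n)
  have hne : ∀ n, (pm Φ)^[n] x 0 ≠ 0 := fun n => Esc.ne_zero (hesc n)
  have hden : ∀ n, ‖u + p * eval (Fin.cons (t n) (y n)) (comp a 0)‖ = 1 := fun n =>
    norm_unit_add hu1 (p_mul_lt _)
  have hdne : ∀ n, ((u + p * eval (Fin.cons (t n) (y n)) (comp a 0) : ℤ_[p]) : ℚ_[p]) ≠ 0 := by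
    intro n h0
    have h1 := hden n
    have h2 : ‖((u + p * eval (Fin.cons (t n) (y n)) (comp a 0) : ℤ_[p]) : ℚ_[p])‖ = 1 := h1
    rw [h0, norm_zero] at h2
    exact zero_ne_one h2
  have hstep := fun n => step_chart hΦx (u := u) rfl (hne n) (ht n) (hy n)
  have hst : ∀ n, (u + p * eval (Fin.cons (t n) (y n)) (comp a 0)) * t (n + 1) = p * t n ^ d := by
    intro n
    apply Subtype.coe_injective
    change (((u + p * eval (Fin.cons (t n) (y n)) (comp a 0)) * t (n + 1) : ℤ_[p]) : ℚ_[p]) =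
      ((p * t n ^ d : ℤ_[p]) : ℚ_[p])
    rw [PadicInt.coe_mul, ht (n + 1), Function.iterate_succ_apply', (hstep n).1, PadicInt.coe_mul,
      PadicInt.coe_pow, PadicInt.coe_natCast, ht n, inv_pow]
    have h1 := hdne n
    have h2 := hne n
    field_simp
  have hsy : ∀ n i, (u + p * eval (Fin.cons (t n) (y n)) (comp a 0)) * y (n + 1) i =
      p * eval (Fin.cons (t n) (y n)) (comp a i.succ) := by
    intro n i
    apply Subtype.coe_injective
    change (((u + p * eval (Fin.cons (t n) (y n)) (comp a 0)) * y (n + 1) i : ℤ_[p]) : ℚ_[p]) =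
      ((p * eval (Fin.cons (t n) (y n)) (comp a i.succ) : ℤ_[p]) : ℚ_[p])
    rw [PadicInt.coe_mul, hy (n + 1), Function.iterate_succ_apply', (hstep n).1, (hstep n).2,
      PadicInt.coe_mul, PadicInt.coe_natCast]
    have h1 := hdne n
    have h2 := hne n
    field_simp
  refine ⟨fun n => t (n + 1), fun n => y (n + 1), ?_, fun n => ⟨ht (n + 1), hy (n + 1)⟩⟩
  exact
    { t0 := fun n h0 => by
        have h1 := ht (n + 1)
        rw [h0, PadicInt.coe_zero] at h1
        exact inv_ne_zero (hne (n + 1)) h1.symm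
      tp := fun n => by
        rw [← PadicInt.norm_lt_one_iff_dvd]
        have h1 : ‖t (n + 1)‖ = ‖((pm Φ)^[n + 1] x 0)⁻¹‖ := by
          rw [← ht (n + 1)]
          rfl
        rw [h1, norm_inv]
        exact inv_lt_one_of_one_lt₀ (hp1.trans_le (hesc (n + 1)).1)
      yp := fun n i => by
        rw [← PadicInt.norm_lt_one_iff_dvd, norm_of_unit_mul (hden n), hsy n i]
        exact p_mul_lt _
      tn := fun n => hst (n + 1)
      yn := fun n i => hsy (n + 1) i }

/-- evaluation in the chart, over a field -/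
theorem eval_chartF {F : Type*} [Field F] (G : MvPolynomial (Fin (m + 1)) F) {D : ℕ}
    (hD : G.totalDegree ≤ D) {x : Fin (m + 1) → F} (hx : x 0 ≠ 0) :
    eval x G = x 0 ^ D * eval (Fin.cons (x 0)⁻¹ (fun j : Fin m => x j.succ / x 0))
      (hz G.support id (fun s => coeff s G) D) := by
  rw [eval_hz, eval_eq', Finset.mul_sum]
  refine Finset.sum_congr rfl fun s hs => ?_
  have h0 : s.degree ≤ D := (le_totalDegree hs).trans hD
  rw [Fin.prod_univ_succ, id]
  have h2 : ∏ j : Fin m, x j.succ ^ s j.succ =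
      x 0 ^ (∑ j : Fin m, s j.succ) * ∏ j : Fin m, (x j.succ / x 0) ^ s j.succ := by
    rw [← Finset.prod_pow_eq_pow_sum, ← Finset.prod_mul_distrib]
    refine Finset.prod_congr rfl fun j _ => ?_
    rw [← mul_pow, mul_div_cancel₀ _ hx]
  rw [h2]
  have h3 : x 0 ^ D * ((x 0)⁻¹) ^ (D - s.degree) = x 0 ^ s.degree := by
    obtain ⟨k, hk⟩ := Nat.exists_eq_add_of_le h0
    rw [hk, Nat.add_sub_cancel_left, pow_add, mul_assoc, ← mul_pow, mul_inv_cancel₀ hx, one_pow,
      mul_one]
  have h4 : x 0 ^ s.degree = x 0 ^ s 0 * x 0 ^ (∑ j : Fin m, s j.succ) := by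
    rw [← pow_add, ← degree_succ]
  calc coeff s G * (x 0 ^ s 0 * (x 0 ^ (∑ j : Fin m, s j.succ) *
        ∏ j : Fin m, (x j.succ / x 0) ^ s j.succ))
      = coeff s G * (x 0 ^ s.degree * ∏ j : Fin m, (x j.succ / x 0) ^ s j.succ) := by
        rw [h4]
        ring
    _ = _ := by
        rw [← h3]
        ring

/-- the chart at infinity -/
theorem eval_hz_zero {F : Type*} [Field F] (G : MvPolynomial (Fin (m + 1)) F) {D : ℕ}
    (hD : G.totalDegree ≤ D) (z : Fin m → F) :
    eval (Fin.cons 0 z) (hz G.support id (fun s => coeff s G) D) =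
      eval (Fin.cons 1 z) (homogeneousComponent D G) := by
  classical
  rw [eval_hz, homogeneousComponent_apply, map_sum, Finset.sum_filter]
  refine Finset.sum_congr rfl fun s hs => ?_
  have h0 : s.degree ≤ D := (le_totalDegree hs).trans hD
  by_cases h : s.degree = D
  · rw [if_pos h, eval_monomial, Finsupp.prod_fintype _ _ (by simp), Fin.prod_univ_succ, id, h,
      Nat.sub_self, pow_zero, one_mul, Fin.cons_zero, one_pow, one_mul]
    simp only [Fin.cons_succ]
  · rw [if_neg h, id, zero_pow (by omega), zero_mul, mul_zero]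

/-- **The limit point.** -/
theorem exists_limit (hd : 2 ≤ d) {Φ : Fin (m + 1) → MvPolynomial (Fin (m + 1)) ℚ_[p]}
    (hΦ : Good p m d Φ) :
    ∃ z : Fin m → ℚ_[p], Fix (fun a : Idx m d => coeff a.2.1 (Φ a.1)) (Fin.cons 1 z) ∧
      ∀ x, Esc x → ∀ G : MvPolynomial (Fin (m + 1)) ℚ_[p],
        eval (Fin.cons 1 z) (homogeneousComponent G.totalDegree G) ≠ 0 →
        {n | eval ((pm Φ)^[n] x) G = 0}.Finite := by
  classical
  have hp0 : (p : ℚ_[p]) ≠ 0 := by exact_mod_cast hp.out.ne_zero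
  have hp1 : (1 : ℝ) < p := by exact_mod_cast hp.out.one_lt
  obtain ⟨a, s, Z, hu, hg, hH, ha, hΦx, horb⟩ := chartE hd hΦ
  obtain ⟨z, hzf⟩ := exists_fix Z
  refine ⟨fun i => (z i : ℚ_[p]), ?_, ?_⟩
  · -- the fixed point
    set c : Idx m d → ℚ_[p] := fun k => coeff k.2.1 (Φ k.1) with hc
    set X : Fin (m + 1) → ℚ_[p] := Fin.cons 1 (fun i => (z i : ℚ_[p])) with hX
    have hX0 : X 0 = 1 := rfl
    -- the special coefficient
    have hsp : c (kB m d 0) = ((a (kB m d 0) : ℤ_[p]) : ℚ_[p]) + s := by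
      have h1 := hΦx (fun _ => 1) 0
      simp only [one_pow, Finset.prod_const_one, mul_one, if_true] at h1
      have h2 : pm Φ (fun _ => 1) 0 =
          ∑ e : {s : Fin (m + 1) →₀ ℕ // s.degree ≤ d}, c (0, e) := by
        have h3 := Pool.Agent.Helper26.MQ.arrPoly_coeff (d := d) Φ (fun i e he =>
          Pool.Agent.Helper87.MQ.coeff_eq_zero_of_gt _ d (hΦ.deg i) e he)
        rw [pm, ← h3, Pool.Agent.Helper26.MQ.arrPoly, map_sum]
        refine Finset.sum_congr rfl fun e _ => ?_
        rw [eval_monomial]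
        simp [hc]
      rw [h2] at h1
      have h4 : ∑ e : {s : Fin (m + 1) →₀ ℕ // s.degree ≤ d},
          (c (0, e) - ((a (0, e) : ℤ_[p]) : ℚ_[p])) = s := by
        rw [Finset.sum_sub_distrib, h1, add_sub_cancel_left]
      rw [Finset.sum_eq_single (⟨Finsupp.single 0 d, by simp⟩ :
        {s : Fin (m + 1) →₀ ℕ // s.degree ≤ d})] at h4
      · rw [← h4]
        exact (add_sub_cancel _ _).symm
      · intro e _ he
        rw [ha (0, e) (fun h => he (Subtype.ext h.2)), sub_self]
      · simp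
    -- the values of the forms
    have hval : ∀ i, tfR c X i = ((eval (Fin.cons 0 z) (comp a i) : ℤ_[p]) : ℚ_[p]) +
        if i = 0 then s else 0 := by
      intro i
      have h1 : ((eval (Fin.cons 0 z) (comp a i) : ℤ_[p]) : ℚ_[p]) =
          tfR (fun k => ((a k : ℤ_[p]) : ℚ_[p])) X i := by
        rw [comp, eval_hz, PadicInt.coe_sum, tfR]
        refine Finset.sum_congr rfl fun e _ => ?_
        by_cases he : e.1.degree = d
        · rw [if_pos he, he, Nat.sub_self, pow_zero, one_mul, PadicInt.coe_mul,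
            Fin.prod_univ_succ, hX0, one_pow, one_mul]
          congr 1
          have h := map_prod (PadicInt.Coe.ringHom (p := p))
            (fun j : Fin m => z j ^ e.1 j.succ) Finset.univ
          simp only [map_pow] at h
          exact h
        · have := e.2
          rw [if_neg he, zero_pow (by omega), zero_mul, mul_zero, PadicInt.coe_zero]
      rw [h1, tfR_split c X 0 i, tfR_split (fun k => ((a k : ℤ_[p]) : ℚ_[p])) X 0 i, hX0, one_pow,
        mul_one, mul_one, hsp]
      have h2 : (fun k => if k = kB m d 0 then 0 else c k) =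
          fun k => if k = kB m d 0 then 0 else ((a k : ℤ_[p]) : ℚ_[p]) := by
        funext k
        by_cases hk : k = kB m d 0
        · rw [if_pos hk, if_pos hk]
        · rw [if_neg hk, if_neg hk, ha k (fun h => hk (Prod.ext h.1 (Subtype.ext h.2)))]
      rw [h2]
      by_cases hi : i = 0
      · rw [if_pos hi, if_pos hi, if_pos hi]
        ring
      · rw [if_neg hi, if_neg hi, if_neg hi, add_zero, add_zero]
    refine ⟨fun h0 => ?_, tfR c X 0, fun i => ?_⟩
    · have h1 := congrFun h0 0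
      rw [hX0, Pi.zero_apply] at h1
      exact one_ne_zero h1
    · rw [tf_eq]
      refine Fin.cases ?_ (fun i => ?_) i
      · rw [hX0, mul_one]
      · rw [hval 0, hval i.succ, if_pos rfl, if_neg (Fin.succ_ne_zero i), add_zero]
        have h1 := hzf.eq i
        rw [Sys.D, hg, hH] at h1
        have h2 : (((Z.u + p * eval (Fin.cons 0 z) (comp a 0)) * z i : ℤ_[p]) : ℚ_[p]) =
            ((p * eval (Fin.cons 0 z) (comp a i.succ) : ℤ_[p]) : ℚ_[p]) := by rw [h1]
        rw [PadicInt.coe_mul, PadicInt.coe_mul, PadicInt.coe_add, PadicInt.coe_mul, hu,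
          PadicInt.coe_natCast] at h2
        have h3 : X i.succ = (z i : ℚ_[p]) := rfl
        rw [h3]
        apply mul_left_cancel₀ hp0
        rw [← h2]
        ring
  · intro x hx G hG
    obtain ⟨t, y, ho, hty⟩ := horb x hx
    have hyz := (sys_curve hd Z hzf ho).1
    set D := G.totalDegree with hD
    set H := hz G.support id (fun s => coeff s G) D with hHdef
    have hlim : Tendsto (fun n => (Fin.cons (t n : ℚ_[p]) (fun i => (y n i : ℚ_[p])) :
        Fin (m + 1) → ℚ_[p])) atTop (𝓝 (Fin.cons 0 (fun i => (z i : ℚ_[p])))) := by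
      have hgeo : Tendsto (fun n : ℕ => ((p : ℝ)⁻¹) ^ n) atTop (𝓝 0) :=
        tendsto_pow_atTop_nhds_zero_of_lt_one (by positivity) (inv_lt_one_of_one_lt₀ hp1)
      have hnorm : ∀ (n : ℕ) (w : ℤ_[p]), (p : ℤ_[p]) ^ n ∣ w → ‖w‖ ≤ ((p : ℝ)⁻¹) ^ n := by
        intro n w hw
        obtain ⟨v, rfl⟩ := hw
        rw [norm_mul, norm_pow, PadicInt.norm_p]
        calc _ ≤ ((p : ℝ)⁻¹) ^ n * 1 :=
              mul_le_mul_of_nonneg_left (PadicInt.norm_le_one v) (by positivity)
          _ = _ := mul_one _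
      rw [tendsto_pi_nhds]
      intro j
      refine Fin.cases ?_ (fun i => ?_) j
      · simp only [Fin.cons_zero]
        rw [tendsto_zero_iff_norm_tendsto_zero]
        refine squeeze_zero (fun n => norm_nonneg _) (fun n => ?_) hgeo
        refine hnorm n (t n) ?_
        exact (pow_dvd_pow _ (Nat.lt_two_pow_self).le).trans (ho.t_growth hd n)
      · simp only [Fin.cons_succ]
        rw [tendsto_iff_norm_sub_tendsto_zero]
        refine squeeze_zero (fun n => norm_nonneg _) (fun n => ?_) hgeo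
        have h1 := hnorm n (y n i - z i) ((pow_dvd_pow _ (Nat.le_succ n)).trans (hyz n i))
        rw [← PadicInt.coe_sub]
        exact h1
    have hcont := (MvPolynomial.continuous_eval H).tendsto (Fin.cons 0 (fun i => (z i : ℚ_[p])))
    have h1 := hcont.comp hlim
    rw [eval_hz_zero G le_rfl] at h1
    have h2 := h1.eventually_ne hG
    rw [eventually_atTop] at h2
    obtain ⟨n₀, hn₀⟩ := h2
    refine (Finset.range (n₀ + 1)).finite_toSet.subset fun n hn => ?_
    by_contra hcon
    rw [Finset.mem_coe, Finset.mem_range] at hcon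
    obtain ⟨l, rfl⟩ : ∃ l, n = l + 1 := ⟨n - 1, by omega⟩
    apply hn₀ l (by omega)
    have hne : (pm Φ)^[l + 1] x 0 ≠ 0 := by
      intro h0
      have h3 := (hty l).1
      rw [h0, inv_zero] at h3
      exact ho.t0 l (Subtype.coe_injective h3)
    have h3 := eval_chartF G le_rfl hne
    rw [show eval ((pm Φ)^[l + 1] x) G = 0 from hn] at h3
    have h4 := (mul_eq_zero.1 h3.symm).resolve_left (pow_ne_zero _ hne)
    rw [← (hty l).1] at h4
    have h5 : (fun j : Fin m => (pm Φ)^[l + 1] x j.succ / (pm Φ)^[l + 1] x 0) =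
        fun i => (y l i : ℚ_[p]) := funext fun i => ((hty l).2 i).symm
    rw [h5] at h4
    exact h4

end Pool.Agent.Helper86.MQ
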