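import Mathlib
import Pool.Agent.Helper86.MQ.Sys

/-!
# Expansions of the orbits of the local system
-/

set_option autoImplicit false

namespace Pool.Agent.Helper86.MQ

open MvPolynomial Pool.Agent.Helper86.DML

variable {p : ℕ} [hp : Fact p.Prime] {m d : ℕ}

/-! ### The fixed point -/

/-- the attracting point in the hyperplane at infinity -/
structure IsFix (Z : Sys p m) (z : Fin m → ℤ_[p]) : Prop where
  zp : ∀ i, (p : ℤ_[p]) ∣ z i
  eq : ∀ i, Z.D (Fin.cons 0 z) * z i = p * eval (Fin.cons 0 z) (Z.H i)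

lemma D_congr (Z : Sys p m) {q : ℤ_[p]} {a b : Fin (m + 1) → ℤ_[p]} (h : ∀ i, q ∣ a i - b i) :
    (p : ℤ_[p]) * q ∣ Z.D a - Z.D b := by
  simp only [Sys.D, add_sub_add_left_eq_sub, ← mul_sub]
  exact mul_dvd_mul_left _ (eval_congr_mod h _)

theorem exists_fix (Z : Sys p m) : ∃ z, IsFix Z z := by
  choose e he using fun v : Fin (m + 1) → ℤ_[p] => (Z.isUnit_D v).exists_right_inv
  let T : (Fin m → ℤ_[p]) → (Fin m → ℤ_[p]) := fun z i =>
    p * (eval (Fin.cons 0 z) (Z.H i) * e (Fin.cons 0 z))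
  have hT : ∀ (k : ℕ) (x y : Fin m → ℤ_[p]), (∀ i, (p : ℤ_[p]) ^ k ∣ x i - y i) →
      ∀ i, (p : ℤ_[p]) ^ (k + 1) ∣ T x i - T y i := by
    intro k x y h i
    have h0 : ∀ j, (p : ℤ_[p]) ^ k ∣ (Fin.cons 0 x : Fin (m + 1) → ℤ_[p]) j -
        (Fin.cons 0 y : Fin (m + 1) → ℤ_[p]) j := cons_congr (by simp) h
    have h1 : (p : ℤ_[p]) ^ k ∣ Z.D (Fin.cons 0 x) - Z.D (Fin.cons 0 y) :=
      (dvd_mul_left _ _).trans (D_congr Z h0)
    have h2 : (p : ℤ_[p]) ^ k ∣ e (Fin.cons 0 x) - e (Fin.cons 0 y) := by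
      have h3 := he (Fin.cons 0 x)
      have h4 := he (Fin.cons 0 y)
      have e1 : e (Fin.cons 0 x) - e (Fin.cons 0 y) =
          -((Z.D (Fin.cons 0 x) - Z.D (Fin.cons 0 y)) * (e (Fin.cons 0 x) * e (Fin.cons 0 y))) := by
        linear_combination (e (Fin.cons 0 y)) * h3 - e (Fin.cons 0 x) * h4
      rw [e1]
      exact (dvd_neg).mpr (Dvd.dvd.mul_right h1 _)
    have h3 : (p : ℤ_[p]) ^ k ∣ eval (Fin.cons 0 x) (Z.H i) - eval (Fin.cons 0 y) (Z.H i) :=
      eval_congr_mod h0 _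
    have e2 : T x i - T y i = p * ((eval (Fin.cons 0 x) (Z.H i) - eval (Fin.cons 0 y) (Z.H i)) *
        e (Fin.cons 0 x) + eval (Fin.cons 0 y) (Z.H i) * (e (Fin.cons 0 x) - e (Fin.cons 0 y))) := by
      simp only [T]
      ring
    rw [e2, pow_succ']
    exact mul_dvd_mul_left _ (dvd_add (Dvd.dvd.mul_right h3 _) (Dvd.dvd.mul_left h2 _))
  obtain ⟨z, hz, -⟩ := fixpt T hT
  refine ⟨z, fun i => ?_, fun i => ?_⟩
  · have := congrFun hz i
    rw [← this]
    exact dvd_mul_right _ _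
  · have h1 := congrFun hz i
    simp only [T] at h1
    have h2 := he (Fin.cons 0 z)
    linear_combination -(Z.D (Fin.cons 0 z)) * h1 + (p : ℤ_[p]) * eval (Fin.cons 0 z) (Z.H i) * h2

/-- two orbits in the hyperplane approach each other -/
lemma Orb0.step {Z : Sys p m} {β γ β' γ' : Fin m → ℤ_[p]} {q : ℤ_[p]}
    (hβ : ∀ i, Z.D (Fin.cons 0 β) * β' i = p * eval (Fin.cons 0 β) (Z.H i))
    (hγ : ∀ i, Z.D (Fin.cons 0 γ) * γ' i = p * eval (Fin.cons 0 γ) (Z.H i))
    (h : ∀ i, q ∣ β i - γ i) (i : Fin m) : (p : ℤ_[p]) * q ∣ β' i - γ' i := by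
  have h0 : ∀ j, q ∣ (Fin.cons 0 β : Fin (m + 1) → ℤ_[p]) j -
      (Fin.cons 0 γ : Fin (m + 1) → ℤ_[p]) j := cons_congr (by simp) h
  have h1 := D_congr Z h0
  have h2 : q ∣ eval (Fin.cons 0 β) (Z.H i) - eval (Fin.cons 0 γ) (Z.H i) := eval_congr_mod h0 _
  have h3 : (p : ℤ_[p]) * q ∣ Z.D (Fin.cons 0 β) * (β' i - γ' i) := by
    have e : Z.D (Fin.cons 0 β) * (β' i - γ' i) =
        p * (eval (Fin.cons 0 β) (Z.H i) - eval (Fin.cons 0 γ) (Z.H i)) -
          (Z.D (Fin.cons 0 β) - Z.D (Fin.cons 0 γ)) * γ' i := by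
      linear_combination hβ i - hγ i
    rw [e]
    exact dvd_sub (mul_dvd_mul_left _ h2) (Dvd.dvd.mul_right h1 _)
  exact ((Z.isUnit_D _).dvd_mul_left).mp h3

lemma Orb0.dvd_sub_fix {Z : Sys p m} {β : ℕ → Fin m → ℤ_[p]} (ho : Orb0 Z β) {z : Fin m → ℤ_[p]}
    (hz : IsFix Z z) (n : ℕ) (i : Fin m) : sc p n ∣ β n i - z i := by
  induction n generalizing i with
  | zero =>
    simp only [sc, zero_add, pow_one]
    exact dvd_sub (ho.yp 0 i) (hz.zp i)
  | succ n ih =>
    have := Orb0.step (ho.yn n) hz.eq ih i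
    simp only [sc] at this ⊢
    rw [← pow_succ'] at this
    exact this

/-! ### Solving the linear recurrence -/

lemma sc_ne (n : ℕ) : sc p n ≠ 0 := pow_ne_zero _ p_ne_zero

lemma sc_succ (n : ℕ) : sc p (n + 1) = p * sc p n := by simp only [sc, pow_succ']

lemma sc_dvd (n : ℕ) : sc p n ∣ sc p (n + 1) := by
  rw [sc_succ]
  exact dvd_mul_left _ _

lemma sh_sc_mem {A : Subalgebra ℤ_[p] (ℕ → ℤ_[p])} {J : ℕ} : sh (sc p) ∈ ExJ A (sc p) J := by
  have e : sh (sc p) = algebraMap ℤ_[p] (ℕ → ℤ_[p]) p * sc p := by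
    funext n
    simp only [sh, sc_succ]
    rfl
  rw [e]
  exact mul_mem (Subalgebra.algebraMap_mem _ _) self_mem_ExJ

lemma exists_z {M : ℕ} (B : Matrix (Fin m) (Fin m) ℤ_[p]) (hB : IsUnit B.det) (q : ℤ_[p])
    (hq : (p : ℤ_[p]) ∣ q) (h : Fin m → ℕ → ℤ_[p]) (hh : ∀ i, h i ∈ AnM p M) :
    ∃ z : Fin m → ℕ → ℤ_[p], (∀ i, z i ∈ AnM p M) ∧
      ∀ n i, B.mulVec (fun k => z k n) i = q * z i (n + 1) - h i n := by
  have hBB : B * B⁻¹ = 1 := Matrix.mul_nonsing_inv B hB
  let T : (Fin m × ℕ → ℤ_[p]) → (Fin m × ℕ → ℤ_[p]) := fun z w =>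
    B⁻¹.mulVec (fun k => q * z (k, w.2 + 1) - h k w.2) w.1
  have hT : ∀ (k : ℕ) (x y : Fin m × ℕ → ℤ_[p]), (∀ i, (p : ℤ_[p]) ^ k ∣ x i - y i) →
      ∀ i, (p : ℤ_[p]) ^ (k + 1) ∣ T x i - T y i := by
    rintro k x y hxy ⟨i, n⟩
    simp only [T, Matrix.mulVec, dotProduct]
    rw [← Finset.sum_sub_distrib]
    refine Finset.dvd_sum fun j _ => ?_
    rw [← mul_sub]
    refine Dvd.dvd.mul_left ?_ _
    have e : q * x (j, n + 1) - h j n - (q * y (j, n + 1) - h j n) =
        q * (x (j, n + 1) - y (j, n + 1)) := by ring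
    rw [e, pow_succ']
    exact mul_dvd_mul hq (hxy _)
  obtain ⟨z, hz, happ⟩ := fixpt T hT
  refine ⟨fun i n => z (i, n), fun i => ?_, fun n i => ?_⟩
  · have hiter : ∀ k i, (fun n => T^[k] 0 (i, n)) ∈ AnM p M := by
      intro k
      induction k with
      | zero =>
        intro i
        exact zero_mem _
      | succ k ih =>
        intro i
        have e : (fun n => T^[k + 1] 0 (i, n)) = ∑ j, algebraMap ℤ_[p] (ℕ → ℤ_[p]) (B⁻¹ i j) *
            (algebraMap ℤ_[p] (ℕ → ℤ_[p]) q * sh (fun n => T^[k] 0 (j, n)) - h j) := by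
          funext n
          rw [Function.iterate_succ_apply']
          simp only [T, Matrix.mulVec, dotProduct, Finset.sum_apply, Pi.mul_apply, Pi.sub_apply]
          rfl
        rw [e]
        exact sum_mem fun j _ => mul_mem (Subalgebra.algebraMap_mem _ _)
          (sub_mem (mul_mem (Subalgebra.algebraMap_mem _ _) (sh_AnM (ih j))) (hh j))
    exact AnM_of_approx fun K => ⟨_, hiter K i, fun n => happ K (i, n)⟩
  · have h1 : (fun k => z (k, n)) = B⁻¹.mulVec (fun k => q * z (k, n + 1) - h k n) := by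
      funext k
      have := congrFun hz (k, n)
      simp only [T] at this
      exact this.symm
    rw [h1, Matrix.mulVec_mulVec, hBB, Matrix.one_mulVec]

/-- one more order for the solution of a linear recurrence -/
theorem solve {M : ℕ} (B : Matrix (Fin m) (Fin m) ℤ_[p]) (hB : IsUnit B.det)
    (hM : ∃ C, B ^ M = 1 + (p : ℤ_[p]) • C) (v r : Fin m → ℕ → ℤ_[p])
    (hv : ∀ n i, v i (n + 1) = B.mulVec (fun k => v k n) i + sc p n * r i n) {J : ℕ}
    (hr : ∀ i, r i ∈ ExJ (AnM p M) (sc p) J) : ∀ i, v i ∈ ExJ (AnM p M) (sc p) (J + 1) := by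
  classical
  choose P hP using hr
  have hz := fun j : ℕ => exists_z (M := M) B hB ((p : ℤ_[p]) ^ (j + 1)) (dvd_pow_self _ (by omega))
    (fun i => ((P i).coeff j : ℕ → ℤ_[p])) (fun i => ((P i).coeff j).2)
  choose z hz1 hz2 using hz
  set w : ℕ → Fin m → ℤ_[p] := fun n i => v i n - ∑ j ∈ Finset.range J, sc p n ^ (j + 1) * z j i n
    with hw
  set ε : ℕ → Fin m → ℤ_[p] := fun n i => sc p n * r i n -
    ∑ j ∈ Finset.range J, sc p n ^ (j + 1) * ((P i).coeff j : ℕ → ℤ_[p]) n with hε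
  have hstep : ∀ n, w (n + 1) = B.mulVec (w n) + ε n := by
    intro n
    funext i
    have h1 : B.mulVec (w n) i = B.mulVec (fun k => v k n) i -
        ∑ j ∈ Finset.range J, sc p n ^ (j + 1) *
          ((p : ℤ_[p]) ^ (j + 1) * z j i (n + 1) - ((P i).coeff j : ℕ → ℤ_[p]) n) := by
      have e1 : w n = (fun k => v k n) - ∑ j ∈ Finset.range J, sc p n ^ (j + 1) • fun k => z j k n := by
        funext k
        simp only [hw, Pi.sub_apply, Finset.sum_apply, Pi.smul_apply, smul_eq_mul]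
      rw [e1, Matrix.mulVec_sub, Pi.sub_apply, Matrix.mulVec_sum, Finset.sum_apply]
      congr 1
      refine Finset.sum_congr rfl fun j _ => ?_
      rw [Matrix.mulVec_smul, Pi.smul_apply, smul_eq_mul, hz2]
    rw [Pi.add_apply, h1]
    simp only [hw, hε, hv, sc_succ]
    have e2 : ∀ j, ((p : ℤ_[p]) * sc p n) ^ (j + 1) * z j i (n + 1) =
        sc p n ^ (j + 1) * ((p : ℤ_[p]) ^ (j + 1) * z j i (n + 1) - ((P i).coeff j : ℕ → ℤ_[p]) n) +
          sc p n ^ (j + 1) * ((P i).coeff j : ℕ → ℤ_[p]) n := by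
      intro j
      rw [mul_pow]
      ring
    rw [Finset.sum_congr rfl fun j _ => e2 j, Finset.sum_add_distrib]
    ring
  have hεd : ∀ n i, (p : ℤ_[p]) ^ ((n + 1) * (J + 1)) ∣ ε n i := by
    intro n i
    have h1 : ε n i = sc p n * (r i n - ∑ j ∈ Finset.range J, sc p n ^ j *
        ((P i).coeff j : ℕ → ℤ_[p]) n) := by
      simp only [hε]
      rw [mul_sub, Finset.mul_sum]
      congr 1
      refine Finset.sum_congr rfl fun j _ => ?_
      ring
    have h2 : sc p n ^ J ∣ r i n - ∑ j ∈ Finset.range J, sc p n ^ j *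
        ((P i).coeff j : ℕ → ℤ_[p]) n := by
      have h3 := hP i n
      have h4 : (Polynomial.aeval (sc p) (P i) : ℕ → ℤ_[p]) n =
          ∑ j ∈ Finset.range (max J ((P i).natDegree + 1)), sc p n ^ j *
            ((P i).coeff j : ℕ → ℤ_[p]) n := by
        rw [Polynomial.aeval_eq_sum_range' (n := max J ((P i).natDegree + 1))
          (lt_of_lt_of_le (Nat.lt_succ_self _) (le_max_right _ _)), Finset.sum_apply]
        refine Finset.sum_congr rfl fun j _ => ?_
        have e : (P i).coeff j • sc p ^ j = ((P i).coeff j : ℕ → ℤ_[p]) * sc p ^ j := rfl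
        rw [e, Pi.mul_apply, Pi.pow_apply, mul_comm]
      have h5 : sc p n ^ J ∣ (Polynomial.aeval (sc p) (P i) : ℕ → ℤ_[p]) n -
          ∑ j ∈ Finset.range J, sc p n ^ j * ((P i).coeff j : ℕ → ℤ_[p]) n := by
        rw [h4, ← Finset.sum_range_add_sum_Ico _ (le_max_left J ((P i).natDegree + 1)),
          add_sub_cancel_left]
        refine Finset.dvd_sum fun j hj => ?_
        rw [Finset.mem_Ico] at hj
        exact Dvd.dvd.mul_right (pow_dvd_pow _ hj.1) _
      have h6 := dvd_add h3 h5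
      simpa using h6
    rw [h1]
    have e : (p : ℤ_[p]) ^ ((n + 1) * (J + 1)) = sc p n * sc p n ^ J := by
      rw [← pow_succ']
      simp only [sc, ← pow_mul]
    rw [e]
    exact mul_dvd_mul_left _ h2
  obtain ⟨W, hW⟩ := lin_limit hB w ε (fun n => (n + 1) * (J + 1))
    (fun a b hab => Nat.mul_le_mul_right _ (by omega)) (fun n => Nat.le_mul_of_pos_right _ (by omega))
    hstep hεd
  intro i
  have h1 : v i = ((∑ k, (fun n => (B ^ n) i k) * algebraMap ℤ_[p] (ℕ → ℤ_[p]) (W k)) +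
      ∑ j ∈ Finset.range J, sc p ^ (j + 1) * z j i) +
      fun n => w n i - (B ^ n).mulVec W i := by
    funext n
    simp only [hw, Pi.add_apply, Finset.sum_apply, Pi.mul_apply, Pi.pow_apply, Matrix.mulVec,
      dotProduct]
    have e : ∑ k, (B ^ n) i k * (algebraMap ℤ_[p] (ℕ → ℤ_[p]) (W k)) n = ∑ k, (B ^ n) i k * W k := rfl
    rw [e]
    ring
  rw [h1]
  refine add_mem (add_mem (sum_mem fun k _ => mul_mem (mem_ExJ_of_mem (matrix_pow_mem hM i k))
    (Subalgebra.algebraMap_mem _ _)) (sum_mem fun j _ => mul_mem (pow_mem self_mem_ExJ _)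
    (mem_ExJ_of_mem (hz1 j i)))) (mem_ExJ_of_dvd fun n => ?_)
  have h2 := hW n i
  have e : (p : ℤ_[p]) ^ ((n + 1) * (J + 1)) = sc p n ^ (J + 1) := by
    simp only [sc, ← pow_mul]
  rw [← e]
  exact h2

/-! ### Orbits in the hyperplane -/

lemma aeval_seq {ι : Type*} (b : ι → ℕ → ℤ_[p]) (f : MvPolynomial ι ℤ_[p]) (n : ℕ) :
    (aeval b f : ℕ → ℤ_[p]) n = eval (fun i => b i n) f := by
  induction f using MvPolynomial.induction_on with
  | C a => rw [aeval_C, eval_C]; rfl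
  | add f g hf hg => rw [map_add, map_add, Pi.add_apply, hf, hg]
  | mul_X f j hf => rw [map_mul, map_mul, aeval_X, eval_X, Pi.mul_apply, hf]

/-- the sequence of points with constant first coordinate -/
lemma cons_seq (a : ℕ → ℤ_[p]) (b : Fin m → ℕ → ℤ_[p]) (n : ℕ) :
    (fun k => (Fin.cons a b : Fin (m + 1) → ℕ → ℤ_[p]) k n) = Fin.cons (a n) (fun i => b i n) := by
  funext k
  refine Fin.cases ?_ (fun i => ?_) k
  · rfl
  · rfl

/-- expansions of orbits in the hyperplane -/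
theorem orb0_mem {M : ℕ}
    (hM : ∀ B : Matrix (Fin m) (Fin m) ℤ_[p], IsUnit B.det → ∃ C, B ^ M = 1 + (p : ℤ_[p]) • C)
    {Z : Sys p m} {β : ℕ → Fin m → ℤ_[p]} (ho : Orb0 Z β) (i : Fin m) :
    (fun n => β n i) ∈ Ex (AnM p M) (sc p) := by
  classical
  obtain ⟨z, hz⟩ := exists_fix Z
  choose v hv using fun (i : Fin m) (n : ℕ) => ho.dvd_sub_fix hz n i
  obtain ⟨e, he⟩ := (Z.isUnit_D (Fin.cons 0 z)).exists_right_inv
  -- the linear part
  set B : Matrix (Fin m) (Fin m) ℤ_[p] := Matrix.of fun i j =>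
    e * (eval (Fin.cons 0 z) (pderiv j.succ (Z.H i)) - z i * eval (Fin.cons 0 z) (pderiv j.succ Z.g))
    with hBdef
  have hB : IsUnit B.det := by
    have h1 : (p : ℤ_[p]) ∣ B.det - (Matrix.of fun i j : Fin m =>
        e * eval 0 (pderiv j.succ (Z.H i))).det := by
      apply det_congr
      intro i j
      simp only [hBdef, Matrix.of_apply]
      have h2 : (p : ℤ_[p]) ∣ eval (Fin.cons 0 z) (pderiv j.succ (Z.H i)) -
          eval 0 (pderiv j.succ (Z.H i)) := by
        apply eval_congr_mod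
        intro k
        refine Fin.cases ?_ (fun i => ?_) k
        · simp
        · simpa using hz.zp i
      have e1 : e * (eval (Fin.cons 0 z) (pderiv j.succ (Z.H i)) -
          z i * eval (Fin.cons 0 z) (pderiv j.succ Z.g)) - e * eval 0 (pderiv j.succ (Z.H i)) =
          e * (eval (Fin.cons 0 z) (pderiv j.succ (Z.H i)) - eval 0 (pderiv j.succ (Z.H i))) -
          z i * (e * eval (Fin.cons 0 z) (pderiv j.succ Z.g)) := by ring
      rw [e1]
      exact dvd_sub (Dvd.dvd.mul_left h2 _) (Dvd.dvd.mul_right (hz.zp i) _)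
    refine isUnit_of_dvd_sub ?_ h1
    have e2 : (Matrix.of fun i j : Fin m => e * eval 0 (pderiv j.succ (Z.H i))) =
        e • (Matrix.of fun i j : Fin m => eval 0 (pderiv j.succ (Z.H i))) := by
      ext i j
      simp
    rw [e2, Matrix.det_smul]
    exact (IsUnit.pow _ (IsUnit.of_mul_eq_one _ (by rw [mul_comm]; exact he))).mul Z.hdet
  -- all orders
  have key : ∀ J, ∀ i, v i ∈ ExJ (AnM p M) (sc p) J := by
    intro J
    induction J with
    | zero => exact fun i => mem_ExJ_zero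
    | succ J ih =>
      have hbase : ∀ k, (Fin.cons (0 : ℕ → ℤ_[p]) (fun i => algebraMap ℤ_[p] (ℕ → ℤ_[p]) (z i)) :
          Fin (m + 1) → ℕ → ℤ_[p]) k ∈ ExJ (AnM p M) (sc p) J := by
        intro k
        refine Fin.cases ?_ (fun i => ?_) k
        · exact zero_mem _
        · exact Subalgebra.algebraMap_mem _ _
      have hdir : ∀ k, (Fin.cons (0 : ℕ → ℤ_[p]) v : Fin (m + 1) → ℕ → ℤ_[p]) k ∈
          ExJ (AnM p M) (sc p) J := by
        intro k
        refine Fin.cases ?_ (fun i => ?_) k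
        · exact zero_mem _
        · exact ih i
      have htay := fun f => taylor_mem (R := ℤ_[p]) (ExJ (AnM p M) (sc p) J) hbase hdir
        self_mem_ExJ f
      choose ρ hρ1 hρ2 using htay
      -- the expansion at time `n`
      have hρ3 : ∀ f n, eval (Fin.cons 0 (β n)) f = eval (Fin.cons 0 z) f +
          sc p n * ∑ j, v j n * eval (Fin.cons 0 z) (pderiv j.succ f) + sc p n ^ 2 * ρ f n := by
        intro f n
        have h1 := congrFun (hρ2 f) n
        rw [aeval_seq] at h1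
        have e1 : (fun k => ((Fin.cons (0 : ℕ → ℤ_[p]) (fun i => algebraMap ℤ_[p] (ℕ → ℤ_[p]) (z i)) :
          Fin (m + 1) → ℕ → ℤ_[p]) k + sc p * (Fin.cons (0 : ℕ → ℤ_[p]) v : Fin (m + 1) → ℕ → ℤ_[p]) k) n) =
          Fin.cons 0 (β n) := by
          funext k
          refine Fin.cases ?_ (fun i => ?_) k
          · simp
          · simp only [Fin.cons_succ, Pi.add_apply, Pi.mul_apply]
            have := hv i n
            have e : (algebraMap ℤ_[p] (ℕ → ℤ_[p]) (z i)) n = z i := rfl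
            rw [e]
            linear_combination -this
        rw [e1] at h1
        have e2 : (aeval (Fin.cons (0 : ℕ → ℤ_[p]) (fun i => algebraMap ℤ_[p] (ℕ → ℤ_[p]) (z i)) :
          Fin (m + 1) → ℕ → ℤ_[p]) f : ℕ → ℤ_[p]) n = eval (Fin.cons 0 z) f := by
          rw [aeval_seq, cons_seq]
          rfl
        rw [h1, Pi.add_apply, Pi.add_apply, Pi.mul_apply, Pi.mul_apply, Pi.pow_apply, e2,
          Finset.sum_apply, Fin.sum_univ_succ]
        simp only [Fin.cons_zero, zero_mul, Pi.zero_apply, zero_add, Fin.cons_succ, Pi.mul_apply,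
          aeval_seq, cons_seq]
        rfl
      -- the remainder in the linear recurrence
      let g₁ : ℕ → ℤ_[p] := (∑ j, v j * algebraMap ℤ_[p] (ℕ → ℤ_[p])
        (eval (Fin.cons 0 z) (pderiv j.succ Z.g))) + sc p * ρ Z.g
      have hg₁ : g₁ ∈ ExJ (AnM p M) (sc p) J :=
        add_mem (sum_mem fun j _ => mul_mem (ih j) (Subalgebra.algebraMap_mem _ _))
          (mul_mem self_mem_ExJ (hρ1 _))
      let r : Fin m → ℕ → ℤ_[p] := fun i => algebraMap ℤ_[p] (ℕ → ℤ_[p]) e *
        (ρ (Z.H i) - algebraMap ℤ_[p] (ℕ → ℤ_[p]) (z i) * ρ Z.g -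
          algebraMap ℤ_[p] (ℕ → ℤ_[p]) p * g₁ * sh (v i))
      have hr : ∀ i, r i ∈ ExJ (AnM p M) (sc p) J := by
        intro i
        refine mul_mem (Subalgebra.algebraMap_mem _ _) (sub_mem (sub_mem (hρ1 _)
          (mul_mem (Subalgebra.algebraMap_mem _ _) (hρ1 _)))
          (mul_mem (mul_mem (Subalgebra.algebraMap_mem _ _) hg₁) ?_))
        exact sh_ExJ (fun a ha => sh_AnM ha) sh_sc_mem (fun n => sc_dvd n) (ih i)
      refine solve B hB (hM B hB) v r (fun n i => ?_) hr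
      -- verification of the recurrence
      have h1 := hρ3 (Z.H i) n
      have h2 := hρ3 Z.g n
      have h3 := ho.yn n i
      have h4 := hz.eq i
      have h5 := hv i (n + 1)
      rw [sc_succ] at h5
      have hne : (p : ℤ_[p]) * sc p n ≠ 0 := mul_ne_zero p_ne_zero (sc_ne n)
      have hg₁n : g₁ n = ∑ j, v j n * eval (Fin.cons 0 z) (pderiv j.succ Z.g) + sc p n * ρ Z.g n := by
        simp only [g₁, Pi.add_apply, Finset.sum_apply, Pi.mul_apply]
        rfl
      have hrn : r i n = e * (ρ (Z.H i) n - z i * ρ Z.g n - p * g₁ n * v i (n + 1)) := rfl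
      have hBn : B.mulVec (fun k => v k n) i =
          e * (∑ j, v j n * eval (Fin.cons 0 z) (pderiv j.succ (Z.H i)) -
            z i * ∑ j, v j n * eval (Fin.cons 0 z) (pderiv j.succ Z.g)) := by
        simp only [hBdef, Matrix.mulVec, dotProduct, Matrix.of_apply]
        rw [Finset.mul_sum, ← Finset.sum_sub_distrib, Finset.mul_sum]
        refine Finset.sum_congr rfl fun j _ => ?_
        ring
      rw [hBn, hrn]
      set S₁ := ∑ j, v j n * eval (Fin.cons 0 z) (pderiv j.succ (Z.H i))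
      set S₂ := ∑ j, v j n * eval (Fin.cons 0 z) (pderiv j.succ Z.g)
      have h6 : Z.D (Fin.cons 0 (β n)) = Z.D (Fin.cons 0 z) + p * sc p n * g₁ n := by
        simp only [Sys.D]
        rw [h2, hg₁n]
        ring
      -- `D (z) v' = S₁ - z S₂ + sc (ρ - z ρ - p g₁ v')`
      have h7 : (p : ℤ_[p]) * sc p n * (Z.D (Fin.cons 0 z) * v i (n + 1)) = (p : ℤ_[p]) * sc p n *
          (S₁ - z i * S₂ + sc p n * (ρ (Z.H i) n - z i * ρ Z.g n - p * g₁ n * v i (n + 1))) := by
        have h8 : β (n + 1) i = z i + p * sc p n * v i (n + 1) := by linear_combination h5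
        rw [h8, h6, h1] at h3
        linear_combination h3 - h4 - z i * (p : ℤ_[p]) * sc p n * hg₁n
      have h8 := mul_left_cancel₀ hne h7
      linear_combination (-v i (n + 1)) * he + e * h8
  have hfin : (fun n => β n i) = algebraMap ℤ_[p] (ℕ → ℤ_[p]) (z i) + sc p * v i := by
    funext n
    have := hv i n
    have e : (algebraMap ℤ_[p] (ℕ → ℤ_[p]) (z i) + sc p * v i) n = z i + sc p n * v i n := rfl
    rw [e]
    linear_combination this
  rw [hfin]
  exact add_mem (Subalgebra.algebraMap_mem _ _) (mul_mem self_mem_Ex (mem_Ex.mpr fun J => key J i))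

end Pool.Agent.Helper86.MQ
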