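import Mathlib
import Pool.Agent.Helper86.MQ.Mem

/-!
# Expansions of the orbits of the local system, in powers of `t`
-/

set_option autoImplicit false

namespace Pool.Agent.Helper86.MQ

open MvPolynomial Pool.Agent.Helper86.DML

variable {p : ℕ} [hp : Fact p.Prime] {m d : ℕ}

lemma aeval_mem' {ι : Type*} (B : Subalgebra ℤ_[p] (ℕ → ℤ_[p])) {b : ι → ℕ → ℤ_[p]}
    (hb : ∀ i, b i ∈ B) (g : MvPolynomial ι ℤ_[p]) : aeval b g ∈ B := by
  induction g using MvPolynomial.induction_on with
  | C a =>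
    rw [MvPolynomial.aeval_C]
    exact B.algebraMap_mem a
  | add g g' hg hg' =>
    rw [map_add]
    exact add_mem hg hg'
  | mul_X g j hg =>
    rw [map_mul, MvPolynomial.aeval_X]
    exact mul_mem hg (hb j)

lemma Orb.unit_of_dvd {Z : Sys p m} {t : ℕ → ℤ_[p]} {y : ℕ → Fin m → ℤ_[p]} (ho : Orb Z d t y)
    (n : ℕ) (x : ℤ_[p]) (h : t n ∣ x - 1) : IsUnit x :=
  isUnit_of_dvd_sub_one ((ho.tp n).trans h)

/-- expansions in powers of `t` -/
theorem orb_mem (hd : 2 ≤ d) {Z : Sys p m} {t : ℕ → ℤ_[p]} {y : ℕ → Fin m → ℤ_[p]}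
    (ho : Orb Z d t y) {β : ℕ → Fin m → ℤ_[p]} (hβ : Orb0 Z β)
    (hyβ : ∀ n i, t n ∣ y n i - β n i) (C : Subalgebra ℤ_[p] (ℕ → ℤ_[p])) (hC : InvCl C)
    (hCs : ∀ a ∈ C, sh a ∈ C) (hCβ : ∀ i, (fun n => β n i) ∈ C) (i : Fin m) :
    (fun n => y n i) ∈ Ex C t := by
  classical
  choose ζ hζ using fun (i : Fin m) (n : ℕ) => hyβ n i
  choose e he using fun n => (Z.isUnit_D (Fin.cons (t n) (y n))).exists_right_inv
  have ht1 : ∀ n, t (n + 1) = p * t n ^ d * e n := by
    intro n
    linear_combination (-t (n + 1)) * he n + e n * ho.tn n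
  have htd : ∀ n, t n ∣ t (n + 1) := by
    intro n
    rw [ht1]
    exact Dvd.dvd.mul_right (Dvd.dvd.mul_left (dvd_pow_self _ (by omega)) _) _
  -- the base point
  let b : Fin (m + 1) → ℕ → ℤ_[p] := Fin.cons 0 fun i n => β n i
  have hbC : ∀ k, b k ∈ C := by
    intro k
    refine Fin.cases ?_ (fun i => ?_) k
    · exact zero_mem _
    · exact hCβ i
  have hbn : ∀ n, (fun k => b k n) = Fin.cons 0 (β n) := by
    intro n
    simp only [b]
    rw [cons_seq]
    rfl
  have hbev : ∀ f n, (aeval b f : ℕ → ℤ_[p]) n = eval (Fin.cons 0 (β n)) f := by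
    intro f n
    rw [aeval_seq, hbn]
  -- the matrix
  let Amat : Matrix (Fin m) (Fin m) C := Matrix.of fun i j =>
    ⟨aeval b (pderiv j.succ (Z.H i)) - sh (fun n => β n i) * aeval b (pderiv j.succ Z.g),
      sub_mem (aeval_mem' C hbC _) (mul_mem (hCs _ (hCβ i)) (aeval_mem' C hbC _))⟩
  have hdetn : ∀ n, IsUnit ((Amat.det : ℕ → ℤ_[p]) n) := by
    intro n
    let φ : C →+* ℤ_[p] := (Pi.evalRingHom (fun _ => ℤ_[p]) n).comp C.val.toRingHom
    have h1 : (Amat.det : ℕ → ℤ_[p]) n = (φ.mapMatrix Amat).det := by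
      rw [← RingHom.map_det]
      rfl
    rw [h1]
    refine isUnit_of_dvd_sub Z.hdet (det_congr fun i j => ?_)
    have h2 : (φ.mapMatrix Amat) i j = eval (Fin.cons 0 (β n)) (pderiv j.succ (Z.H i)) -
        β (n + 1) i * eval (Fin.cons 0 (β n)) (pderiv j.succ Z.g) := by
      change (aeval b (pderiv j.succ (Z.H i)) - sh (fun n => β n i) * aeval b (pderiv j.succ Z.g)) n = _
      rw [Pi.sub_apply, Pi.mul_apply, hbev, hbev]
      rfl
    rw [h2, Matrix.of_apply, sub_right_comm]
    refine dvd_sub ?_ (Dvd.dvd.mul_right (hβ.yp _ _) _)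
    apply eval_congr_mod
    intro k
    refine Fin.cases ?_ (fun i => ?_) k
    · simp
    · simpa using hβ.yp n i
  have hdet : IsUnit Amat.det := by
    choose δ hδ using fun n => (hdetn n).exists_right_inv
    have h1 : (Amat.det : ℕ → ℤ_[p]) * δ = 1 := funext hδ
    have h2 : δ ∈ C := hC _ Amat.det.2 δ h1
    exact IsUnit.of_mul_eq_one ⟨δ, h2⟩ (Subtype.ext h1)
  have hinv : Amat⁻¹ * Amat = 1 := Matrix.nonsing_inv_mul Amat hdet
  -- all orders
  have key : ∀ J, ∀ i, ζ i ∈ ExJ C t J := by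
    intro J
    induction J with
    | zero => exact fun i => mem_ExJ_zero
    | succ J ih =>
      have hbase : ∀ k, b k ∈ ExJ C t J := fun k => mem_ExJ_of_mem (hbC k)
      have hdir : ∀ k, (Fin.cons (1 : ℕ → ℤ_[p]) ζ : Fin (m + 1) → ℕ → ℤ_[p]) k ∈ ExJ C t J := by
        intro k
        refine Fin.cases ?_ (fun i => ?_) k
        · exact one_mem _
        · exact ih i
      have htay := fun f => taylor_mem (R := ℤ_[p]) (ExJ C t J) hbase hdir self_mem_ExJ f
      choose ρ hρ1 hρ2 using htay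
      have hpt : ∀ n, (fun k => (b k + t * (Fin.cons (1 : ℕ → ℤ_[p]) ζ : Fin (m + 1) → ℕ → ℤ_[p]) k) n) =
          Fin.cons (t n) (y n) := by
        intro n
        funext k
        refine Fin.cases ?_ (fun i => ?_) k
        · simp [b]
        · simp only [b, Fin.cons_succ, Pi.add_apply, Pi.mul_apply]
          have := hζ i n
          linear_combination -this
      -- the expansion at time `n`
      have hρ3 : ∀ f n, eval (Fin.cons (t n) (y n)) f = eval (Fin.cons 0 (β n)) f +
          t n * (eval (Fin.cons 0 (β n)) (pderiv 0 f) +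
            ∑ j, ζ j n * eval (Fin.cons 0 (β n)) (pderiv j.succ f)) + t n ^ 2 * ρ f n := by
        intro f n
        have h1 := congrFun (hρ2 f) n
        rw [aeval_seq, hpt] at h1
        rw [h1, Pi.add_apply, Pi.add_apply, Pi.mul_apply, Pi.mul_apply, Pi.pow_apply, hbev,
          Finset.sum_apply, Fin.sum_univ_succ]
        simp only [Fin.cons_zero, Fin.cons_succ, Pi.mul_apply, Pi.one_apply, one_mul, hbev]
      let g₁ : ℕ → ℤ_[p] := aeval b (pderiv 0 Z.g) + (∑ j, ζ j * aeval b (pderiv j.succ Z.g)) +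
        t * ρ Z.g
      have hg₁n : ∀ n, g₁ n = eval (Fin.cons 0 (β n)) (pderiv 0 Z.g) +
          (∑ j, ζ j n * eval (Fin.cons 0 (β n)) (pderiv j.succ Z.g)) + t n * ρ Z.g n := by
        intro n
        simp only [g₁, Pi.add_apply, Finset.sum_apply, Pi.mul_apply, hbev]
      -- the denominator and the shift of `t`
      have hDm : (fun n => Z.D (Fin.cons (t n) (y n))) ∈ ExJ C t J := by
        have e1 : (fun n => Z.D (Fin.cons (t n) (y n))) = algebraMap ℤ_[p] (ℕ → ℤ_[p]) Z.u +
            algebraMap ℤ_[p] (ℕ → ℤ_[p]) p * aeval (fun k => b k + t *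
              (Fin.cons (1 : ℕ → ℤ_[p]) ζ : Fin (m + 1) → ℕ → ℤ_[p]) k) Z.g := by
          funext n
          rw [Pi.add_apply, Pi.mul_apply, aeval_seq, hpt]
          rfl
        rw [e1]
        exact add_mem (Subalgebra.algebraMap_mem _ _) (mul_mem (Subalgebra.algebraMap_mem _ _)
          (aeval_mem' _ (fun k => add_mem (hbase k) (mul_mem self_mem_ExJ (hdir k))) _))
      have hem : e ∈ ExJ C t J := hC.ExJ ho.unit_of_dvd _ hDm e (funext he)
      have hsht : sh t ∈ ExJ C t J := by
        have e1 : sh t = algebraMap ℤ_[p] (ℕ → ℤ_[p]) p * t ^ d * e := by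
          funext n
          simp only [sh, ht1, Pi.mul_apply, Pi.pow_apply]
          rfl
        rw [e1]
        exact mul_mem (mul_mem (Subalgebra.algebraMap_mem _ _) (pow_mem self_mem_ExJ _)) hem
      have hshζ : ∀ i, sh (ζ i) ∈ ExJ C t J := fun i => sh_ExJ hCs hsht htd (ih i)
      -- the right hand side
      let c : Fin m → ℕ → ℤ_[p] := fun i =>
        t * (t ^ (d - 2) * sh (ζ i) - ρ (Z.H i) + sh (fun n => β n i) * ρ Z.g) +
        (sh (fun n => β n i) * aeval b (pderiv 0 Z.g) - aeval b (pderiv 0 (Z.H i)))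
      have hc : ∀ i, c i ∈ ExJ C t (J + 1) := by
        intro i
        refine add_mem (mul_mem_ExJ_succ (add_mem (sub_mem (mul_mem (pow_mem self_mem_ExJ _) (hshζ i))
          (hρ1 _)) (mul_mem (mem_ExJ_of_mem (hCs _ (hCβ i))) (hρ1 _)))) (sub_mem
          (mul_mem (mem_ExJ_of_mem (hCs _ (hCβ i))) (mem_ExJ_of_mem (aeval_mem' C hbC _)))
          (mem_ExJ_of_mem (aeval_mem' C hbC _)))
      have hAz : (Amat.map C.val).mulVec ζ = c := by
        funext i n
        have h1 := hρ3 (Z.H i) n
        have h2 := hρ3 Z.g n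
        have h3 := ho.yn n i
        have h4 := hβ.yn n i
        have h5 := hζ i (n + 1)
        have h6 := ho.tn n
        have h7 := hg₁n n
        have hL : (Amat.map C.val).mulVec ζ i n =
            (∑ j, ζ j n * eval (Fin.cons 0 (β n)) (pderiv j.succ (Z.H i))) -
            β (n + 1) i * ∑ j, ζ j n * eval (Fin.cons 0 (β n)) (pderiv j.succ Z.g) := by
          simp only [Matrix.mulVec, dotProduct, Finset.sum_apply, Pi.mul_apply]
          rw [Finset.mul_sum, ← Finset.sum_sub_distrib]
          refine Finset.sum_congr rfl fun j _ => ?_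
          have h2 : (Amat.map C.val) i j n = eval (Fin.cons 0 (β n)) (pderiv j.succ (Z.H i)) -
              β (n + 1) i * eval (Fin.cons 0 (β n)) (pderiv j.succ Z.g) := by
            change (aeval b (pderiv j.succ (Z.H i)) - sh (fun n => β n i) * aeval b (pderiv j.succ Z.g)) n = _
            rw [Pi.sub_apply, Pi.mul_apply, hbev, hbev]
            rfl
          rw [h2]
          ring
        have hR : c i n = t n * (t n ^ (d - 2) * ζ i (n + 1) - ρ (Z.H i) n + β (n + 1) i * ρ Z.g n) +
            (β (n + 1) i * eval (Fin.cons 0 (β n)) (pderiv 0 Z.g) -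
              eval (Fin.cons 0 (β n)) (pderiv 0 (Z.H i))) := by
          simp only [c, Pi.add_apply, Pi.sub_apply, Pi.mul_apply, Pi.pow_apply, sh, hbev]
        rw [hL, hR]
        set S₁ := ∑ j, ζ j n * eval (Fin.cons 0 (β n)) (pderiv j.succ (Z.H i))
        set S₂ := ∑ j, ζ j n * eval (Fin.cons 0 (β n)) (pderiv j.succ Z.g)
        set a₁ := eval (Fin.cons 0 (β n)) (pderiv 0 (Z.H i))
        set a₂ := eval (Fin.cons 0 (β n)) (pderiv 0 Z.g)
        have h8 : Z.D (Fin.cons (t n) (y n)) = Z.D (Fin.cons 0 (β n)) + p * t n * g₁ n := by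
          simp only [Sys.D]
          rw [h2, h7]
          ring
        have h9 : t n ^ d = t n * (t n * t n ^ (d - 2)) := by
          rw [← pow_succ', ← pow_succ']
          congr 1
          omega
        have hne : (p : ℤ_[p]) * t n ≠ 0 := mul_ne_zero p_ne_zero (ho.t0 n)
        apply mul_left_cancel₀ hne
        have h10 : y (n + 1) i = β (n + 1) i + t (n + 1) * ζ i (n + 1) := by linear_combination h5
        -- `D(t,y) y' - D(0,β) β' = p (H(t,y) - H(0,β))`
        have h11 : Z.D (Fin.cons (t n) (y n)) * t (n + 1) * ζ i (n + 1) + p * t n * g₁ n * β (n + 1) i =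
            p * (t n * (a₁ + S₁) + t n ^ 2 * ρ (Z.H i) n) := by
          rw [h10, h1] at h3
          linear_combination h3 - h4 - β (n + 1) i * h8
        rw [h6, h9, h7] at h11
        linear_combination -h11
      intro i
      have h1 : ζ = ((Amat⁻¹).map C.val).mulVec c := by
        rw [← hAz, Matrix.mulVec_mulVec]
        have h2 : (Amat⁻¹).map C.val * Amat.map C.val = 1 := by
          have h3 := congrArg (fun X : Matrix (Fin m) (Fin m) C => X.map C.val) hinv
          simp only [Matrix.map_mul] at h3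
          rw [h3]
          ext i j
          by_cases h : i = j
          · subst h
            simp
          · simp [Matrix.one_apply_ne h]
        rw [h2, Matrix.one_mulVec]
      rw [h1]
      have h2 : ((Amat⁻¹).map C.val).mulVec c i = ∑ j, (Amat⁻¹ i j : ℕ → ℤ_[p]) * c j := rfl
      rw [h2]
      exact sum_mem fun j _ => mul_mem (mem_ExJ_of_mem (Amat⁻¹ i j).2) (hc j)
  have hfin : (fun n => y n i) = (fun n => β n i) + t * ζ i := by
    funext n
    have := hζ i n
    rw [Pi.add_apply, Pi.mul_apply]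
    linear_combination this
  rw [hfin]
  exact add_mem (mem_Ex_of_mem (hCβ i)) (mul_mem self_mem_Ex (mem_Ex.mpr fun J => key J i))

end Pool.Agent.Helper86.MQ
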