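import Mathlib
import Pool.Agent.Helper86.MQ.Mem2

/-!
# The local theorems in the coordinates `t = 1 / x₀`, `y_j = x_j / x₀`
-/

set_option autoImplicit false

namespace Pool.Agent.Helper86.MQ

open MvPolynomial Pool.Agent.Helper86.DML Filter Topology

variable {p : ℕ} [hp : Fact p.Prime] {m d : ℕ}

lemma Orb.t_growth (hd : 2 ≤ d) {Z : Sys p m} {t : ℕ → ℤ_[p]} {y : ℕ → Fin m → ℤ_[p]}
    (ho : Orb Z d t y) (n : ℕ) : (p : ℤ_[p]) ^ (2 ^ n) ∣ t n := by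
  induction n with
  | zero => simpa using ho.tp 0
  | succ n ih =>
    have h1 : (p : ℤ_[p]) ^ (2 ^ (n + 1)) ∣ t n ^ d := by
      have h2 := pow_dvd_pow_of_dvd ih d
      rw [← pow_mul] at h2
      refine (pow_dvd_pow _ ?_).trans h2
      rw [pow_succ]
      exact Nat.mul_le_mul_left _ hd
    have h3 : (p : ℤ_[p]) ^ (2 ^ (n + 1)) ∣ Z.D (Fin.cons (t n) (y n)) * t (n + 1) := by
      rw [ho.tn]
      exact Dvd.dvd.mul_left h1 _
    exact ((Z.isUnit_D _).dvd_mul_left).mp h3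

lemma exists_two_pow (J c : ℕ) : ∃ n₀, ∀ n ≥ n₀, (n + c) * J ≤ 2 ^ n := by
  refine ⟨2 * (J + c + 3), fun n hn => ?_⟩
  -- `(n + c) J ≤ n ^ 2 ≤ 2 ^ n`
  have h1 : (n + c) * J ≤ n ^ 2 := by
    have : J + c + 3 ≤ n := by omega
    nlinarith
  have h2 : n ^ 2 ≤ 2 ^ n := by
    have h3 : 4 ≤ n := by omega
    clear hn h1
    induction n, h3 using Nat.le_induction with
    | base => norm_num
    | succ n hn ih =>
      rw [pow_succ 2 n]
      nlinarith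
  exact h1.trans h2

lemma dvd_sc_H {s : ℕ → ℤ_[p]} (hs : ∀ n, (p : ℤ_[p]) ∣ s n) (n : ℕ) (x : ℤ_[p])
    (h : ∀ J : ℕ, s n ^ J ∣ x) : x = 0 :=
  padic_sep x fun J => (pow_dvd_pow_of_dvd (hs n) J).trans (h J)

lemma mem_Ex_point {C : Subalgebra ℤ_[p] (ℕ → ℤ_[p])} {t : ℕ → ℤ_[p]} {y : ℕ → Fin m → ℤ_[p]}
    (h : ∀ i, (fun n => y n i) ∈ Ex C t) (F : MvPolynomial (Fin (m + 1)) ℤ_[p]) :
    (fun n => eval (Fin.cons (t n) (y n)) F) ∈ Ex C t := by
  have e : (fun n => eval (Fin.cons (t n) (y n)) F) =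
      aeval (Fin.cons t (fun i n => y n i) : Fin (m + 1) → ℕ → ℤ_[p]) F := by
    funext n
    rw [aeval_seq, cons_seq]
  rw [e]
  refine aeval_mem' _ (fun k => ?_) F
  refine Fin.cases ?_ (fun i => ?_) k
  · exact self_mem_Ex
  · exact h i

/-- **Local theorem**, all dimensions. -/
theorem sys_all (hp3 : 3 ≤ p) (hd : 2 ≤ d) {M : ℕ} (hM1 : 1 ≤ M)
    (hM : ∀ B : Matrix (Fin m) (Fin m) ℤ_[p], IsUnit B.det → ∃ C, B ^ M = 1 + (p : ℤ_[p]) • C)
    {Z : Sys p m} {t : ℕ → ℤ_[p]} {y : ℕ → Fin m → ℤ_[p]} (ho : Orb Z d t y)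
    (F : MvPolynomial (Fin (m + 1)) ℤ_[p]) (r : ℕ) :
    (∀ n, eval (Fin.cons (t (r + M * n)) (y (r + M * n))) F = 0) ∨
      SSp {n | eval (Fin.cons (t (r + M * n)) (y (r + M * n))) F = 0} := by
  classical
  obtain ⟨β, hβ, hyβ⟩ := shadow hd ho
  have hscu : ∀ (n : ℕ) (x : ℤ_[p]), sc p n ∣ x - 1 → IsUnit x := fun n x h =>
    isUnit_of_dvd_sub_one ((dvd_pow_self _ (by omega)).trans h)
  have hy : ∀ i, (fun n => y n i) ∈ Ex (Ex (AnM p M) (sc p)) t := by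
    intro i
    refine orb_mem hd ho hβ hyβ _ ((InvCl_AnM M).Ex hscu) (fun a ha => ?_) (fun i => orb0_mem hM hβ i) i
    rw [mem_Ex] at ha ⊢
    exact fun J => sh_ExJ (fun a ha => sh_AnM ha) sh_sc_mem (fun n => sc_dvd n) (ha J)
  have ha := mem_Ex_point hy F
  -- restriction to the class
  let φ : ℕ → ℕ := fun n => r + M * n
  have ha' : reix φ (fun n => eval (Fin.cons (t n) (y n)) F) ∈
      Ex (Ex (AnM p 1) (reix φ (sc p))) (reix φ t) :=
    reix_Ex φ (fun c hc => reix_Ex φ (fun a ha => reix_AnM ha) hc) ha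
  set a : ℕ → ℤ_[p] := reix φ (fun n => eval (Fin.cons (t n) (y n)) F) with hadef
  set s : ℕ → ℤ_[p] := reix φ (sc p) with hs
  set τ : ℕ → ℤ_[p] := reix φ t with hτ
  have hn : ∀ n, n ≤ r + M * n := fun n =>
    (Nat.le_mul_of_pos_left n hM1).trans (Nat.le_add_left _ _)
  have hs0 : ∀ n, s n ≠ 0 := fun n => sc_ne _
  have hsp : ∀ n, (p : ℤ_[p]) ∣ s n := fun n => dvd_pow_self _ (by omega)
  have hscs : ∀ n, sc p n ∣ s n := by
    intro n
    have h1 : n + 1 ≤ r + M * n + 1 := by have := hn n; omega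
    exact pow_dvd_pow (p : ℤ_[p]) h1
  have hsepA : SepE (AnM p 1) s := by
    rintro b hb ⟨n₀, hn₀⟩
    exact sepE_AnM le_rfl b hb ⟨n₀, fun n h => (hscs n).trans (hn₀ n h)⟩
  have hgrow : ∀ J : ℕ, ∃ n₀, ∀ n ≥ n₀, s n ^ J ∣ τ n := by
    intro J
    obtain ⟨n₀, h⟩ := exists_two_pow J 1
    refine ⟨n₀, fun n hnn => ?_⟩
    have h1 := h (r + M * n) (hnn.trans (hn n))
    have h2 := ho.t_growth hd (r + M * n)
    refine Dvd.dvd.trans ?_ h2
    change ((p : ℤ_[p]) ^ (r + M * n + 1)) ^ J ∣ _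
    rw [← pow_mul]
    exact pow_dvd_pow _ h1
  have hsepC : SepE (Ex (AnM p 1) s) τ := hsepA.Ex hs0 (dvd_sc_H hsp) hgrow
  by_cases h0 : a = 0
  · left
    intro n
    exact congrFun h0 n
  right
  obtain ⟨J, b, hb, hb0, hab⟩ := Ex_dich hsepC (fun n => ho.t0 _) (dvd_sc_H fun n => ho.tp _) ha' h0
  obtain ⟨K, g, hg, hg0, hbg⟩ := Ex_dich hsepA hs0 (dvd_sc_H hsp) hb hb0
  obtain ⟨n₁, hn₁⟩ := hgrow (K + 1)
  have hg1 : ∃ n, g n ≠ 0 := by
    by_contra hcon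
    push Not at hcon
    exact hg0 (funext hcon)
  have h1 : SSp {n | (p : ℤ_[p]) ^ n ∣ g n} :=
    SSp_of_An hp3 (an_of_mem_one hg) hg1 (fun n hn => hn)
  have h2 : SSp {n | n < n₁} := SSp.of_bounded n₁ fun k hk => hk
  refine (h2.union h1).mono ?_
  intro n hna
  by_cases hlt : n < n₁
  · exact Or.inl hlt
  right
  push Not at hlt
  have h3 : a n = 0 := hna
  have h4 := hab n
  rw [h3, zero_sub, dvd_neg, pow_succ] at h4
  have h5 : τ n ∣ b n := (mul_dvd_mul_iff_left (pow_ne_zero _ (ho.t0 _))).mp h4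
  have h6 : s n ^ (K + 1) ∣ b n := (hn₁ n hlt).trans h5
  have h7 := dvd_sub h6 (hbg n)
  rw [sub_sub_cancel, pow_succ] at h7
  have h8 : s n ∣ g n := (mul_dvd_mul_iff_left (pow_ne_zero _ (hs0 n))).mp h7
  have h9 : (p : ℤ_[p]) ^ n ∣ sc p n := pow_dvd_pow _ (by omega)
  exact h9.trans ((hscs n).trans h8)

/-- constant sequences -/
lemma InvCl_bot : InvCl (⊥ : Subalgebra ℤ_[p] (ℕ → ℤ_[p])) := by
  intro a ha a' haa'
  obtain ⟨c, rfl⟩ := Algebra.mem_bot.mp ha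
  have h : ∀ n, c * a' n = 1 := fun n => congrFun haa' n
  refine Algebra.mem_bot.mpr ⟨a' 0, ?_⟩
  funext n
  have h1 := h n
  have h2 := h 0
  have e : (algebraMap ℤ_[p] (ℕ → ℤ_[p]) (a' 0)) n = a' 0 := rfl
  rw [e]
  linear_combination a' n * h2 - a' 0 * h1

lemma exists_not_dvd {c : ℤ_[p]} (hc : c ≠ 0) : ∃ K : ℕ, ¬ (p : ℤ_[p]) ^ K ∣ c := by
  by_contra hcon
  push Not at hcon
  exact hc (padic_sep c hcon)

/-- exactness when the shadow is the fixed point -/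
theorem sys_exact (hd : 2 ≤ d) {Z : Sys p m} {t : ℕ → ℤ_[p]} {y : ℕ → Fin m → ℤ_[p]}
    (ho : Orb Z d t y) {β : ℕ → Fin m → ℤ_[p]} (hβ : Orb0 Z β) (hyβ : ∀ n i, t n ∣ y n i - β n i)
    {z : Fin m → ℤ_[p]} (hz : ∀ n i, β n i = z i) (F : MvPolynomial (Fin (m + 1)) ℤ_[p]) :
    (∀ n, eval (Fin.cons (t n) (y n)) F = 0) ∨
      ∃ n₀, ∀ n ≥ n₀, eval (Fin.cons (t n) (y n)) F ≠ 0 := by
  have hy : ∀ i, (fun n => y n i) ∈ Ex (⊥ : Subalgebra ℤ_[p] (ℕ → ℤ_[p])) t := by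
    intro i
    refine orb_mem hd ho hβ hyβ _ InvCl_bot (fun a ha => ?_) (fun i => ?_) i
    · obtain ⟨c, rfl⟩ := Algebra.mem_bot.mp ha
      exact Algebra.mem_bot.mpr ⟨c, rfl⟩
    · refine Algebra.mem_bot.mpr ⟨z i, ?_⟩
      funext n
      rw [hz]
      rfl
  have ha := mem_Ex_point hy F
  have htn : ∀ n, (p : ℤ_[p]) ^ n ∣ t n := fun n =>
    (pow_dvd_pow _ Nat.lt_two_pow_self.le).trans (ho.t_growth hd n)
  have hsep : SepE (⊥ : Subalgebra ℤ_[p] (ℕ → ℤ_[p])) t := by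
    rintro b hb ⟨n₀, hn₀⟩
    obtain ⟨c, rfl⟩ := Algebra.mem_bot.mp hb
    by_contra hne
    have hc : c ≠ 0 := by
      rintro rfl
      exact hne (map_zero _)
    obtain ⟨K, hK⟩ := exists_not_dvd hc
    apply hK
    have h1 := hn₀ (n₀ + K) (Nat.le_add_right _ _)
    have h2 : t (n₀ + K) ∣ c := h1
    exact (pow_dvd_pow _ (Nat.le_add_left _ _)).trans ((htn _).trans h2)
  by_cases h0 : (fun n => eval (Fin.cons (t n) (y n)) F) = 0
  · left
    intro n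
    exact congrFun h0 n
  right
  obtain ⟨J, b, hb, hb0, hab⟩ := Ex_dich hsep ho.t0 (dvd_sc_H ho.tp) ha h0
  obtain ⟨c, rfl⟩ := Algebra.mem_bot.mp hb
  have hc : c ≠ 0 := by
    rintro rfl
    exact hb0 (map_zero _)
  obtain ⟨K, hK⟩ := exists_not_dvd hc
  refine ⟨K, fun n hn h3 => hK ?_⟩
  have h4 := hab n
  rw [h3, zero_sub, dvd_neg, pow_succ] at h4
  have h5 : t n ∣ (algebraMap ℤ_[p] (ℕ → ℤ_[p]) c) n :=
    (mul_dvd_mul_iff_left (pow_ne_zero _ (ho.t0 n))).mp h4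
  have h6 : t n ∣ c := h5
  exact (pow_dvd_pow _ hn).trans ((htn n).trans h6)

/-- the distance to the fixed point shrinks exactly by the factor `p` -/
lemma Orb0.exact_step {Z : Sys p m} {β : ℕ → Fin m → ℤ_[p]} (ho : Orb0 Z β) {z : Fin m → ℤ_[p]}
    (hz : IsFix Z z) {n j : ℕ} (hj : 1 ≤ j) (h : ∀ i, (p : ℤ_[p]) ^ j ∣ β n i - z i)
    (hn : ∃ i, ¬ (p : ℤ_[p]) ^ (j + 1) ∣ β n i - z i) :
    ∃ i, ¬ (p : ℤ_[p]) ^ (j + 2) ∣ β (n + 1) i - z i := by
  classical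
  by_contra hcon
  push Not at hcon
  choose v hv using h
  obtain ⟨i₀, hi₀⟩ := hn
  apply hi₀
  set q : ℤ_[p] := (p : ℤ_[p]) ^ j with hq
  have hpq : (p : ℤ_[p]) ∣ q := dvd_pow_self _ (by omega)
  -- Taylor expansion at the fixed point
  have htay : ∀ f : MvPolynomial (Fin (m + 1)) ℤ_[p], ∃ ρ, eval (Fin.cons 0 (β n)) f =
      eval (Fin.cons 0 z) f + q * (∑ j, v j * eval (Fin.cons 0 z) (pderiv j.succ f)) + q ^ 2 * ρ := by
    intro f
    obtain ⟨ρ, hρ⟩ := taylor_R (Fin.cons 0 z : Fin (m + 1) → ℤ_[p]) (Fin.cons 0 v) q f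
    refine ⟨ρ, ?_⟩
    have e1 : (fun k => (Fin.cons 0 z : Fin (m + 1) → ℤ_[p]) k + q * (Fin.cons 0 v : Fin (m + 1) → ℤ_[p]) k) =
        Fin.cons 0 (β n) := by
      funext k
      refine Fin.cases ?_ (fun i => ?_) k
      · simp
      · simp only [Fin.cons_succ]
        linear_combination -(hv i)
    rw [e1, Fin.sum_univ_succ] at hρ
    simpa using hρ
  choose ρ hρ using htay
  set A : Matrix (Fin m) (Fin m) ℤ_[p] := Matrix.of fun i j => eval 0 (pderiv j.succ (Z.H i))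
    with hA
  have hAv : ∀ i, (p : ℤ_[p]) ∣ A.mulVec v i := by
    intro i
    have h1 := hρ (Z.H i)
    have h2 := hρ Z.g
    have h3 := ho.yn n i
    have h4 := hz.eq i
    obtain ⟨w, hw⟩ := hcon i
    set S₁ := ∑ j, v j * eval (Fin.cons 0 z) (pderiv j.succ (Z.H i)) with hS₁
    set S₂ := ∑ j, v j * eval (Fin.cons 0 z) (pderiv j.succ Z.g)
    have h5 : Z.D (Fin.cons 0 (β n)) = Z.D (Fin.cons 0 z) + p * (q * S₂ + q ^ 2 * ρ Z.g) := by
      simp only [Sys.D]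
      rw [h2]
      ring
    have h6 : (p : ℤ_[p]) * q * (p * (Z.D (Fin.cons 0 (β n)) * w)) =
        (p : ℤ_[p]) * q * (S₁ + q * ρ (Z.H i) - z i * (S₂ + q * ρ Z.g)) := by
      have h7 : β (n + 1) i = z i + (p : ℤ_[p]) ^ (j + 2) * w := by linear_combination hw
      have h8 : (p : ℤ_[p]) ^ (j + 2) = q * p ^ 2 := by rw [hq, pow_add]
      have h9 : Z.D (Fin.cons 0 (β n)) * z i = Z.D (Fin.cons 0 z) * z i +
          p * (q * S₂ + q ^ 2 * ρ Z.g) * z i := by rw [h5, add_mul]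
      rw [h7, h8, h1, mul_add, h9] at h3
      linear_combination h3 - h4
    have h7 := mul_left_cancel₀ (mul_ne_zero p_ne_zero (pow_ne_zero _ p_ne_zero)) h6
    have h8 : (p : ℤ_[p]) ∣ S₁ := by
      have e : S₁ = p * (Z.D (Fin.cons 0 (β n)) * w) - q * ρ (Z.H i) + z i * (S₂ + q * ρ Z.g) := by
        linear_combination -h7
      rw [e]
      exact dvd_add (dvd_sub (dvd_mul_right _ _) (Dvd.dvd.mul_right hpq _))
        (Dvd.dvd.mul_right (hz.zp i) _)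
    have h9 : (p : ℤ_[p]) ∣ S₁ - A.mulVec v i := by
      simp only [hS₁, hA, Matrix.mulVec, dotProduct, Matrix.of_apply]
      rw [← Finset.sum_sub_distrib]
      refine Finset.dvd_sum fun j _ => ?_
      rw [mul_comm (eval 0 _), ← mul_sub]
      refine Dvd.dvd.mul_left ?_ _
      apply eval_congr_mod
      intro k
      refine Fin.cases ?_ (fun i => ?_) k
      · simp
      · simpa using hz.zp i
    have := dvd_sub h8 h9
    rwa [sub_sub_cancel] at this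
  have hAA : A⁻¹ * A = 1 := Matrix.nonsing_inv_mul A Z.hdet
  have h1 : (p : ℤ_[p]) ∣ v i₀ := by
    have h2 : v = A⁻¹.mulVec (A.mulVec v) := by rw [Matrix.mulVec_mulVec, hAA, Matrix.one_mulVec]
    rw [h2]
    rw [Matrix.mulVec, dotProduct]
    exact Finset.dvd_sum fun k _ => Dvd.dvd.mul_left (hAv k) _
  rw [hv i₀, pow_succ]
  exact mul_dvd_mul_left _ h1

/-- the alternative for the shadow -/
theorem shadow_alt {Z : Sys p m} {β : ℕ → Fin m → ℤ_[p]} (ho : Orb0 Z β) {z : Fin m → ℤ_[p]}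
    (hz : IsFix Z z) : (∀ n i, β n i = z i) ∨
      ∃ j, ∀ n, ∃ i, ¬ (p : ℤ_[p]) ^ (j + n + 1) ∣ β n i - z i := by
  classical
  by_cases h0 : ∀ i, β 0 i = z i
  · left
    intro n
    induction n with
    | zero => exact h0
    | succ n ih =>
      intro i
      have h1 := Orb0.step (q := 0) (ho.yn n) hz.eq (fun i => by rw [ih i]; simp) i
      rw [mul_zero, zero_dvd_iff] at h1
      exact sub_eq_zero.mp h1
  right
  have hex : ∃ K, ¬ ∀ i, (p : ℤ_[p]) ^ K ∣ β 0 i - z i := by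
    by_contra hcon
    push Not at hcon
    exact h0 fun i => sub_eq_zero.mp (padic_sep _ fun K => hcon K i)
  obtain ⟨j, hj⟩ : ∃ j, Nat.find hex = j + 1 := by
    refine Nat.exists_eq_succ_of_ne_zero fun h => ?_
    have := Nat.find_spec hex
    rw [h] at this
    exact this fun i => by simp
  have h1 : ¬ ∀ i, (p : ℤ_[p]) ^ (j + 1) ∣ β 0 i - z i := hj ▸ Nat.find_spec hex
  have h2 : ∀ i, (p : ℤ_[p]) ^ j ∣ β 0 i - z i := by
    have := Nat.find_min hex (m := j) (by omega)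
    push Not at this
    exact this
  have hj1 : 1 ≤ j := by
    by_contra hcon
    have hj0 : j = 0 := by omega
    apply h1
    intro i
    rw [hj0, zero_add, pow_one]
    exact dvd_sub (ho.yp 0 i) (hz.zp i)
  refine ⟨j, fun n => ?_⟩
  have key : ∀ n, (∀ i, (p : ℤ_[p]) ^ (j + n) ∣ β n i - z i) ∧
      ∃ i, ¬ (p : ℤ_[p]) ^ (j + n + 1) ∣ β n i - z i := by
    intro n
    induction n with
    | zero =>
      refine ⟨h2, ?_⟩
      push Not at h1
      exact h1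
    | succ n ih =>
      refine ⟨fun i => ?_, ?_⟩
      · have := Orb0.step (ho.yn n) hz.eq ih.1 i
        rw [← pow_succ'] at this
        exact this
      · exact ho.exact_step hz (show 1 ≤ j + n by omega) ih.1 ih.2
  exact (key n).2

/-- **Local theorem for curves** in the local coordinates. -/
theorem sys_curve (hd : 2 ≤ d) (Z : Sys p m) {z : Fin m → ℤ_[p]} (hz : IsFix Z z)
    {t : ℕ → ℤ_[p]} {y : ℕ → Fin m → ℤ_[p]} (ho : Orb Z d t y) :
    (∀ n i, (p : ℤ_[p]) ^ (n + 1) ∣ y n i - z i) ∧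
    ((∀ F : MvPolynomial (Fin (m + 1)) ℤ_[p], (∀ n, eval (Fin.cons (t n) (y n)) F = 0) ∨
        ∃ n₀, ∀ n ≥ n₀, eval (Fin.cons (t n) (y n)) F ≠ 0) ∨
      ∃ j n₀, ∀ n ≥ n₀, ∃ i, ¬ (p : ℤ_[p]) ^ (j + n + 1) ∣ y n i - z i) := by
  obtain ⟨β, hβ, hyβ⟩ := shadow hd ho
  have hty : ∀ n i (K : ℕ), K ≤ 2 ^ n → (p : ℤ_[p]) ^ K ∣ y n i - β n i := fun n i K hK =>
    ((pow_dvd_pow _ hK).trans (ho.t_growth hd n)).trans (hyβ n i)
  refine ⟨fun n i => ?_, ?_⟩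
  · have h1 := hty n i (n + 1) Nat.lt_two_pow_self
    have h2 := hβ.dvd_sub_fix hz n i
    have h3 := dvd_add h1 h2
    simpa using h3
  rcases shadow_alt hβ hz with h | ⟨j, h⟩
  · left
    exact fun F => sys_exact hd ho hβ hyβ h F
  · right
    obtain ⟨n₀, hn₀⟩ := exists_two_pow 1 (j + 1)
    refine ⟨j, n₀, fun n hn => ?_⟩
    obtain ⟨i, hi⟩ := h n
    refine ⟨i, fun hcon => hi ?_⟩
    have h1 := hty n i (j + n + 1) (by have := hn₀ n hn; omega)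
    have h2 := dvd_sub hcon h1
    have e : y n i - z i - (y n i - β n i) = β n i - z i := by ring
    rwa [e] at h2

end Pool.Agent.Helper86.MQ
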