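import Pool.Agent.Helper26.MQ.LocalCurve
import Pool.Agent.Helper86.MQ.SysMain

/-!
# The local theorem in all dimensions
-/

set_option autoImplicit false

namespace Pool.Agent.Helper86.MQ

open MvPolynomial Filter Topology
open Pool.Agent.Helper26.MQ (comp coeff_comp exists_lift' step_chart exists_integral esc_iterate
  norm_unit_add p_mul_lt eval_zero_pderiv Esc.ne_zero Esc.exists_chart)

variable {p : ℕ} [hp : Fact p.Prime] {m d : ℕ}

/-- the moduli which can be used for the prime `p` -/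
def Mod (p : ℕ) [Fact p.Prime] (m M : ℕ) : Prop :=
  1 ≤ M ∧ ∀ B : Matrix (Fin m) (Fin m) ℤ_[p], IsUnit B.det → ∃ C, B ^ M = 1 + (p : ℤ_[p]) • C

theorem exists_Mod (p : ℕ) [Fact p.Prime] (m : ℕ) : ∃ M, Mod p m M := exists_exponent p m

theorem Mod.of_dvd {M M' : ℕ} (h : Mod p m M) (h' : M ∣ M') (h1 : 1 ≤ M') : Mod p m M' := by
  refine ⟨h1, fun B hB => ?_⟩
  obtain ⟨k, rfl⟩ := h'
  obtain ⟨C, hC⟩ := h.2 B hB
  rw [pow_mul, hC]
  clear h1
  induction k with
  | zero => exact ⟨0, by simp⟩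
  | succ k ih =>
    obtain ⟨C', hC'⟩ := ih
    rw [pow_succ, hC']
    refine ⟨C' + C + (p : ℤ_[p]) • (C' * C), ?_⟩
    rw [add_mul, one_mul, mul_add, mul_one, smul_mul_smul_comm, smul_add, smul_add, smul_smul]
    abel

/-- **Local theorem, all dimensions**: one modulus `M` for `Φ`; in each class modulo `M` a
polynomial vanishes either on the whole orbit or at a super-sparse set of times. -/
theorem local_all (hp3 : 3 ≤ p) (hd : 2 ≤ d) {M : ℕ} (hMod : Mod p m M)
    {Φ : Fin (m + 1) → MvPolynomial (Fin (m + 1)) ℚ_[p]} (hΦ : Good p m d Φ)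
    {x : Fin (m + 1) → ℚ_[p]} (hx : Esc x) (f : MvPolynomial (Fin (m + 1)) ℚ_[p]) (r : ℕ) :
    (∀ n, eval ((pm Φ)^[1 + (r + M * n)] x) f = 0) ∨
      Pool.Agent.Helper86.DML.SSp {n | eval ((pm Φ)^[1 + (r + M * n)] x) f = 0} := by
  obtain ⟨hM1, hM⟩ := hMod
  have hp0 : (p : ℚ_[p]) ≠ 0 := by exact_mod_cast hp.out.ne_zero
  have hp1 : (1 : ℝ) < p := by exact_mod_cast hp.out.one_lt
  obtain ⟨a, s, hs, ha, hΦx⟩ := exists_lift' hΦ.toPre
  have hus : ‖(p : ℚ_[p]) * s‖ = 1 := by
    rw [norm_mul, Padic.norm_p, hs]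
    field_simp
  set u : ℤ_[p] := ⟨p * s, hus.le⟩ with hu
  have hu1 : ‖u‖ = 1 := hus
  have hesc := esc_iterate hd hΦ.toPre hx
  choose t y ht hy using fun n => Esc.exists_chart (hesc n)
  have hne : ∀ n, (pm Φ)^[n] x 0 ≠ 0 := fun n => Esc.ne_zero (hesc n)
  have hden : ∀ n, ‖u + p * eval (Fin.cons (t n) (y n)) (comp a 0)‖ = 1 := fun n =>
    norm_unit_add hu1 (p_mul_lt _)
  have hdne : ∀ n, ((u + p * eval (Fin.cons (t n) (y n)) (comp a 0) : ℤ_[p]) : ℚ_[p]) ≠ 0 := by
    intro n h0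
    have h1 := hden n
    have h2 : ‖((u + p * eval (Fin.cons (t n) (y n)) (comp a 0) : ℤ_[p]) : ℚ_[p])‖ = 1 := h1
    rw [h0, norm_zero] at h2
    exact zero_ne_one h2
  have hstep := fun n => step_chart hΦx (u := u) rfl (hne n) (ht n) (hy n)
  have hst : ∀ n, (u + p * eval (Fin.cons (t n) (y n)) (comp a 0)) * t (n + 1) = p * t n ^ d := by
    intro n
    apply Subtype.coe_injective
    change (((u + p * eval (Fin.cons (t n) (y n)) (comp a 0)) * t (n + 1) : ℤ_[p]) : ℚ_[p]) =
      ((p * t n ^ d : ℤ_[p]) : ℚ_[p])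
    rw [PadicInt.coe_mul, ht (n + 1), Function.iterate_succ_apply', (hstep n).1, PadicInt.coe_mul,
      PadicInt.coe_pow, PadicInt.coe_natCast, ht n, inv_pow]
    have h1 := hdne n
    have h2 := hne n
    field_simp
  have hsy : ∀ n i, (u + p * eval (Fin.cons (t n) (y n)) (comp a 0)) * y (n + 1) i =
      p * eval (Fin.cons (t n) (y n)) (comp a i.succ) := by
    intro n i
    apply Subtype.coe_injective
    change (((u + p * eval (Fin.cons (t n) (y n)) (comp a 0)) * y (n + 1) i : ℤ_[p]) : ℚ_[p]) =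
      ((p * eval (Fin.cons (t n) (y n)) (comp a i.succ) : ℤ_[p]) : ℚ_[p])
    rw [PadicInt.coe_mul, hy (n + 1), Function.iterate_succ_apply', (hstep n).1, (hstep n).2,
      PadicInt.coe_mul, PadicInt.coe_natCast]
    have h1 := hdne n
    have h2 := hne n
    field_simp
  have hy1 : ∀ n i, (p : ℤ_[p]) ∣ y (n + 1) i := by
    intro n i
    have hU : IsUnit (u + p * eval (Fin.cons (t n) (y n)) (comp a 0)) :=
      PadicInt.isUnit_iff.2 (hden n)
    have h1 : (p : ℤ_[p]) ∣ (u + p * eval (Fin.cons (t n) (y n)) (comp a 0)) * y (n + 1) i := by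
      rw [hsy n i]
      exact dvd_mul_right _ _
    exact (hU.dvd_mul_left).mp h1
  have ht0 : ∀ n, t n ≠ 0 := by
    intro n h0
    have h1 := ht n
    rw [h0, PadicInt.coe_zero] at h1
    exact inv_ne_zero (hne n) h1.symm
  have ht1 : ∀ n, (p : ℤ_[p]) ∣ t n := by
    intro n
    have h1 : ‖t n‖ = ‖((pm Φ)^[n] x 0)⁻¹‖ := by
      rw [← ht n]
      rfl
    have h2 : ‖t n‖ < 1 := by
      rw [h1, norm_inv]
      exact inv_lt_one_of_one_lt₀ (hp1.trans_le (hesc n).1)
    rw [← Ideal.mem_span_singleton, ← PadicInt.maximalIdeal_eq_span_p]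
    exact (IsLocalRing.mem_maximalIdeal _).2 (PadicInt.mem_nonunits.2 h2)
  let Z : Sys p m :=
    { u := u
      hu := PadicInt.isUnit_iff.2 hu1
      g := comp a 0
      H := fun i => comp a i.succ
      hdet := by
        have hd1 : 1 ≤ d := by omega
        have h1 := hΦ.unit
        have h2 : (Matrix.of fun i j : Fin m =>
            coeff (Finsupp.single 0 (d - 1) + Finsupp.single j.succ 1) (Φ i.succ)) =
            (PadicInt.Coe.ringHom (p := p)).mapMatrix
              (Matrix.of fun i j : Fin m => eval 0 (pderiv j.succ (comp a i.succ))) := by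
          ext i j
          rw [Matrix.of_apply, RingHom.mapMatrix_apply, Matrix.map_apply, Matrix.of_apply,
            eval_zero_pderiv, coeff_comp hd1]
          exact (ha (i.succ, Pool.Agent.Helper26.MQ.ex hd1 j) (fun h => Fin.succ_ne_zero _ h.1)).symm
        rw [h2, ← RingHom.map_det] at h1
        exact PadicInt.isUnit_iff.2 h1 }
  have H : Orb Z d (fun n => t (n + 1)) (fun n => y (n + 1)) :=
    { t0 := fun n => ht0 _
      tp := fun n => ht1 _
      yp := fun n i => hy1 n i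
      tn := fun n => hst _
      yn := fun n i => hsy _ i }
  obtain ⟨F, hF⟩ := exists_integral f
  have hiff : ∀ n, eval ((pm Φ)^[1 + n] x) f = 0 ↔
      eval (Fin.cons (t (n + 1)) (y (n + 1))) F = 0 := by
    intro n
    rw [add_comm 1 n]
    exact hF _ (hne _) _ _ (ht _) (hy _)
  rcases sys_all hp3 hd hM1 hM H F r with h | h
  · left
    exact fun n => (hiff _).2 (h n)
  · right
    have e : {n | eval ((pm Φ)^[1 + (r + M * n)] x) f = 0} =
        {n | eval (Fin.cons (t (r + M * n + 1)) (y (r + M * n + 1))) F = 0} := by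
      ext n
      exact hiff _
    rw [e]
    exact h

end Pool.Agent.Helper86.MQ
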