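import Mathlib
import Pool.Agent.Helper86.MQ.Defs

/-!
# The local theorems (statements; the proofs are in preparation)
-/

set_option autoImplicit false

namespace Pool.Agent.Helper86.MQ

open MvPolynomial Filter Topology

variable {p : ℕ} [hp : Fact p.Prime] {m d : ℕ}

/-- The region `Esc` is mapped to itself, and the first coordinate grows doubly exponentially. -/
theorem esc_step (hd : 2 ≤ d) {Φ : Fin (m + 1) → MvPolynomial (Fin (m + 1)) ℚ_[p]}
    (hΦ : Good p m d Φ) {x : Fin (m + 1) → ℚ_[p]} (hx : Esc x) :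
    Esc (pm Φ x) ∧ ‖pm Φ x 0‖ = p * ‖x 0‖ ^ d := by
  sorry

/-- Local theorem, all dimensions: one modulus `M` for `Φ`; in each class modulo `M` a polynomial
vanishes either on the whole orbit or at a super-sparse set of times. -/
theorem local_all (hp3 : 3 ≤ p) (hd : 2 ≤ d)
    {Φ : Fin (m + 1) → MvPolynomial (Fin (m + 1)) ℚ_[p]} (hΦ : Good p m d Φ) :
    ∃ M : ℕ, 1 ≤ M ∧ ∀ x, Esc x → ∀ f : MvPolynomial (Fin (m + 1)) ℚ_[p], ∀ r < M,
      (∀ n, eval ((pm Φ)^[r + M * n] x) f = 0) ∨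
      Pool.Agent.Helper86.DML.SSp {n | eval ((pm Φ)^[r + M * n] x) f = 0} := by
  sorry

/-- Local theorem for curves: the orbit tends to the attracting point `yst` at infinity; either all
polynomials are exact (they vanish at all large times or at no large time), or the distance to
`yst` is exactly of size `p ^ (-n)`. -/
theorem local_curve (hp3 : 3 ≤ p) (hd : 2 ≤ d)
    {Φ : Fin (m + 1) → MvPolynomial (Fin (m + 1)) ℚ_[p]} (hΦ : Good p m d Φ) :
    ∃ yst : Fin m → ℚ_[p], ∀ x, Esc x →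
      (∀ i : Fin m, Tendsto (fun n => (pm Φ)^[n] x i.succ / (pm Φ)^[n] x 0) atTop (𝓝 (yst i))) ∧
      ((∀ f : MvPolynomial (Fin (m + 1)) ℚ_[p],
          (∀ᶠ n in atTop, eval ((pm Φ)^[n] x) f = 0) ∨
          (∀ᶠ n in atTop, eval ((pm Φ)^[n] x) f ≠ 0)) ∨
        ∃ c : ℝ, 0 < c ∧ ∀ n, ∃ i : Fin m,
          c * ((p : ℝ)⁻¹) ^ n ≤ ‖(pm Φ)^[n] x i.succ / (pm Φ)^[n] x 0 - yst i‖) := by
  sorry

end Pool.Agent.Helper86.MQ
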