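import Pool.Agent.Helper86.MQ.Ram

/-!
# Generic properties

If a property of coefficient vectors given by solvability of equations holds for no algebraically
independent vector, then it fails off a hypersurface with integer coefficients.
-/

set_option autoImplicit false

namespace Pool.Agent.Helper86.MQ

open MvPolynomial

/-- **Generic properties.** `Bad A c` is preserved by homomorphisms and products. -/
theorem ultra {I : Type} (Bad : ∀ (A : Type) [CommRing A], (I → A) → Prop)
    (hmap : ∀ (A B : Type) [CommRing A] [CommRing B] (φ : A →+* B) (c : I → A), Bad A c →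
      Bad B (fun i => φ (c i)))
    (hprod : ∀ (S : Type) (K : S → Type) [∀ s, Field (K s)] (c : ∀ s, I → K s),
      (∀ s, Bad (K s) (c s)) → Bad (∀ s, K s) (fun i s => c s i))
    (hgen : ∀ (K : Type) [Field K] (c : I → K),
      (∀ R : MvPolynomial I ℤ, R ≠ 0 → aeval c R ≠ 0) → ¬ Bad K c) :
    ∃ R : MvPolynomial I ℤ, R ≠ 0 ∧ ∀ (K : Type) [Field K] (c : I → K), aeval c R ≠ 0 →
      ¬ Bad K c := by
  classical
  by_contra hcon
  push Not at hcon
  have h1 : ∀ R : {R : MvPolynomial I ℤ // R ≠ 0}, ∃ (K : Type) (_ : Field K) (c : I → K),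
      aeval c R.1 ≠ 0 ∧ Bad K c := fun R => hcon R.1 R.2
  choose K hK c hc hbad using h1
  set P : Type := ∀ R : {R : MvPolynomial I ℤ // R ≠ 0}, K R with hP
  set cP : I → P := fun i R => c R i with hcP
  have hbP : Bad P cP := hprod _ K c hbad
  -- the values of the nonzero polynomials
  set T : Submonoid P := Submonoid.map (aeval cP : MvPolynomial I ℤ →ₐ[ℤ] P).toRingHom.toMonoidHom
    (nonZeroDivisors (MvPolynomial I ℤ)) with hT
  have hT0 : (0 : P) ∉ T := by
    rintro ⟨R, hR, h0⟩
    have hR0 : R ≠ 0 := nonZeroDivisors.ne_zero hR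
    have h2 : aeval cP R = 0 := h0
    have h3 := congrFun h2 ⟨R, hR0⟩
    have h4 : (aeval cP R) ⟨R, hR0⟩ = aeval (c ⟨R, hR0⟩) R := by
      have h5 := MvPolynomial.map_aeval (R := ℤ) (g := cP)
        (Pi.evalRingHom K ⟨R, hR0⟩) R
      have h6 : (Pi.evalRingHom K ⟨R, hR0⟩) (aeval cP R) = (aeval cP R) ⟨R, hR0⟩ := rfl
      rw [← h6, h5, aeval_def, coe_eval₂Hom]
      congr 1
    rw [h4] at h3
    exact hc ⟨R, hR0⟩ h3
  have hdis : Disjoint ((⊥ : Ideal P) : Set P) (T : Set P) := by
    rw [Set.disjoint_left]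
    rintro x hx hxT
    have : x = 0 := by simpa using hx
    rw [this] at hxT
    exact hT0 hxT
  obtain ⟨𝔭, hprime, -, hdis'⟩ := Ideal.exists_le_prime_disjoint ⊥ T hdis
  obtain ⟨F, _, φ, hφ⟩ : ∃ (F : Type) (_ : Field F) (φ : P →+* F), ∀ x, φ x = 0 → x ∈ 𝔭 := by
    have := hprime
    refine ⟨FractionRing (P ⧸ 𝔭), inferInstance,
      (algebraMap (P ⧸ 𝔭) (FractionRing (P ⧸ 𝔭))).comp (Ideal.Quotient.mk 𝔭), fun x hx => ?_⟩
    have h3 : Ideal.Quotient.mk 𝔭 x = 0 :=
      (IsFractionRing.injective (P ⧸ 𝔭) (FractionRing (P ⧸ 𝔭))) (by rw [map_zero]; exact hx)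
    rwa [Ideal.Quotient.eq_zero_iff_mem] at h3
  refine hgen F (fun i => φ (cP i)) ?_ (hmap P F φ cP hbP)
  intro R hR h0
  have h2 : aeval (fun i => φ (cP i)) R = φ (aeval cP R) := by
    rw [MvPolynomial.map_aeval, aeval_def, coe_eval₂Hom]
    congr 1
    exact Subsingleton.elim _ _
  rw [h2] at h0
  refine Set.disjoint_left.1 hdis' (hφ _ h0) ?_
  exact ⟨R, mem_nonZeroDivisors_of_ne_zero hR, rfl⟩

theorem isAlgebraic_closure {G : Type} {K : Type} [Field K] (g : G → K) :
    Algebra.IsAlgebraic (Algebra.adjoin ℤ (Set.range fun i =>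
      (⟨g i, Subfield.subset_closure ⟨i, rfl⟩⟩ : Subfield.closure (Set.range g))))
      (Subfield.closure (Set.range g)) := by
  classical
  set A := Subfield.closure (Set.range g) with hA
  set s : Set A := Set.range fun i => (⟨g i, Subfield.subset_closure ⟨i, rfl⟩⟩ : A) with hs
  -- elements of the ring
  have hmem : ∀ a : K, a ∈ Subring.closure (Set.range g) →
      ∃ a' ∈ Algebra.adjoin ℤ s, ((a' : A) : K) = a := by
    intro a ha
    induction ha using Subring.closure_induction with
    | mem x hx =>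
      obtain ⟨i, rfl⟩ := hx
      exact ⟨⟨g i, Subfield.subset_closure ⟨i, rfl⟩⟩, Algebra.subset_adjoin ⟨i, rfl⟩, rfl⟩
    | zero => exact ⟨0, zero_mem _, rfl⟩
    | one => exact ⟨1, one_mem _, rfl⟩
    | add x y _ _ hx hy =>
      obtain ⟨x', hx', rfl⟩ := hx
      obtain ⟨y', hy', rfl⟩ := hy
      exact ⟨x' + y', add_mem hx' hy', rfl⟩
    | mul x y _ _ hx hy =>
      obtain ⟨x', hx', rfl⟩ := hx
      obtain ⟨y', hy', rfl⟩ := hy
      exact ⟨x' * y', mul_mem hx' hy', rfl⟩
    | neg x _ hx =>
      obtain ⟨x', hx', rfl⟩ := hx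
      exact ⟨-x', neg_mem hx', rfl⟩
  refine ⟨fun x => ?_⟩
  obtain ⟨a, ha, b, hb, hab⟩ := Subfield.mem_closure_iff.1 x.2
  obtain ⟨a', ha', rfl⟩ := hmem a ha
  obtain ⟨b', hb', rfl⟩ := hmem b hb
  by_cases hb0 : b' = 0
  · have : x = 0 := by
      apply Subtype.ext
      rw [← hab, hb0]
      simp
    rw [this]
    exact isAlgebraic_zero
  · have hx : b' * x = a' := by
      apply Subtype.ext
      change (b' : K) * (x : K) = (a' : K)
      rw [← hab, mul_div_cancel₀]
      exact fun h => hb0 (Subtype.ext h)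
    refine ⟨Polynomial.C (⟨b', hb'⟩ : Algebra.adjoin ℤ s) * Polynomial.X -
      Polynomial.C (⟨a', ha'⟩ : Algebra.adjoin ℤ s), ?_, ?_⟩
    · intro h0
      have h1 := congrArg (fun P => Polynomial.coeff P 1) h0
      simp only [Polynomial.coeff_sub, Polynomial.coeff_C_mul, Polynomial.coeff_X_one, mul_one,
        Polynomial.coeff_C_succ, sub_zero, Polynomial.coeff_zero] at h1
      exact hb0 (congrArg Subtype.val h1)
    · simp only [map_sub, map_mul, Polynomial.aeval_C, Polynomial.aeval_X]
      change b' * x - a' = 0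
      rw [hx, sub_self]

/-- **Count of parameters.** -/
theorem count_param {I G : Type} [Fintype I] [Fintype G] {K : Type} [Field K] (c : I → K)
    (hc : ∀ R : MvPolynomial I ℤ, R ≠ 0 → aeval c R ≠ 0) (g : G → K)
    (h : ∀ i, c i ∈ Subfield.closure (Set.range g)) : Fintype.card I ≤ Fintype.card G ∧
      ((∃ P : MvPolynomial G ℤ, P ≠ 0 ∧ aeval g P = 0) → Fintype.card I < Fintype.card G) := by
  classical
  set A := Subfield.closure (Set.range g) with hA
  have halg := isAlgebraic_closure g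
  set g' : G → A := fun i => (⟨g i, Subfield.subset_closure ⟨i, rfl⟩⟩ : A) with hg'
  set c' : I → A := fun i => ⟨c i, h i⟩ with hc'
  have hval : ∀ {J : Type} (f : J → A) (R : MvPolynomial J ℤ),
      ((aeval f R : A) : K) = aeval (fun i => (f i : K)) R := by
    intro J f R
    have h5 := MvPolynomial.map_aeval (R := ℤ) (g := f) A.subtype R
    have h6 : A.subtype (aeval f R) = ((aeval f R : A) : K) := rfl
    rw [← h6, h5, aeval_def, coe_eval₂Hom]
    congr 1
  have hci : AlgebraicIndependent ℤ c' := by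
    rw [algebraicIndependent_iff]
    intro R hR
    by_contra hne
    apply hc R hne
    have := hval c' R
    rw [hR] at this
    exact this.symm
  have hinj : Function.Injective (algebraMap ℤ A) := hci.algebraMap_injective
  haveI : FaithfulSMul ℤ A := (faithfulSMul_iff_algebraMap_injective ℤ A).mpr hinj
  have h1 : Cardinal.mk I ≤ Algebra.trdeg ℤ A := hci.cardinalMk_le_trdeg
  have h2 : Algebra.trdeg ℤ A ≤ Cardinal.mk (Set.range g') :=
    Algebra.IsAlgebraic.trdeg_le_cardinalMk ℤ _
  have h3 : Cardinal.mk (Set.range g') ≤ Cardinal.mk G := Cardinal.mk_range_le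
  have hcard : ∀ {n k : ℕ}, (n : Cardinal) ≤ (k : Cardinal) → n ≤ k := fun h => by exact_mod_cast h
  constructor
  · have h4 := (h1.trans h2).trans h3
    rw [Cardinal.mk_fintype, Cardinal.mk_fintype] at h4
    exact hcard h4
  · rintro ⟨P, hP, hP0⟩
    by_contra hcon
    push Not at hcon
    have h5 : Cardinal.mk G ≤ Algebra.trdeg ℤ A := by
      refine le_trans ?_ h1
      rw [Cardinal.mk_fintype, Cardinal.mk_fintype]
      exact_mod_cast hcon
    have h6 := Algebra.IsAlgebraic.isTranscendenceBasis_of_le_trdeg_of_finite ℤ g' h5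
    have h7 := h6.1
    rw [algebraicIndependent_iff] at h7
    apply hP
    apply h7
    apply Subtype.ext
    rw [hval g' P]
    exact hP0

end Pool.Agent.Helper86.MQ
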